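import Pool.Agent.R549.BD.Defs

/-! Basic facts about prefixes in game trees (helper549). -/

namespace Pool.Agent.R549.BD

universe u

namespace GTree

variable (T : GTree.{u})

/-- the prefix of length `n` (the position itself if it is shorter) -/
def res (n : ℕ) (p : T.Pos) : T.Pos := T.par^[T.len p - n] p

theorem len_iter (k : ℕ) (p : T.Pos) : T.len (T.par^[k] p) = T.len p - k := by
  induction k with
  | zero => simp
  | succ k ih => rw [Function.iterate_succ_apply', T.len_par, ih]; omega

theorem len_res (n : ℕ) (p : T.Pos) : T.len (T.res n p) = min n (T.len p) := by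
  unfold res; rw [len_iter]; omega

theorem len_res_of_le {n : ℕ} {p : T.Pos} (h : n ≤ T.len p) : T.len (T.res n p) = n := by
  rw [len_res]; omega

theorem res_of_len_le {n : ℕ} {p : T.Pos} (h : T.len p ≤ n) : T.res n p = p := by
  unfold res; rw [Nat.sub_eq_zero_of_le h]; rfl

theorem res_res {m n : ℕ} (h : m ≤ n) (p : T.Pos) : T.res m (T.res n p) = T.res m p := by
  unfold res
  rw [len_iter, ← Function.iterate_add_apply]
  congr 1; congr 1; omega

theorem res_par {n : ℕ} {p : T.Pos} (h : n < T.len p) : T.res n (T.par p) = T.res n p := by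
  unfold res
  rw [T.len_par, ← Function.iterate_succ_apply]
  congr 1; congr 1; omega

theorem par_res {n : ℕ} {p : T.Pos} (h : n + 1 ≤ T.len p) : T.par (T.res (n+1) p) = T.res n p := by
  unfold res
  rw [← Function.iterate_succ_apply' T.par]
  congr 1; congr 1; omega

theorem play_res {x : ℕ → T.Pos} (hx : T.IsPlay x) {n m : ℕ} (h : n ≤ m) : T.res n (x m) = x n := by
  induction m, h using Nat.le_induction with
  | base => exact T.res_of_len_le (le_of_eq (hx.1 n))
  | succ m hm ih => rw [← T.res_par (by rw [hx.1]; omega), hx.2, ih]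

/-- some child of `p` -/
noncomputable def child (p : T.Pos) : T.Pos := Classical.choose (T.succ p)

theorem child_spec (p : T.Pos) : T.par (T.child p) = p ∧ T.len (T.child p) = T.len p + 1 :=
  Classical.choose_spec (T.succ p)

theorem isStrat_child : T.IsStrat T.child := fun p => T.child_spec p

/-! ### Reachability games -/

/-- Player `b` can force, staying in the arena `S`, a visit to `O`, from the position `v`. -/
def WG (b : ℕ) (S O : Set T.Pos) (v : T.Pos) : Prop :=
  v ∈ S ∧ ∃ τ : T.Pos → T.Pos, T.IsStrat τ ∧ (∀ q ∈ S, T.len q % 2 = b → τ q ∈ S) ∧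
    ∀ x, T.IsPlay x → x (T.len v) = v → (∀ n, T.len v ≤ n → n % 2 = b → x (n+1) = τ (x n)) →
      ∃ n, T.len v ≤ n ∧ x n ∈ O

variable {T}

/-- a strategy witnessing `WG` -/
noncomputable def WG.st {b : ℕ} {S O : Set T.Pos} {v : T.Pos} (h : T.WG b S O v) : T.Pos → T.Pos :=
  Classical.choose (And.right h)

theorem WG.st_spec {b : ℕ} {S O : Set T.Pos} {v : T.Pos} (h : T.WG b S O v) :
    T.IsStrat h.st ∧ (∀ q ∈ S, T.len q % 2 = b → h.st q ∈ S) ∧
    ∀ x, T.IsPlay x → x (T.len v) = v → (∀ n, T.len v ≤ n → n % 2 = b → x (n+1) = h.st (x n)) →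
      ∃ n, T.len v ≤ n ∧ x n ∈ O :=
  Classical.choose_spec (And.right h)

/-- In the arena `S` player `b` always has a move, and the moves of the other player stay inside. -/
structure Arena (b : ℕ) (S : Set T.Pos) : Prop where
  opp : ∀ q ∈ S, T.len q % 2 ≠ b → ∀ q', T.par q' = q → T.len q' = T.len q + 1 → q' ∈ S
  own : ∀ q ∈ S, T.len q % 2 = b → ∃ q' ∈ S, T.par q' = q ∧ T.len q' = T.len q + 1

/-- a strategy staying in the arena -/
theorem Arena.strat {b : ℕ} {S : Set T.Pos} (hS : Arena b S) :
    ∃ τ, T.IsStrat τ ∧ ∀ q ∈ S, T.len q % 2 = b → τ q ∈ S := by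
  classical
  refine ⟨fun q => if h : ∃ q' ∈ S, T.par q' = q ∧ T.len q' = T.len q + 1 then
    Classical.choose h else T.child q, ?_, ?_⟩
  · intro q
    by_cases h : ∃ q' ∈ S, T.par q' = q ∧ T.len q' = T.len q + 1
    · simp only [dif_pos h]; exact (Classical.choose_spec h).2
    · simp only [dif_neg h]; exact T.child_spec q
  · intro q hq hb
    have h := hS.own q hq hb
    simp only [dif_pos h]; exact (Classical.choose_spec h).1

theorem WG.of_mem {b : ℕ} {S O : Set T.Pos} (hS : Arena b S) {v : T.Pos} (hv : v ∈ S)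
    (ho : v ∈ O) : T.WG b S O v := by
  obtain ⟨τ, h1, h2⟩ := hS.strat
  exact ⟨hv, τ, h1, h2, fun x _ hxv _ => ⟨T.len v, le_rfl, by rw [hxv]; exact ho⟩⟩

theorem WG.own {b : ℕ} {S O : Set T.Pos} {v v' : T.Pos} (hv : v ∈ S)
    (hb : T.len v % 2 = b) (hp : T.par v' = v) (hl : T.len v' = T.len v + 1)
    (hw : T.WG b S O v') : T.WG b S O v := by
  classical
  obtain ⟨hv', τ, h1, h2, h3⟩ := hw
  refine ⟨hv, fun q => if q = v then v' else τ q, ?_, ?_, ?_⟩
  · intro q
    by_cases h : q = v
    · simp only [if_pos h]; rw [h]; exact ⟨hp, hl⟩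
    · simp only [if_neg h]; exact h1 q
  · intro q hq hqb
    by_cases h : q = v
    · simp only [if_pos h]; exact hv'
    · simp only [if_neg h]; exact h2 q hq hqb
  · intro x hx hxv hc
    have e1 : x (T.len v + 1) = v' := by
      rw [hc _ le_rfl hb]; simp [hxv]
    obtain ⟨n, hn, hn'⟩ := h3 x hx (by rw [hl, e1]) (by
      intro n hn hnb
      rw [hc n (by omega) hnb]
      have hne : x n ≠ v := by
        intro h
        have := hx.1 n
        rw [h] at this; omega
      simp only [if_neg hne])
    exact ⟨n, by omega, hn'⟩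

theorem WG.opp {b : ℕ} {S O : Set T.Pos} (hS : Arena b S) {v : T.Pos} (hv : v ∈ S)
    (hb : T.len v % 2 ≠ b)
    (hw : ∀ v', T.par v' = v → T.len v' = T.len v + 1 → T.WG b S O v') : T.WG b S O v := by
  classical
  obtain ⟨τ0, g1, g2⟩ := hS.strat
  -- the strategy of a child
  let st : T.Pos → T.Pos → T.Pos := fun v' =>
    if h : T.WG b S O v' then h.st else τ0
  have hst : ∀ v', T.IsStrat (st v') ∧ ∀ q ∈ S, T.len q % 2 = b → st v' q ∈ S := by
    intro v'
    by_cases h : T.WG b S O v'
    · have := h.st_spec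
      simp only [st, dif_pos h]
      exact ⟨this.1, this.2.1⟩
    · simp only [st, dif_neg h]; exact ⟨g1, g2⟩
  refine ⟨hv, fun q => st (T.res (T.len v + 1) q) q, ?_, ?_, ?_⟩
  · intro q; exact (hst _).1 q
  · intro q hq hqb; exact (hst _).2 q hq hqb
  · intro x hx hxv hc
    have hw' := hw (x (T.len v + 1)) (by rw [hx.2, hxv]) (by rw [hx.1])
    have hspec := hw'.st_spec
    obtain ⟨n, hn, hn'⟩ := hspec.2.2 x hx (by rw [hx.1]) (by
      intro n hn hnb
      rw [hx.1] at hn
      have e1 := hc n (by omega) hnb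
      simp only [T.play_res hx hn] at e1
      rw [e1]
      simp only [st, dif_pos hw'])
    rw [hx.1] at hn
    exact ⟨n, by omega, hn'⟩

end GTree

end Pool.Agent.R549.BD
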