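import Mathlib

/-! Interface of the project BD/PP (helper549): Borel determinacy, and plain paradoxes in Borel type
semigroups (MP_cafa5e_lc). All definitions used by the pieces are here; the statements of the pieces
are the `Stm_*` propositions. -/

namespace Pool.Agent.R549.BD

universe u

/-! ## Part I: Borel determinacy -/

/-- A rooted tree all of whose branches are infinite, given by its positions, with length and
parent functions. -/
structure GTree : Type (u+1) where
  Pos : Type u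
  len : Pos → ℕ
  par : Pos → Pos
  root : Pos
  len_root : len root = 0
  eq_root : ∀ p, len p = 0 → p = root
  len_par : ∀ p, len (par p) = len p - 1
  succ : ∀ p, ∃ q, par q = p ∧ len q = len p + 1

namespace GTree

/-- Infinite plays. -/
def IsPlay (T : GTree.{u}) (x : ℕ → T.Pos) : Prop :=
  (∀ n, T.len (x n) = n) ∧ ∀ n, T.par (x (n+1)) = x n

/-- Strategies are total functions giving a child of every position. (Only the values at the
positions `p` with `len p % 2 = i` matter for player `i`.) -/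
def IsStrat (T : GTree.{u}) (s : T.Pos → T.Pos) : Prop :=
  ∀ p, T.par (s p) = p ∧ T.len (s p) = T.len p + 1

/-- The play `x` is consistent with the strategy `s` of player `i` (player `i = 0, 1` moves at the
positions of length `≡ i` mod 2). -/
def Cons (T : GTree.{u}) (i : ℕ) (s : T.Pos → T.Pos) (x : ℕ → T.Pos) : Prop :=
  ∀ n, n % 2 = i → x (n+1) = s (x n)

/-- Determinacy of the game in which player 0 wants the play to be in `A`. -/
def Det (T : GTree.{u}) (A : Set (ℕ → T.Pos)) : Prop :=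
  (∃ s, T.IsStrat s ∧ ∀ x, T.IsPlay x → T.Cons 0 s x → x ∈ A) ∨
  (∃ s, T.IsStrat s ∧ ∀ x, T.IsPlay x → T.Cons 1 s x → x ∉ A)

/-- Borel sets of plays. -/
inductive BorelT (T : GTree.{u}) : Set (ℕ → T.Pos) → Prop
  | fin (m : ℕ) (C : Set T.Pos) : BorelT T {x | x m ∈ C}
  | compl (A : Set (ℕ → T.Pos)) : BorelT T A → BorelT T Aᶜ
  | iUnion (A : ℕ → Set (ℕ → T.Pos)) : (∀ n, BorelT T (A n)) → BorelT T (⋃ n, A n)

end GTree

/-- `Cov N S T`: `S` is an `N`-covering of `T` (in the sense of Martin). -/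
structure Cov (N : ℕ) (S T : GTree.{u}) : Type u where
  pi : S.Pos → T.Pos
  len_pi : ∀ p, T.len (pi p) = S.len p
  par_pi : ∀ p, pi (S.par p) = T.par (pi p)
  /-- `pi` is a bijection between the positions of length `≤ N` -/
  bij : ∀ q, T.len q ≤ N → ∃! p, pi p = q
  phi : ℕ → (S.Pos → S.Pos) → (T.Pos → T.Pos)
  phi_strat : ∀ i, i < 2 → ∀ s, S.IsStrat s → T.IsStrat (phi i s)
  phi_local : ∀ i, i < 2 → ∀ s s', S.IsStrat s → S.IsStrat s' → ∀ n,
    (∀ p, S.len p ≤ n → s p = s' p) → ∀ q, T.len q ≤ n → phi i s q = phi i s' q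
  /-- on the positions of length `< N` the map `phi` is the identity (seen through `pi`) -/
  phi_low : ∀ i, i < 2 → ∀ s, S.IsStrat s → ∀ p, S.len p < N → phi i s (pi p) = pi (s p)
  lift : ∀ i, i < 2 → ∀ s, S.IsStrat s → ∀ x, T.IsPlay x → T.Cons i (phi i s) x →
    ∃ y, S.IsPlay y ∧ S.Cons i s y ∧ ∀ n, pi (y n) = x n

/-- The set `A` of plays of `T` becomes determined by the position of length `m` in `S`. -/
def UnravAt {N : ℕ} {S T : GTree.{u}} (c : Cov N S T) (A : Set (ℕ → T.Pos)) (m : ℕ) : Prop :=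
  ∀ y y', S.IsPlay y → S.IsPlay y' → y m = y' m →
    ((fun n => c.pi (y n)) ∈ A ↔ (fun n => c.pi (y' n)) ∈ A)

/-- L1 (helper549): closed sets are unraveled. -/
def Stm_L1 : Prop :=
  ∀ (T : GTree.{u}) (N : ℕ), N % 2 = 0 → ∀ C : Set T.Pos, (∀ p, p ∈ C → T.par p ∈ C) →
    ∃ (S : GTree.{u}) (c : Cov N S T), UnravAt c {x | ∀ n, x n ∈ C} (N + 2)

/-- L2: inverse limits of coverings. -/
def Stm_L2 : Prop :=
  ∀ (T : ℕ → GTree.{u}) (N : ℕ) (c : ∀ j, Cov (N + 2 * j) (T (j+1)) (T j)),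
    ∃ (S : GTree.{u}) (c0 : Cov N S (T 0)) (f : ∀ j, S.Pos → (T j).Pos),
      (∀ j p, (T j).len (f j p) = S.len p) ∧
      (∀ j p, f j (S.par p) = (T j).par (f j p)) ∧
      (∀ j p, (c j).pi (f (j+1) p) = f j p) ∧ (∀ p, c0.pi p = f 0 p)

/-- L3a: composition of coverings. -/
def Stm_L3a : Prop :=
  ∀ (N : ℕ) (R S T : GTree.{u}) (c : Cov N R S) (d : Cov N S T),
    ∃ e : Cov N R T, ∀ p, e.pi p = d.pi (c.pi p)

/-- L3b: a game whose payoff is determined by the position of length `m` is determined. -/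
def Stm_L3b : Prop :=
  ∀ (T : GTree.{u}) (A : Set (ℕ → T.Pos)) (m : ℕ),
    (∀ y y', T.IsPlay y → T.IsPlay y' → y m = y' m → (y ∈ A ↔ y' ∈ A)) → T.Det A

/-- L4: Borel determinacy. -/
def Stm_BorelDet : Prop :=
  ∀ (T : GTree.{u}) (A : Set (ℕ → T.Pos)), T.BorelT A → T.Det A

/-! ## Part II: labelled trees -/

/-- Labelled trees in which every node has four children. -/
abbrev H : Type := List (Fin 4) → ℕ

/-- Non-expansive maps: the labels of `f h` up to depth `n` depend only on those of `h`. -/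
def NonExp (f : H → H) : Prop :=
  ∀ (n : ℕ) (h h' : H), (∀ w, w.length ≤ n → h w = h' w) → ∀ w, w.length ≤ n → f h w = f h' w

/-- P0: the dichotomy given by Borel determinacy. -/
def Stm_Dich : Prop :=
  ∀ (S : Set (H × H)), MeasurableSet S → ∀ a b : ℕ,
    (∃ f : H → H, NonExp f ∧ (∀ d, f d [] = a) ∧ ∀ d : H, d [] = b → (f d, d) ∈ S) ∨
    (∃ g : H → H, NonExp g ∧ (∀ u, g u [] = b) ∧ ∀ u : H, u [] = a → (u, g u) ∉ S)

/-- The tree with root label `l` and subtrees `ch`. -/
def mk (l : ℕ) (ch : Fin 4 → H) : H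
  | [] => l
  | c :: w => ch c w

/-- The subtree at the child `c`. -/
def sub (h : H) (c : Fin 4) : H := fun w => h (c :: w)

/-- The space of nodes. A node has three out-links (indices `0, 1, 2`) and two in-links (indices
`3, 4`); `x t` is the tree seen across the link `t`. The label of an out-link tree is `2 e + j`
where the link is the in-link `j < 2` of its target, the label of an in-link tree is `3 e + i`,
where the link is the out-link `i < 3` of its source; `e` is an extra label of the link, the same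
on both sides. -/
abbrev X : Type := Fin 5 → H

/-- The rest of the node `x`, seen from the target of its out-link `i`. -/
def uOf (i : Fin 3) (x : X) : H :=
  mk (3 * (x i.castSucc.castSucc [] / 2) + i)
    ![x 3, x 4, x (i + 1).castSucc.castSucc, x (i + 2).castSucc.castSucc]

/-- The rest of the node `x`, seen from the source of its in-link `l`. -/
def dOf (l : Fin 2) (x : X) : H :=
  mk (2 * (x (if l = 0 then 3 else 4) [] / 3) + l) ![x (if l = 0 then 4 else 3), x 0, x 1, x 2]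

/-- the index of the out-link `i` -/
def oI (i : Fin 3) : Fin 5 := i.castSucc.castSucc

/-- the index of the in-link `l` -/
def iI (l : Fin 2) : Fin 5 := if l = 0 then 3 else 4

/-- The target of the link with source side `u` and target side `d`. -/
def tgtNode (u d : H) : X := fun t =>
  if t = 0 then sub d 1 else if t = 1 then sub d 2 else if t = 2 then sub d 3
  else if (t = 3 ↔ d [] % 2 = 0) then u else sub d 0

/-- The source of the link with source side `u` and target side `d`. -/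
def srcNode (u d : H) : X := fun t =>
  if t = 3 then sub u 0 else if t = 4 then sub u 1
  else if t.val = u [] % 3 then d
  else if t.val = (u [] + 1) % 3 then sub u 2 else sub u 3

/-- Moving from `x` across its link `t`. -/
def mv (t : Fin 5) (x : X) : X :=
  if h : t.val < 3 then tgtNode (uOf ⟨t.val, h⟩ x) (x t)
  else srcNode (x t) (dOf (if t = 3 then 0 else 1) x)

/-- The index of the link `t` of `x` seen from the other end. -/
def rev (t : Fin 5) (x : X) : Fin 5 :=
  if t.val < 3 then (if x t [] % 2 = 0 then 3 else 4)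
  else if x t [] % 3 = 0 then 0 else if x t [] % 3 = 1 then 1 else 2

/-- Following a list of moves. -/
def act : List (Fin 5) → X → X
  | [], x => x
  | t :: w, x => act w (mv t x)

/-- P3: the final contradiction. `Xs s, Ys s` are integer-valued functions of links. -/
def Stm_P3 : Prop :=
  Stm_Dich → ∀ (Xs Ys : ℕ → H → H → ℤ) (K : ℤ) (k0 : ℕ),
    (∀ s, Measurable (fun p : H × H => Xs s p.1 p.2)) →
    (∀ s, Measurable (fun p : H × H => Ys s p.1 p.2)) →
    (∀ s u d, 0 ≤ Xs s u d ∧ Xs s u d ≤ K) → (∀ s u d, 0 ≤ Ys s u d ∧ Ys s u d ≤ K) →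
    (∀ s u d, Xs (s+1) u d ≤ Xs s u d) → (∀ s u d, Ys (s+1) u d ≤ Ys s u d) →
    (∀ s, k0 ≤ s → ∀ u d, Xs s u d = 0 ∧ Ys s u d = 0) →
    -- the balance at a node for all tokens
    (∀ x : X, 1 + ∑ l : Fin 2, (Xs 0 (x (iI l)) (dOf l x) - Ys 0 (x (iI l)) (dOf l x)) ≤
      ∑ i : Fin 3, (Xs 0 (uOf i x) (x (oI i)) - Ys 0 (uOf i x) (x (oI i)))) →
    -- the balance at a node for the tokens of age at least `s`
    (∀ s, ∀ x : X, ∑ l : Fin 2, (Xs s (x (iI l)) (dOf l x) - Ys (s+1) (x (iI l)) (dOf l x)) ≤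
      1 + ∑ i : Fin 3, (Xs (s+1) (uOf i x) (x (oI i)) - Ys s (uOf i x) (x (oI i)))) →
    False

/-- P5: a bounded measurable token system with injective ends gives functions as in P3. -/
def Stm_P5 : Prop :=
  ∀ (w : X → Bool → List (Fin 5)) (k : ℕ),
    (∀ x ε, (w x ε).length ≤ k) → (∀ (v : List (Fin 5)) (ε : Bool), MeasurableSet {x | w x ε = v}) →
    (∀ x ε x' ε', act (w x ε) x = act (w x' ε') x' → x = x' ∧ ε = ε') →
    ∃ (Xs Ys : ℕ → H → H → ℤ) (K : ℤ) (k0 : ℕ),
      (∀ s, Measurable (fun p : H × H => Xs s p.1 p.2)) ∧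
      (∀ s, Measurable (fun p : H × H => Ys s p.1 p.2)) ∧
      (∀ s u d, 0 ≤ Xs s u d ∧ Xs s u d ≤ K) ∧ (∀ s u d, 0 ≤ Ys s u d ∧ Ys s u d ≤ K) ∧
      (∀ s u d, Xs (s+1) u d ≤ Xs s u d) ∧ (∀ s u d, Ys (s+1) u d ≤ Ys s u d) ∧
      (∀ s, k0 ≤ s → ∀ u d, Xs s u d = 0 ∧ Ys s u d = 0) ∧
      (∀ x : X, 1 + ∑ l : Fin 2, (Xs 0 (x (iI l)) (dOf l x) - Ys 0 (x (iI l)) (dOf l x)) ≤
        ∑ i : Fin 3, (Xs 0 (uOf i x) (x (oI i)) - Ys 0 (uOf i x) (x (oI i)))) ∧
      (∀ s, ∀ x : X, ∑ l : Fin 2, (Xs s (x (iI l)) (dOf l x) - Ys (s+1) (x (iI l)) (dOf l x)) ≤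
        1 + ∑ i : Fin 3, (Xs (s+1) (uOf i x) (x (oI i)) - Ys s (uOf i x) (x (oI i))))

/-- What P3 and P5 give together: there is no such token system. -/
def Stm_NoTokens : Prop :=
  ∀ (w : X → Bool → List (Fin 5)) (k : ℕ),
    (∀ x ε, (w x ε).length ≤ k) → (∀ (v : List (Fin 5)) (ε : Bool), MeasurableSet {x | w x ε = v}) →
    ¬ (∀ x ε x' ε', act (w x ε) x = act (w x' ε') x' → x = x' ∧ ε = ε')

/-! ## Part III: the type semigroup -/

/-- Equidecomposability of two Borel subsets of `Y × ℕ` (the relation `A ∼ B` of the problem). -/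
def Equidec (Γ Y : Type) [Group Γ] [MulAction Γ Y] [MeasurableSpace Y] (A B : Set (Y × ℕ)) : Prop :=
  ∃ (r : ℕ) (P Q : Fin r → Set (Y × ℕ)) (γ : Fin r → Γ) (j k : Fin r → ℕ),
    (∀ i, MeasurableSet (P i)) ∧ (∀ i, MeasurableSet (Q i)) ∧
    (∀ i i', i ≠ i' → Disjoint (P i) (P i')) ∧ (∀ i i', i ≠ i' → Disjoint (Q i) (Q i')) ∧
    A = (⋃ i, P i) ∧ B = (⋃ i, Q i) ∧
    (∀ i, ∀ p ∈ P i, p.2 = j i) ∧
    ∀ i, Q i = {q | ∃ y, (y, j i) ∈ P i ∧ q = (γ i • y, k i)}

/-- `n` copies of the Borel set `A ⊆ Y`, a representative of `n [A × {0}]`. -/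
def copies {Y : Type} (n : ℕ) (A : Set Y) : Set (Y × ℕ) := {p | p.1 ∈ A ∧ p.2 < n}

/-- `n [A × {0}] ≤ m [A × {0}]` in the type semigroup. -/
def LeCopies (Γ Y : Type) [Group Γ] [MulAction Γ Y] [MeasurableSpace Y] (n m : ℕ) (A : Set Y) :
    Prop :=
  ∃ B ⊆ copies m A, MeasurableSet B ∧ Equidec Γ Y (copies n A) B

/-- P6: the final statement from `Stm_NoTokens`. -/
def Stm_P6 : Prop :=
  Stm_NoTokens →
  ∃ (Y : Type) (_ : MeasurableSpace Y) (_ : StandardBorelSpace Y) (Γ : Type) (_ : Group Γ)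
    (_ : MulAction Γ Y) (A : Set Y), Group.FG Γ ∧ (∀ g : Γ, Measurable (fun y : Y => g • y)) ∧
    MeasurableSet A ∧ LeCopies Γ Y 3 2 A ∧ ¬ LeCopies Γ Y 2 1 A

end Pool.Agent.R549.BD
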