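import Pool.Agent.R549.BD.L1Defs

/-! The unraveling tree of a closed set: strategies of player 1 (helper872). -/

namespace Pool.Agent.R549.BD.L1

open GTree

universe u

variable {T : GTree.{u}} {N : ℕ} {C : Set T.Pos} {hN : N % 2 = 0}

/-- the positions `u` proposed by the strategy `s` at some `(p, a S)` -/
def O1 (s : (UT T N C hN).Pos → (UT T N C hN).Pos) (p : T.Pos) : Set T.Pos :=
  {u | ∃ S, ∃ h : Valid T N C p (.a S), tg (s ⟨(p, .a S), h⟩) = .b S u}

/-- a quasi-strategy at which `s` proposes `u` -/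
noncomputable def Su (s : (UT T N C hN).Pos → (UT T N C hN).Pos) (p u : T.Pos) : Set T.Pos :=
  Classical.epsilon fun S => ∃ h : Valid T N C p (.a S), tg (s ⟨(p, .a S), h⟩) = .b S u

theorem Su_spec {s : (UT T N C hN).Pos → (UT T N C hN).Pos} {p u : T.Pos} (h : u ∈ O1 s p) :
    ∃ h : Valid T N C p (.a (Su s p u)), tg (s ⟨(p, .a (Su s p u)), h⟩) = .b (Su s p u) u :=
  Classical.epsilon_spec (p := fun S => ∃ h : Valid T N C p (.a S),
    tg (s ⟨(p, .a S), h⟩) = .b S u) h

variable (T N) in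
/-- the canonical quasi-strategy of player 0 avoiding `O` -/
def Ss (O : Set T.Pos) (p : T.Pos) : Set T.Pos :=
  {v | N + 1 ≤ T.len v ∧ T.res (N+1) v = p ∧
    ∀ m, N + 1 ≤ m → m ≤ T.len v → ¬ T.WG 1 Set.univ O (T.res m v)}

/-- the answer of `s` at the canonical quasi-strategy -/
noncomputable def t2 (s : (UT T N C hN).Pos → (UT T N C hN).Pos) (p : T.Pos) : Tag T.Pos := by
  classical
  exact if h : Valid T N C p (.a (Ss T N (O1 s p) p)) then
    tg (s ⟨(p, .a (Ss T N (O1 s p) p)), h⟩) else .none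

/-- a winning strategy from `v` for reaching `O` -/
noncomputable def stv (O : Set T.Pos) (v q : T.Pos) : T.Pos := by
  classical
  exact if h : T.WG 1 Set.univ O v then h.st q else T.child q

variable (N) in
/-- the strategy of player 1 above level `N`, from the data given by a strategy in the unraveling
tree -/
noncomputable def G1 (O : Set T.Pos) (su : T.Pos → Set T.Pos) (t : Tag T.Pos)
    (e : Tag T.Pos → T.Pos) (p q : T.Pos) : T.Pos := by
  classical
  exact
    if ∃ m, N + 2 ≤ m ∧ m ≤ T.len q ∧ T.res m q ∈ O then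
      e (.b (su (T.res (sInf {m | N + 2 ≤ m ∧ m ≤ T.len q ∧ T.res m q ∈ O}) q))
        (T.res (sInf {m | N + 2 ≤ m ∧ m ≤ T.len q ∧ T.res m q ∈ O}) q))
    else if ∃ m, N + 1 ≤ m ∧ m ≤ T.len q ∧ T.WG 1 Set.univ O (T.res m q) then
      stv O (T.res (sInf {m | N + 1 ≤ m ∧ m ≤ T.len q ∧ T.WG 1 Set.univ O (T.res m q)}) q) q
    else if T.len q = N + 1 then e (.a (Ss T N O p))
    else e t

/-- the strategy of player 1 in `T` given by a strategy in the unraveling tree -/
noncomputable def phi1 (s : (UT T N C hN).Pos → (UT T N C hN).Pos) (q : T.Pos) : T.Pos :=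
  if T.len q ≤ N then ev s q .none
  else G1 N (O1 s (T.res (N+1) q)) (Su s (T.res (N+1) q)) (t2 s (T.res (N+1) q)) (ev s q)
    (T.res (N+1) q) q

theorem stv_spec (O : Set T.Pos) (v q : T.Pos) :
    T.par (stv O v q) = q ∧ T.len (stv O v q) = T.len q + 1 := by
  unfold stv
  split_ifs with h
  · exact h.st_spec.1 q
  · exact T.child_spec q

theorem phi1_strat {s : (UT T N C hN).Pos → (UT T N C hN).Pos} (hs : (UT T N C hN).IsStrat s) :
    T.IsStrat (phi1 s) := by
  intro q
  unfold phi1 G1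
  split_ifs
  · exact ev_spec hs q _
  · exact ev_spec hs q _
  · exact stv_spec _ _ _
  · exact ev_spec hs q _
  · exact ev_spec hs q _

theorem phi1_local {s s' : (UT T N C hN).Pos → (UT T N C hN).Pos} (n : ℕ)
    (h : ∀ p, (UT T N C hN).len p ≤ n → s p = s' p) (q : T.Pos) (hq : T.len q ≤ n) :
    phi1 s q = phi1 s' q := by
  have hev : ∀ t, ev s q t = ev s' q t := by
    intro t
    refine ev_congr fun z hz => h z ?_
    rw [len_eq, hz]; exact hq
  rcases Nat.lt_or_ge N (T.len q) with h1 | h1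
  · have hp : T.len (T.res (N+1) q) = N + 1 := T.len_res_of_le (by omega)
    have hz : ∀ z : (UT T N C hN).Pos, up z = T.res (N+1) q → s z = s' z := by
      intro z hz
      refine h z ?_
      rw [len_eq, hz]; omega
    generalize hpp : T.res (N+1) q = p at *
    have hO : O1 s p = O1 s' p := by
      unfold O1
      ext u
      constructor
      · rintro ⟨S, h2, h3⟩
        refine ⟨S, h2, ?_⟩
        rw [← hz ⟨(p, .a S), h2⟩ rfl]; exact h3
      · rintro ⟨S, h2, h3⟩
        refine ⟨S, h2, ?_⟩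
        rw [hz ⟨(p, .a S), h2⟩ rfl]; exact h3
    have hSu : ∀ u, Su s p u = Su s' p u := by
      intro u
      unfold Su
      congr 1
      funext S
      apply propext
      constructor
      · rintro ⟨h2, h3⟩
        refine ⟨h2, ?_⟩
        rw [← hz ⟨(p, .a S), h2⟩ rfl]; exact h3
      · rintro ⟨h2, h3⟩
        refine ⟨h2, ?_⟩
        rw [hz ⟨(p, .a S), h2⟩ rfl]; exact h3
    have ht2 : t2 s p = t2 s' p := by
      unfold t2
      rw [← hO]
      split_ifs with h2
      · rw [hz ⟨(p, .a (Ss T N (O1 s p) p)), h2⟩ rfl]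
      · rfl
    unfold phi1
    rw [if_neg (by omega), if_neg (by omega), hpp, hO, funext hSu, ht2,
      show ev s q = ev s' q from funext hev]
  · unfold phi1
    rw [if_pos h1, if_pos h1, hev]

theorem phi1_low {s : (UT T N C hN).Pos → (UT T N C hN).Pos} (p : (UT T N C hN).Pos)
    (h : T.len (up p) ≤ N) : phi1 s (up p) = up (s p) := by
  unfold phi1
  rw [if_pos h, ← tg_low p h, ev_eq]

/-! ### The canonical quasi-strategy -/

theorem arena_univ : Arena (T := T) 1 Set.univ :=
  ⟨fun _ _ _ _ _ _ => trivial, fun q _ _ => ⟨T.child q, trivial, T.child_spec q⟩⟩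

theorem qi_Ss {O : Set T.Pos} {p : T.Pos} (hp : T.len p = N + 1) (_hN : N % 2 = 0)
    (hw : ¬ T.WG 1 Set.univ O p) : QI T N p (Ss T N O p) := by
  have key : ∀ q ∈ Ss T N O p, ∀ q', T.par q' = q → T.len q' = T.len q + 1 →
      ¬ T.WG 1 Set.univ O q' → q' ∈ Ss T N O p := by
    rintro q ⟨h1, h2, h3⟩ q' e1 e2 e3
    refine ⟨by omega, by rw [← T.res_par (by omega), e1, h2], ?_⟩
    intro m h4 h5
    rcases Nat.lt_or_ge m (T.len q') with h6 | h6
    · rw [← T.res_par h6, e1]
      exact h3 m h4 (by omega)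
    · rw [T.res_of_len_le h6]; exact e3
  refine ⟨⟨by omega, T.res_of_len_le (by omega), ?_⟩, fun q hq => ⟨hq.1, hq.2.1⟩, ?_, ⟨?_, ?_⟩⟩
  · intro m h4 h5
    rw [T.res_of_len_le (by omega)]; exact hw
  · rintro q ⟨h1, h2, h3⟩ h4
    refine ⟨by rw [T.len_par]; omega, by rw [T.res_par h4]; exact h2, ?_⟩
    intro m h5 h6
    rw [T.len_par] at h6
    rw [T.res_par (by omega)]
    exact h3 m h5 (by omega)
  · intro q hq hodd q' e1 e2
    refine key q hq q' e1 e2 fun hwq => ?_
    refine hq.2.2 (T.len q) hq.1 le_rfl ?_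
    rw [T.res_of_len_le le_rfl]
    exact WG.own (v' := q') trivial (by omega) e1 e2 hwq
  · intro q hq heven
    by_contra hcon
    refine hq.2.2 (T.len q) hq.1 le_rfl ?_
    rw [T.res_of_len_le le_rfl]
    refine WG.opp arena_univ trivial (by omega) fun q' e1 e2 => ?_
    by_contra h
    exact hcon ⟨q', key q hq q' e1 e2 h, e1, e2⟩

theorem len_O1 {s : (UT T N C hN).Pos → (UT T N C hN).Pos} {p u : T.Pos} (h : u ∈ O1 s p) :
    N + 2 ≤ T.len u := by
  obtain ⟨S, h1, h2⟩ := h
  have := valid (s ⟨(p, .a S), h1⟩)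
  rw [h2] at this
  exact this.2.2.2.2.1

/-- the tag of a child of a position with tag `a S` -/
theorem toA_child {z z' : (UT T N C hN).Pos} (hp : (UT T N C hN).par z' = z)
    (hl : T.len (up z') = N + 2) : toA (tg z') = tg z := by
  rw [← hp, tg_par]
  unfold parTag
  rw [if_neg (by omega), if_pos hl]

theorem tag_Ss {s : (UT T N C hN).Pos → (UT T N C hN).Pos} (hs : (UT T N C hN).IsStrat s)
    {p : T.Pos} (hp : T.len p = N + 1) (hw : ¬ T.WG 1 Set.univ (O1 s p) p)
    (h : Valid T N C p (.a (Ss T N (O1 s p) p))) :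
    ∃ R, tg (s ⟨(p, .a (Ss T N (O1 s p) p)), h⟩) = .c (Ss T N (O1 s p) p) R := by
  set z : (UT T N C hN).Pos := ⟨(p, .a (Ss T N (O1 s p) p)), h⟩ with hz
  have hzu : up z = p := rfl
  have hlen : T.len (up (s z)) = N + 2 := by
    have := (hs z).2
    rw [len_eq, len_eq, hzu, hp] at this
    omega
  have hA := toA_child (hs z).1 hlen
  have hzt : tg z = .a (Ss T N (O1 s p) p) := rfl
  rcases tg_high (s z) (by omega) with ⟨S, u, h1⟩ | ⟨S, R, h1⟩
  · exfalso
    rw [h1, hzt] at hA
    have hS : S = Ss T N (O1 s p) p := by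
      have : Tag.a S = Tag.a (Ss T N (O1 s p) p) := hA
      injection this
    subst hS
    have hu : u ∈ O1 s p := ⟨_, h, h1⟩
    have hv := valid (s z)
    rw [h1] at hv
    have huS : u ∈ Ss T N (O1 s p) p := hv.2.2.1
    refine huS.2.2 (T.len u) huS.1 le_rfl ?_
    rw [T.res_of_len_le le_rfl]
    exact WG.of_mem arena_univ trivial hu
  · refine ⟨R, ?_⟩
    rw [h1, hzt] at hA
    have hS : S = Ss T N (O1 s p) p := by
      have : Tag.a S = Tag.a (Ss T N (O1 s p) p) := hA
      injection this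
    rw [h1, hS]

/-! ### Lifting -/

theorem compat_res {q u : T.Pos} (h : Compat T q u) (hl : T.len q ≤ T.len u) :
    T.res (T.len q) u = q := by
  rcases h with ⟨h1, h2⟩ | ⟨_, h2⟩
  · have e : T.len u = T.len q := le_antisymm h1 hl
    rw [T.res_of_len_le (le_of_eq e), ← h2, e, T.res_of_len_le le_rfl]
  · exact h2

theorem compat_play {x : ℕ → T.Pos} (hx : T.IsPlay x) (n m : ℕ) : Compat T (x n) (x m) := by
  rcases le_total m n with h | h
  · left
    rw [hx.1, hx.1]
    exact ⟨h, T.play_res hx h⟩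
  · right
    rw [hx.1, hx.1]
    exact ⟨h, T.play_res hx h⟩

/-- Building a lifted play from tags. -/
theorem build {s : (UT T N C hN).Pos → (UT T N C hN).Pos} (hs : (UT T N C hN).IsStrat s)
    {x : ℕ → T.Pos} (hx : T.IsPlay x) (S : Set T.Pos) (t : Tag T.Pos) (ht : toA t = .a S)
    (hv1 : Valid T N C (x (N+1)) (.a S)) (hv2 : ∀ n, N + 2 ≤ n → Valid T N C (x n) t)
    (h1 : ∀ n, n < N → n % 2 = 1 → ∀ z : (UT T N C hN).Pos, up z = x n → up (s z) = x (n+1))
    (h2 : up (s ⟨(x (N+1), .a S), hv1⟩) = x (N+2) ∧ tg (s ⟨(x (N+1), .a S), hv1⟩) = t)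
    (h3 : ∀ n (hn : N + 2 ≤ n), n % 2 = 1 → up (s ⟨(x n, t), hv2 n hn⟩) = x (n+1)) :
    ∃ y, (UT T N C hN).IsPlay y ∧ (UT T N C hN).Cons 1 s y ∧ ∀ n, up (y n) = x n := by
  let τ : ℕ → Tag T.Pos := fun n => if n ≤ N then .none else if n = N + 1 then .a S else t
  have hτ1 : ∀ n, n ≤ N → τ n = .none := fun n hn => if_pos hn
  have hτ2 : τ (N+1) = .a S := by
    show (if N + 1 ≤ N then Tag.none else if N + 1 = N + 1 then Tag.a S else t) = _
    rw [if_neg (by omega), if_pos rfl]
  have hτ3 : ∀ n, N + 2 ≤ n → τ n = t := by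
    intro n hn
    show (if n ≤ N then Tag.none else if n = N + 1 then Tag.a S else t) = _
    rw [if_neg (by omega), if_neg (by omega)]
  have hval : ∀ n, Valid T N C (x n) (τ n) := by
    intro n
    rcases Nat.lt_or_ge N n with h | h
    · rcases Nat.lt_or_ge (N+1) n with h' | h'
      · rw [hτ3 n h']; exact hv2 n h'
      · have : n = N + 1 := by omega
        subst this
        rw [hτ2]; exact hv1
    · rw [hτ1 n h]
      show T.len (x n) ≤ N
      rw [hx.1]; exact h
  let y : ℕ → (UT T N C hN).Pos := fun n => ⟨(x n, τ n), hval n⟩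
  have hyu : ∀ n, up (y n) = x n := fun _ => rfl
  have hyt : ∀ n, tg (y n) = τ n := fun _ => rfl
  have hlen : ∀ n, T.len (up (s (y n))) = n + 1 := by
    intro n
    have := (hs (y n)).2
    rw [len_eq, len_eq, hyu, hx.1] at this
    exact this
  refine ⟨y, ⟨fun n => hx.1 n, fun n => ext' (hx.2 n) ?_⟩, ?_, hyu⟩
  · rw [tg_par, hyu, hyt, hyt, hx.1]
    unfold parTag
    split_ifs with h h'
    · rw [hτ1 n (by omega)]
    · have : n = N + 1 := by omega
      subst this
      rw [hτ2, hτ3 _ le_rfl, ht]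
    · rw [hτ3 n (by omega), hτ3 (n+1) (by omega)]
  · intro n hodd
    have hne : n ≠ N := by omega
    rcases Nat.lt_or_ge n N with h | h
    · refine ext' ?_ ?_
      · rw [hyu, h1 n h hodd (y n) (hyu n)]
      · rw [hyt, hτ1 _ (by omega), tg_low _ (by rw [hlen]; omega)]
    · rcases Nat.lt_or_ge (N+1) n with h' | h'
      · have e : y n = ⟨(x n, t), hv2 n h'⟩ := ext' rfl (by rw [hyt, hτ3 n h']; rfl)
        refine ext' ?_ ?_
        · rw [hyu, e, h3 n h' hodd]
        · rw [hyt, hτ3 _ (by omega), tg_child (hs (y n)).1 (by rw [hlen, hyu, hx.1])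
            (by rw [hyu, hx.1]; exact h'), hyt, hτ3 n h']
      · have hn : n = N + 1 := by omega
        subst hn
        have e : y (N+1) = ⟨(x (N+1), .a S), hv1⟩ := ext' rfl (by rw [hyt, hτ2]; rfl)
        refine ext' ?_ ?_
        · rw [hyu, e, h2.1]
        · rw [hyt, hτ3 _ le_rfl, e, h2.2]

theorem phi1_lift {s : (UT T N C hN).Pos → (UT T N C hN).Pos} (hs : (UT T N C hN).IsStrat s)
    (x : ℕ → T.Pos) (hx : T.IsPlay x) (hc : T.Cons 1 (phi1 s) x) :
    ∃ y, (UT T N C hN).IsPlay y ∧ (UT T N C hN).Cons 1 s y ∧ ∀ n, up (y n) = x n := by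
  classical
  have hlow : ∀ n, n < N → n % 2 = 1 → ∀ z : (UT T N C hN).Pos, up z = x n →
      up (s z) = x (n+1) := by
    intro n h1 h2 z hz
    rw [hc n h2, ← hz, phi1_low z (by rw [hz, hx.1]; omega)]
  have hres : ∀ n, N + 1 ≤ n → T.res (N+1) (x n) = x (N+1) := fun n hn => T.play_res hx hn
  set p := x (N+1) with hp
  have hplen : T.len p = N + 1 := hx.1 _
  -- the set of indices at which the play is in `O1`
  have hset : ∀ n, N + 1 ≤ n →
      {m | N + 2 ≤ m ∧ m ≤ T.len (x n) ∧ T.res m (x n) ∈ O1 s p} =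
      {m | N + 2 ≤ m ∧ m ≤ n ∧ x m ∈ O1 s p} := by
    intro n _
    ext m
    simp only [Set.mem_ofPred_eq, hx.1]
    constructor
    · rintro ⟨a1, a2, a3⟩
      rw [T.play_res hx a2] at a3; exact ⟨a1, a2, a3⟩
    · rintro ⟨a1, a2, a3⟩
      refine ⟨a1, a2, ?_⟩
      rw [T.play_res hx a2]; exact a3
  have hset' : ∀ n, N + 1 ≤ n →
      {m | N + 1 ≤ m ∧ m ≤ T.len (x n) ∧ T.WG 1 Set.univ (O1 s p) (T.res m (x n))} =
      {m | N + 1 ≤ m ∧ m ≤ n ∧ T.WG 1 Set.univ (O1 s p) (x m)} := by
    intro n _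
    ext m
    simp only [Set.mem_ofPred_eq, hx.1]
    constructor
    · rintro ⟨a1, a2, a3⟩
      rw [T.play_res hx a2] at a3; exact ⟨a1, a2, a3⟩
    · rintro ⟨a1, a2, a3⟩
      refine ⟨a1, a2, ?_⟩
      rw [T.play_res hx a2]; exact a3
  by_cases hA : ∃ m, N + 2 ≤ m ∧ x m ∈ O1 s p
  · -- the play reaches `O1`
    obtain ⟨m0, ⟨hm0, hm0'⟩, hmin⟩ : ∃ m0, (N + 2 ≤ m0 ∧ x m0 ∈ O1 s p) ∧
        ∀ m, N + 2 ≤ m → x m ∈ O1 s p → m0 ≤ m :=
      ⟨Nat.find hA, Nat.find_spec hA, fun m a b => Nat.find_min' hA ⟨a, b⟩⟩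
    have hinf : ∀ n, m0 ≤ n → sInf {m | N + 2 ≤ m ∧ m ≤ n ∧ x m ∈ O1 s p} = m0 := by
      intro n hn
      have hne : {m | N + 2 ≤ m ∧ m ≤ n ∧ x m ∈ O1 s p}.Nonempty := ⟨m0, hm0, hn, hm0'⟩
      refine le_antisymm (Nat.sInf_le ⟨hm0, hn, hm0'⟩) ?_
      obtain ⟨a1, _, a3⟩ := Nat.sInf_mem hne
      exact hmin _ a1 a3
    obtain ⟨hvA, htA⟩ := Su_spec hm0'
    set u := x m0 with hu
    set S := Su s p u with hS
    have hvz := valid (s ⟨(p, .a S), hvA⟩)
    rw [htA] at hvz
    have hv2 : ∀ n, N + 2 ≤ n → Valid T N C (x n) (.b S u) := by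
      intro n hn
      refine ⟨by rw [hx.1]; exact hn, ?_, hvz.2.2.1, hvz.2.2.2.1, hvz.2.2.2.2.1,
        compat_play hx n m0⟩
      rw [hres n (by omega)]
      exact hvA.2
    have hcomp : ∀ z : (UT T N C hN).Pos, tg z = .b S u → T.len (up z) ≤ m0 →
        up z = x (T.len (up z)) := by
      intro z h1 h2
      have h3 := valid z
      rw [h1] at h3
      have h4 := compat_res h3.2.2.2.2.2 (by rw [hx.1]; exact h2)
      rw [← h4, T.play_res hx h2, hx.1]
    refine build hs hx S (.b S u) rfl hvA hv2 hlow ⟨?_, htA⟩ ?_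
    · have hl : T.len (up (s ⟨(p, .a S), hvA⟩)) = N + 2 := by
        have := (hs ⟨(p, .a S), hvA⟩).2
        rw [len_eq, len_eq] at this
        rw [this]
        show T.len p + 1 = _
        omega
      rw [hcomp _ htA (hl.le.trans hm0), hl]
    · intro n hn hodd
      set z : (UT T N C hN).Pos := ⟨(x n, .b S u), hv2 n hn⟩ with hz
      have hl : T.len (up (s z)) = n + 1 := by
        have := (hs z).2
        rw [len_eq, len_eq] at this
        rw [this]
        show T.len (x n) + 1 = _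
        rw [hx.1]
      have htz : tg (s z) = .b S u := by
        rw [tg_child (hs z).1 (by rw [hl]; show _ = T.len (x n) + 1; rw [hx.1])
          (by show _ ≤ T.len (x n); rw [hx.1]; exact hn)]
        rfl
      rcases Nat.lt_or_ge n m0 with h | h
      · rw [hcomp _ htz (by omega), hl]
      · have e : phi1 s (x n) = ev s (x n) (.b S u) := by
          unfold phi1
          rw [if_neg (by rw [hx.1]; omega), hres n (by omega)]
          unfold G1
          rw [if_pos, hset n (by omega), hinf n h, T.play_res hx h]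
          have : m0 ∈ {m | N + 2 ≤ m ∧ m ≤ T.len (x n) ∧ T.res m (x n) ∈ O1 s p} := by
            rw [hset n (by omega)]; exact ⟨hm0, h, hm0'⟩
          exact ⟨m0, this⟩
        rw [hc n hodd, e]
        exact (ev_eq z).symm
  · -- the play avoids `O1`
    push Not at hA
    have hno : ∀ n, N + 1 ≤ n →
        ¬ ∃ m, N + 2 ≤ m ∧ m ≤ T.len (x n) ∧ T.res m (x n) ∈ O1 s p := by
      rintro n hn ⟨m, hm⟩
      have : m ∈ {m | N + 2 ≤ m ∧ m ≤ T.len (x n) ∧ T.res m (x n) ∈ O1 s p} := hm
      rw [hset n hn] at this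
      exact hA m this.1 this.2.2
    have hnW : ∀ m, N + 1 ≤ m → ¬ T.WG 1 Set.univ (O1 s p) (x m) := by
      by_contra hcon
      push Not at hcon
      obtain ⟨m1, ⟨hm1, hm1'⟩, hmin⟩ : ∃ m1, (N + 1 ≤ m1 ∧ T.WG 1 Set.univ (O1 s p) (x m1)) ∧
          ∀ m, N + 1 ≤ m → T.WG 1 Set.univ (O1 s p) (x m) → m1 ≤ m :=
        ⟨Nat.find hcon, Nat.find_spec hcon, fun m a b => Nat.find_min' hcon ⟨a, b⟩⟩
      have hinf : ∀ n, m1 ≤ n →
          sInf {m | N + 1 ≤ m ∧ m ≤ n ∧ T.WG 1 Set.univ (O1 s p) (x m)} = m1 := by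
        intro n hn
        have hne : {m | N + 1 ≤ m ∧ m ≤ n ∧ T.WG 1 Set.univ (O1 s p) (x m)}.Nonempty :=
          ⟨m1, hm1, hn, hm1'⟩
        refine le_antisymm (Nat.sInf_le ⟨hm1, hn, hm1'⟩) ?_
        obtain ⟨a1, _, a3⟩ := Nat.sInf_mem hne
        exact hmin _ a1 a3
      obtain ⟨n, hn, hn'⟩ := hm1'.st_spec.2.2 x hx (by rw [hx.1]) (by
        intro n hn hodd
        rw [hx.1] at hn
        rw [hc n hodd]
        unfold phi1
        rw [if_neg (by rw [hx.1]; omega), hres n (by omega)]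
        unfold G1
        rw [if_neg (hno n (by omega)), if_pos, hset' n (by omega), hinf n hn, T.play_res hx hn]
        · unfold stv
          rw [dif_pos hm1']
        · have : m1 ∈ {m | N + 1 ≤ m ∧ m ≤ T.len (x n) ∧
              T.WG 1 Set.univ (O1 s p) (T.res m (x n))} := by
            rw [hset' n (by omega)]; exact ⟨hm1, hn, hm1'⟩
          exact ⟨m1, this⟩)
      have h2 := len_O1 hn'
      rw [hx.1] at h2
      exact hA n h2 hn'
    have hQI : QI T N p (Ss T N (O1 s p) p) := qi_Ss hplen hN (hnW (N+1) le_rfl)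
    have hvA : Valid T N C p (.a (Ss T N (O1 s p) p)) := ⟨hplen, hQI⟩
    obtain ⟨R, hR⟩ := tag_Ss hs hplen (hnW (N+1) le_rfl) hvA
    have ht2 : t2 s p = .c (Ss T N (O1 s p) p) R := by
      unfold t2
      rw [dif_pos hvA, hR]
    set S := Ss T N (O1 s p) p with hS
    have hphi : ∀ n, N + 1 ≤ n → phi1 s (x n) =
        if n = N + 1 then ev s (x n) (.a S) else ev s (x n) (.c S R) := by
      intro n hn
      unfold phi1
      rw [if_neg (by rw [hx.1]; omega), hres n hn]
      unfold G1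
      rw [if_neg (hno n hn), if_neg, hx.1, ht2, ← hS]
      rintro ⟨m, hm⟩
      have : m ∈ {m | N + 1 ≤ m ∧ m ≤ T.len (x n) ∧
              T.WG 1 Set.univ (O1 s p) (T.res m (x n))} := hm
      rw [hset' n hn] at this
      exact hnW m this.1 this.2.2
    have hup : up (s ⟨(p, .a S), hvA⟩) = x (N+2) := by
      rw [hc (N+1) (by omega), hphi (N+1) le_rfl, if_pos rfl]
      exact (ev_eq (⟨(p, .a S), hvA⟩ : (UT T N C hN).Pos)).symm
    have hvz := valid (s ⟨(p, .a S), hvA⟩)
    rw [hR, hup] at hvz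
    have hQII : QII T N C S (x (N+2)) R := by
      have := hvz.2.2.1
      rwa [T.res_of_len_le (by rw [hx.1])] at this
    have hxS : ∀ n, N + 1 ≤ n → x n ∈ S := by
      intro n hn
      refine ⟨by rw [hx.1]; exact hn, hres n hn, ?_⟩
      intro m h1 h2
      rw [hx.1] at h2
      rw [T.play_res hx h2]
      exact hnW m h1
    have hval : ∀ n, N + 2 ≤ n → x n ∈ R → Valid T N C (x n) (.c S R) := by
      intro n hn hr
      refine ⟨by rw [hx.1]; exact hn, by rw [hres n (by omega)]; exact hQI, ?_, hr⟩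
      rw [T.play_res hx hn]; exact hQII
    have hstep : ∀ n (hn : N + 2 ≤ n) (hr : x n ∈ R), n % 2 = 1 →
        up (s ⟨(x n, .c S R), hval n hn hr⟩) = x (n+1) := by
      intro n hn hr hodd
      rw [hc n hodd, hphi n (by omega), if_neg (by omega)]
      exact (ev_eq (⟨(x n, .c S R), hval n hn hr⟩ : (UT T N C hN).Pos)).symm
    have hxR : ∀ n, N + 2 ≤ n → x n ∈ R := by
      intro n hn
      induction n, hn using Nat.le_induction with
      | base => exact hvz.2.2.2
      | succ n hn ih =>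
          rcases Nat.mod_two_eq_zero_or_one n with h | h
          · exact hQII.opp (x n) ih (by rw [hx.1]; exact h) _ (hxS (n+1) (by omega)) (hx.2 n)
              (by rw [hx.1, hx.1])
          · rw [← hstep n hn ih h]
            set z : (UT T N C hN).Pos := ⟨(x n, .c S R), hval n hn ih⟩ with hz
            have hl : T.len (up (s z)) = n + 1 := by
              have := (hs z).2
              rw [len_eq, len_eq] at this
              rw [this]
              show T.len (x n) + 1 = _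
              rw [hx.1]
            have htz : tg (s z) = .c S R := by
              rw [tg_child (hs z).1 (by rw [hl]; show _ = T.len (x n) + 1; rw [hx.1])
                (by show _ ≤ T.len (x n); rw [hx.1]; exact hn)]
              rfl
            have := valid (s z)
            rw [htz] at this
            exact this.2.2.2
    exact build hs hx S (.c S R) rfl hvA (fun n hn => hval n hn (hxR n hn)) hlow ⟨hup, hR⟩
      fun n hn hodd => hstep n hn (hxR n hn) hodd

end Pool.Agent.R549.BD.L1
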