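import Pool.Agent.R549.BD.L1a
import Pool.Agent.R549.BD.L1b

/-! Closed sets are unraveled (helper549, helper872). -/

namespace Pool.Agent.R549.BD.L1

open GTree

universe u

theorem main : Stm_L1.{u} := by
  intro T N hN C hC
  refine ⟨UT T N C hN, 
    { pi := up
      len_pi := fun p => rfl
      par_pi := fun p => rfl
      bij := ?_
      phi := fun i s => if i = 0 then phi0 s else phi1 s
      phi_strat := ?_
      phi_local := ?_
      phi_low := ?_
      lift := ?_ }, ?_⟩
  · intro q hq
    refine ⟨⟨(q, .none), hq⟩, rfl, ?_⟩
    intro z hz
    have hz' : up z = q := hz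
    refine ext' hz' ?_
    rw [tg_low z (by rw [hz']; exact hq)]; rfl
  · intro i hi s hs
    show T.IsStrat (if i = 0 then phi0 s else phi1 s)
    split_ifs with h
    · exact phi0_strat hs
    · exact phi1_strat hs
  · intro i hi s s' hs hs' n h q hq
    show (if i = 0 then phi0 s else phi1 s) q = (if i = 0 then phi0 s' else phi1 s') q
    split_ifs with h0
    · exact phi0_local n h q hq
    · exact phi1_local n h q hq
  · intro i hi s hs p hp
    show (if i = 0 then phi0 s else phi1 s) (up p) = up (s p)
    split_ifs with h0
    · exact phi0_low p (le_of_lt hp)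
    · exact phi1_low p (le_of_lt hp)
  · intro i hi s hs x hx hc
    have hc' : T.Cons i (if i = 0 then phi0 s else phi1 s) x := hc
    by_cases h0 : i = 0
    · subst h0
      rw [if_pos rfl] at hc'
      exact phi0_lift hs x hx hc'
    · have h1 : i = 1 := by omega
      subst h1
      rw [if_neg (by omega)] at hc'
      exact phi1_lift hs x hx hc'
  · -- the unraveling
    have key : ∀ y : ℕ → (UT T N C hN).Pos, (UT T N C hN).IsPlay y →
        ((∀ n, up (y n) ∈ C) ↔ ∃ S R, tg (y (N+2)) = .c S R) := by
      intro y hy
      have hl : ∀ n, T.len (up (y n)) = n := fun n => hy.1 n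
      have hpl : T.IsPlay (fun n => up (y n)) := ⟨hl, fun n => by
        show T.par (up (y (n+1))) = up (y n)
        rw [← up_par, hy.2]⟩
      have htag : ∀ n, N + 2 ≤ n → tg (y n) = tg (y (N+2)) := by
        intro n hn
        induction n, hn using Nat.le_induction with
        | base => rfl
        | succ n hn ih =>
            rw [← ih]
            exact tg_child (hy.2 n) (by rw [hl, hl]) (by rw [hl]; exact hn)
      constructor
      · intro hall
        rcases tg_high (y (N+2)) (by rw [hl]) with ⟨S, u, h⟩ | h
        · exfalso
          have hv := valid (y (N+2))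
          rw [h] at hv
          obtain ⟨_, _, _, h6, h7, _⟩ := hv
          have hv' := valid (y (T.len u))
          rw [htag _ h7, h] at hv'
          obtain ⟨_, _, _, _, _, h8⟩ := hv'
          unfold Compat at h8
          rw [hl] at h8
          have hu : up (y (T.len u)) = u := by
            rcases h8 with ⟨_, a2⟩ | ⟨_, a2⟩
            · rwa [T.res_of_len_le (by rw [hl])] at a2
            · rw [T.res_of_len_le le_rfl] at a2; exact a2.symm
          exact h6 (hu ▸ hall (T.len u))
        · exact h
      · rintro ⟨S, R, h⟩ n
        have high : ∀ n, N + 2 ≤ n → up (y n) ∈ C := by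
          intro n hn
          have hv := valid (y n)
          rw [htag n hn, h] at hv
          exact (hv.2.2.1.res _ hv.2.2.2).2.1
        rcases Nat.lt_or_ge n (N+2) with h1 | h1
        · have : ∀ k, k ≤ N + 2 → up (y (N + 2 - k)) ∈ C := by
            intro k
            induction k with
            | zero => intro _; exact high _ le_rfl
            | succ k ih =>
                intro hk
                have h2 := hC _ (ih (by omega))
                have h3 : N + 2 - k = (N + 2 - (k+1)) + 1 := by omega
                rw [h3, ← up_par, hy.2] at h2
                exact h2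
          have := this (N + 2 - n) (by omega)
          rwa [show N + 2 - (N + 2 - n) = n by omega] at this
        · exact high n h1
    intro y y' hy hy' he
    show (∀ n, up (y n) ∈ C) ↔ (∀ n, up (y' n) ∈ C)
    rw [key y hy, key y' hy', he]

end Pool.Agent.R549.BD.L1
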