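import Pool.Agent.R549.BD.Base

/-! The unraveling tree of a closed set (helper549). `T` is a tree, `N` is even, `C` is the tree of a
closed set. At level `N` player 0 also chooses a quasi-strategy `S` (tag `a S`), and at level `N+1`
player 1 chooses either a position `u ∈ S \ C` (tag `b S u`) or a quasi-strategy `R ⊆ S ∩ C`
(tag `c S R`). -/

namespace Pool.Agent.R549.BD.L1

open GTree

universe u

/-- tags -/
inductive Tag (P : Type u) : Type u
  | none : Tag P
  | a : Set P → Tag P
  | b : Set P → P → Tag P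
  | c : Set P → Set P → Tag P

variable (T : GTree.{u}) (N : ℕ) (C : Set T.Pos)

/-- quasi-strategies of player 0 above `p` (of length `N+1`) -/
structure QI (p : T.Pos) (S : Set T.Pos) : Prop where
  mem : p ∈ S
  res : ∀ q ∈ S, N + 1 ≤ T.len q ∧ T.res (N+1) q = p
  par : ∀ q ∈ S, N + 1 < T.len q → T.par q ∈ S
  arena : Arena 0 S

/-- quasi-strategies of player 1 inside `S ∩ C` above `p` (of length `N+2`) -/
structure QII (S : Set T.Pos) (p : T.Pos) (R : Set T.Pos) : Prop where
  mem : p ∈ R
  res : ∀ q ∈ R, q ∈ S ∧ q ∈ C ∧ N + 2 ≤ T.len q ∧ T.res (N+2) q = p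
  par : ∀ q ∈ R, N + 2 < T.len q → T.par q ∈ R
  opp : ∀ q ∈ R, T.len q % 2 = 0 → ∀ q' ∈ S, T.par q' = q → T.len q' = T.len q + 1 → q' ∈ R
  own : ∀ q ∈ R, T.len q % 2 = 1 → ∃ q' ∈ R, T.par q' = q ∧ T.len q' = T.len q + 1

/-- comparable positions -/
def Compat (q u : T.Pos) : Prop :=
  (T.len u ≤ T.len q ∧ T.res (T.len u) q = u) ∨ (T.len q ≤ T.len u ∧ T.res (T.len q) u = q)

/-- the positions of the unraveling tree -/
def Valid (q : T.Pos) : Tag T.Pos → Prop
  | .none => T.len q ≤ N
  | .a S => T.len q = N + 1 ∧ QI T N q S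
  | .b S u => N + 2 ≤ T.len q ∧ QI T N (T.res (N+1) q) S ∧ u ∈ S ∧ u ∉ C ∧ N + 2 ≤ T.len u ∧
      Compat T q u
  | .c S R => N + 2 ≤ T.len q ∧ QI T N (T.res (N+1) q) S ∧ QII T N C S (T.res (N+2) q) R ∧ q ∈ R

/-- the tag `a S` under a tag `b S u` or `c S R` -/
def toA {P : Type u} : Tag P → Tag P
  | .none => .none
  | .a S => .a S
  | .b S _ => .a S
  | .c S _ => .a S

/-- the tag of the parent of a position of length `n` -/
def parTag {P : Type u} (n : ℕ) (t : Tag P) : Tag P :=
  if n ≤ N + 1 then .none else if n = N + 2 then toA t else t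

variable {T N C}

theorem compat_par {q u : T.Pos} (h : Compat T q u) : Compat T (T.par q) u := by
  rcases h with ⟨h1, h2⟩ | ⟨h1, h2⟩
  · rcases Nat.lt_or_ge (T.len u) (T.len q) with h3 | h3
    · left
      rw [T.len_par, T.res_par h3]
      exact ⟨by omega, h2⟩
    · right
      have h4 : q = u := by rw [← h2, T.res_of_len_le h3]
      subst h4
      rw [T.len_par]
      refine ⟨by omega, ?_⟩
      rcases Nat.eq_zero_or_pos (T.len q) with h5 | h5
      · rw [T.eq_root q h5, T.len_root, T.res_of_len_le (by rw [T.len_root])]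
        exact (T.eq_root _ (by rw [T.len_par, T.len_root])).symm
      · have := T.par_res (n := T.len q - 1) (p := q) (by omega)
        rw [← this, Nat.sub_add_cancel h5, T.res_of_len_le le_rfl]
  · right
    rw [T.len_par]
    refine ⟨by omega, ?_⟩
    rcases Nat.eq_zero_or_pos (T.len q) with h5 | h5
    · rw [h5]
      have e1 : T.len (T.res (0 - 1) u) = 0 := by rw [T.len_res]; omega
      rw [T.eq_root _ e1]
      exact (T.eq_root _ (by rw [T.len_par, h5])).symm
    · have := T.par_res (n := T.len q - 1) (p := u) (by omega)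
      rw [← this, Nat.sub_add_cancel h5, h2]

theorem valid_par {q : T.Pos} {t : Tag T.Pos} (h : Valid T N C q t) :
    Valid T N C (T.par q) (parTag N (T.len q) t) := by
  unfold parTag
  split_ifs with h1 h2
  · show T.len (T.par q) ≤ N
    rw [T.len_par]; omega
  · cases t with
    | none => exact absurd (show T.len q ≤ N from h) (by omega)
    | a S => exact absurd h.1 (by omega)
    | b S u =>
        obtain ⟨h3, h4, _⟩ := h
        refine ⟨by rw [T.len_par]; omega, ?_⟩
        have : T.par q = T.res (N+1) q := by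
          rw [← T.par_res (n := N+1) (by omega), T.res_of_len_le (by omega)]
        rw [this]; exact h4
    | c S R =>
        obtain ⟨h3, h4, _⟩ := h
        refine ⟨by rw [T.len_par]; omega, ?_⟩
        have : T.par q = T.res (N+1) q := by
          rw [← T.par_res (n := N+1) (by omega), T.res_of_len_le (by omega)]
        rw [this]; exact h4
  · cases t with
    | none => exact absurd (show T.len q ≤ N from h) (by omega)
    | a S => exact absurd h.1 (by omega)
    | b S u =>
        obtain ⟨h3, h4, h5, h6, h7, h8⟩ := h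
        refine ⟨by rw [T.len_par]; omega, ?_, h5, h6, h7, compat_par h8⟩
        rw [T.res_par (by omega)]; exact h4
    | c S R =>
        obtain ⟨h3, h4, h5, h6⟩ := h
        refine ⟨by rw [T.len_par]; omega, ?_, ?_, h5.par q h6 (by omega)⟩
        · rw [T.res_par (by omega)]; exact h4
        · rw [T.res_par (by omega)]; exact h5

/-- the full quasi-strategy -/
theorem qi_full {p : T.Pos} (hp : T.len p = N + 1) :
    QI T N p {v | N + 1 ≤ T.len v ∧ T.res (N+1) v = p} := by
  refine ⟨⟨by omega, T.res_of_len_le (by omega)⟩, fun q hq => hq, ?_, ⟨?_, ?_⟩⟩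
  · rintro q ⟨h1, h2⟩ h3
    exact ⟨by rw [T.len_par]; omega, by rw [T.res_par h3]; exact h2⟩
  · rintro q ⟨h1, h2⟩ _ q' h3 h4
    refine ⟨by omega, ?_⟩
    rw [← T.res_par (by omega), h3, h2]
  · rintro q ⟨h1, h2⟩ _
    refine ⟨T.child q, ⟨by rw [(T.child_spec q).2]; omega, ?_⟩, T.child_spec q⟩
    rw [← T.res_par (by rw [(T.child_spec q).2]; omega), (T.child_spec q).1, h2]

theorem res_succ_par {q u : T.Pos} (h1 : T.len q < T.len u) (h2 : T.res (T.len q) u = q) :
    T.par (T.res (T.len q + 1) u) = q ∧ T.len (T.res (T.len q + 1) u) = T.len q + 1 := by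
  refine ⟨by rw [T.par_res (by omega), h2], T.len_res_of_le (by omega)⟩

theorem exists_child (hN : N % 2 = 0) {q : T.Pos} {t : Tag T.Pos} (h : Valid T N C q t) :
    ∃ q' t', Valid T N C q' t' ∧ T.par q' = q ∧ T.len q' = T.len q + 1 ∧
      parTag N (T.len q') t' = t := by
  have hc := T.child_spec q
  cases t with
  | none =>
      have h0 : T.len q ≤ N := h
      rcases Nat.lt_or_ge (T.len q) N with h1 | h1
      · exact ⟨T.child q, .none, by show T.len _ ≤ N; omega, hc.1, hc.2, by
          unfold parTag; rw [if_pos (by omega)]⟩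
      · refine ⟨T.child q, .a {v | N + 1 ≤ T.len v ∧ T.res (N+1) v = T.child q},
          ⟨by omega, qi_full (by omega)⟩, hc.1, hc.2, ?_⟩
        unfold parTag; rw [if_pos (by omega)]
  | a S =>
      obtain ⟨h1, h2⟩ := h
      by_cases hu : ∃ u ∈ S, u ∉ C ∧ N + 2 ≤ T.len u
      · obtain ⟨u, hu1, hu2, hu3⟩ := hu
        have h3 : T.res (T.len q) u = q := by rw [h1]; exact (h2.res u hu1).2
        have h4 := res_succ_par (by omega) h3
        refine ⟨T.res (T.len q + 1) u, .b S u, ⟨by omega, ?_, hu1, hu2, hu3, ?_⟩, h4.1, h4.2, ?_⟩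
        · rw [T.res_res (by omega), ← h1, h3]; exact h2
        · right
          refine ⟨by omega, ?_⟩
          rw [h4.2]
        · unfold parTag; rw [if_neg (by omega), if_pos (by omega)]; rfl
      · push Not at hu
        have hcS : T.child q ∈ S := h2.arena.opp q h2.mem (by omega) _ hc.1 hc.2
        have hr : T.res (N+1) (T.child q) = q := by
          rw [← T.res_par (by omega), hc.1, T.res_of_len_le (by omega)]
        refine ⟨T.child q, .c S {v | v ∈ S ∧ N + 2 ≤ T.len v ∧ T.res (N+2) v = T.child q},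
          ⟨by omega, by rw [hr]; exact h2, ?_, ⟨hcS, by omega, T.res_of_len_le (by omega)⟩⟩,
          hc.1, hc.2, ?_⟩
        · rw [T.res_of_len_le (n := N+2) (p := T.child q) (by omega)]
          refine ⟨⟨hcS, by omega, T.res_of_len_le (by omega)⟩, ?_, ?_, ?_, ?_⟩
          · rintro v ⟨v1, v2, v3⟩
            exact ⟨v1, by_contra fun h => by have := hu v v1 h; omega, v2, v3⟩
          · rintro v ⟨v1, v2, v3⟩ v4
            exact ⟨h2.par v v1 (by omega), by rw [T.len_par]; omega, by rw [T.res_par v4]; exact v3⟩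
          · rintro v ⟨v1, v2, v3⟩ _ v' v4 v5 v6
            exact ⟨v4, by omega, by rw [← T.res_par (by omega), v5, v3]⟩
          · rintro v ⟨v1, v2, v3⟩ v4
            have hv := T.child_spec v
            exact ⟨T.child v, ⟨h2.arena.opp v v1 (by omega) _ hv.1 hv.2, by omega, by
              rw [← T.res_par (by omega), hv.1, v3]⟩, hv⟩
        · unfold parTag; rw [if_neg (by omega), if_pos (by omega)]; rfl
  | b S u =>
      obtain ⟨h3, h4, h5, h6, h7, h8⟩ := h
      have key : ∀ q', T.par q' = q → T.len q' = T.len q + 1 → Compat T q' u →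
          ∃ q' t', Valid T N C q' t' ∧ T.par q' = q ∧ T.len q' = T.len q + 1 ∧
            parTag N (T.len q') t' = Tag.b S u := by
        intro q' e1 e2 e3
        refine ⟨q', .b S u, ⟨by omega, ?_, h5, h6, h7, e3⟩, e1, e2, ?_⟩
        · rw [← T.res_par (by omega), e1]; exact h4
        · unfold parTag; rw [if_neg (by omega), if_neg (by omega)]
      rcases Nat.lt_or_ge (T.len q) (T.len u) with hl | hl
      · have h9 : T.res (T.len q) u = q := by
          rcases h8 with ⟨g1, _⟩ | ⟨_, g2⟩
          · omega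
          · exact g2
        have h10 := res_succ_par hl h9
        refine key _ h10.1 h10.2 (Or.inr ⟨by omega, by rw [h10.2]⟩)
      · have h9 : T.res (T.len u) q = u := by
          rcases h8 with ⟨_, g2⟩ | ⟨g1, g2⟩
          · exact g2
          · have e : T.len u = T.len q := le_antisymm hl g1
            rw [T.res_of_len_le (le_of_eq e.symm), ← g2, T.res_of_len_le (le_of_eq e)]
        refine key _ hc.1 hc.2 (Or.inl ⟨by omega, ?_⟩)
        rw [← T.res_par (by omega), hc.1, h9]
  | c S R =>
      obtain ⟨h3, h4, h5, h6⟩ := h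
      have key : ∀ q' ∈ R, T.par q' = q → T.len q' = T.len q + 1 →
          ∃ q' t', Valid T N C q' t' ∧ T.par q' = q ∧ T.len q' = T.len q + 1 ∧
            parTag N (T.len q') t' = Tag.c S R := by
        intro q' e0 e1 e2
        refine ⟨q', .c S R, ⟨by omega, ?_, ?_, e0⟩, e1, e2, ?_⟩
        · rw [← T.res_par (by omega), e1]; exact h4
        · rw [← T.res_par (by omega), e1]; exact h5
        · unfold parTag; rw [if_neg (by omega), if_neg (by omega)]
      rcases Nat.mod_two_eq_zero_or_one (T.len q) with hl | hl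
      · obtain ⟨q', g1, g2, g3⟩ := h4.arena.own q (h5.res q h6).1 hl
        exact key q' (h5.opp q h6 hl q' g1 g2 g3) g2 g3
      · obtain ⟨q', g1, g2, g3⟩ := h5.own q h6 hl
        exact key q' g1 g2 g3

variable (T N C)

/-- The unraveling tree. -/
def UT (hN : N % 2 = 0) : GTree.{u} where
  Pos := {z : T.Pos × Tag T.Pos // Valid T N C z.1 z.2}
  len z := T.len z.1.1
  par z := ⟨(T.par z.1.1, parTag N (T.len z.1.1) z.1.2), valid_par z.2⟩
  root := ⟨(T.root, .none), by show T.len T.root ≤ N; rw [T.len_root]; omega⟩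
  len_root := T.len_root
  eq_root := by
    rintro ⟨⟨q, t⟩, hz⟩ h
    have h' : T.len q = 0 := h
    have hq := T.eq_root q h'
    subst hq
    cases t with
    | none => rfl
    | a S => have := hz.1; simp only at this; omega
    | b S u => have := hz.1; simp only at this; omega
    | c S R => have := hz.1; simp only at this; omega
  len_par z := T.len_par _
  succ := by
    rintro ⟨⟨q, t⟩, hz⟩
    obtain ⟨q', t', h1, h2, h3, h4⟩ := exists_child hN hz
    exact ⟨⟨(q', t'), h1⟩, Subtype.ext (Prod.ext h2 h4), h3⟩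

variable {T N C}

/-- the position of `T` under a position of the unraveling tree -/
def up {hN : N % 2 = 0} (z : (UT T N C hN).Pos) : T.Pos := z.1.1

/-- the tag -/
def tg {hN : N % 2 = 0} (z : (UT T N C hN).Pos) : Tag T.Pos := z.1.2

theorem ext' {hN : N % 2 = 0} {z z' : (UT T N C hN).Pos} (h1 : up z = up z') (h2 : tg z = tg z') :
    z = z' := Subtype.ext (Prod.ext h1 h2)

theorem valid {hN : N % 2 = 0} (z : (UT T N C hN).Pos) : Valid T N C (up z) (tg z) := z.2

theorem len_eq {hN : N % 2 = 0} (z : (UT T N C hN).Pos) : (UT T N C hN).len z = T.len (up z) := rfl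

theorem up_par {hN : N % 2 = 0} (z : (UT T N C hN).Pos) :
    up ((UT T N C hN).par z) = T.par (up z) := rfl

theorem tg_par {hN : N % 2 = 0} (z : (UT T N C hN).Pos) :
    tg ((UT T N C hN).par z) = parTag N (T.len (up z)) (tg z) := rfl

/-- low positions have no tag -/
theorem tg_low {hN : N % 2 = 0} (z : (UT T N C hN).Pos) (h : T.len (up z) ≤ N) : tg z = .none := by
  have hv := valid z
  revert hv
  cases tg z with
  | none => intro _; rfl
  | a S => intro hv; have := hv.1; omega
  | b S u => intro hv; have := hv.1; omega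
  | c S R => intro hv; have := hv.1; omega

theorem tg_mid {hN : N % 2 = 0} (z : (UT T N C hN).Pos) (h : T.len (up z) = N + 1) :
    ∃ S, tg z = .a S ∧ QI T N (up z) S := by
  have hv := valid z
  revert hv
  cases tg z with
  | none => intro hv; have : T.len (up z) ≤ N := hv; omega
  | a S => intro hv; exact ⟨S, rfl, hv.2⟩
  | b S u => intro hv; have := hv.1; omega
  | c S R => intro hv; have := hv.1; omega

theorem tg_high {hN : N % 2 = 0} (z : (UT T N C hN).Pos) (h : N + 2 ≤ T.len (up z)) :
    (∃ S u, tg z = .b S u) ∨ (∃ S R, tg z = .c S R) := by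
  have hv := valid z
  revert hv
  cases tg z with
  | none => intro hv; have : T.len (up z) ≤ N := hv; omega
  | a S => intro hv; have := hv.1; omega
  | b S u => intro _; exact Or.inl ⟨S, u, rfl⟩
  | c S R => intro _; exact Or.inr ⟨S, R, rfl⟩

/-- above level `N+2` children have the same tag -/
theorem tg_child {hN : N % 2 = 0} {z z' : (UT T N C hN).Pos} (hp : (UT T N C hN).par z' = z)
    (hl : T.len (up z') = T.len (up z) + 1) (h : N + 2 ≤ T.len (up z)) : tg z' = tg z := by
  rw [← hp, tg_par]
  unfold parTag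
  rw [if_neg (by omega), if_neg (by omega)]

/-- the answer of the strategy `s` at `(q, t)`, if this is a position of the unraveling tree -/
noncomputable def ev {hN : N % 2 = 0} (s : (UT T N C hN).Pos → (UT T N C hN).Pos) (q : T.Pos)
    (t : Tag T.Pos) : T.Pos := by
  classical
  exact if h : Valid T N C q t then up (s ⟨(q, t), h⟩) else T.child q

theorem ev_spec {hN : N % 2 = 0} {s : (UT T N C hN).Pos → (UT T N C hN).Pos}
    (hs : (UT T N C hN).IsStrat s) (q : T.Pos) (t : Tag T.Pos) :
    T.par (ev s q t) = q ∧ T.len (ev s q t) = T.len q + 1 := by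
  unfold ev
  split_ifs with h
  · have := hs ⟨(q, t), h⟩
    refine ⟨?_, this.2⟩
    have h1 := congrArg up this.1
    exact h1
  · exact T.child_spec q

theorem ev_eq {hN : N % 2 = 0} {s : (UT T N C hN).Pos → (UT T N C hN).Pos} (z : (UT T N C hN).Pos) :
    ev s (up z) (tg z) = up (s z) := by
  unfold ev
  rw [dif_pos (valid z)]
  rfl

theorem ev_congr {hN : N % 2 = 0} {s s' : (UT T N C hN).Pos → (UT T N C hN).Pos} {q : T.Pos}
    {t : Tag T.Pos} (h : ∀ z, up z = q → s z = s' z) : ev s q t = ev s' q t := by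
  unfold ev
  split_ifs with h1
  · exact congrArg up (h (⟨(q, t), h1⟩ : {z : T.Pos × Tag T.Pos // Valid T N C z.1 z.2}) rfl)
  · rfl

end Pool.Agent.R549.BD.L1
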