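import Pool.Agent.R549.BD.L1Defs

/-! The unraveling tree of a closed set: strategies of player 0 (helper549). -/

namespace Pool.Agent.R549.BD.L1

open GTree

universe u

variable {T : GTree.{u}} {N : ℕ} {C : Set T.Pos}

/-- the low position under `q` -/
def low (hN : N % 2 = 0) (C : Set T.Pos) (q : T.Pos) : (UT T N C hN).Pos :=
  ⟨(T.res N q, .none), by show T.len _ ≤ N; rw [T.len_res]; omega⟩

/-- the quasi-strategy in the tag -/
def tagS {P : Type u} : Tag P → Set P
  | .none => ∅
  | .a S => S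
  | .b S _ => S
  | .c S _ => S

/-- some prefix of length `≥ B` is in `O` -/
abbrev Hit (B : ℕ) (O : Set T.Pos) (q : T.Pos) : Prop := ∃ n, B ≤ n ∧ n ≤ T.len q ∧ T.res n q ∈ O

/-- the positions which are good for player 0 -/
def O0 (N : ℕ) (C S : Set T.Pos) : Set T.Pos := {v | v ∈ S ∧ v ∉ C ∧ N + 2 ≤ T.len v}

/-- the positions from which player 0 can force a visit to `O0` -/
def W0 (N : ℕ) (C S : Set T.Pos) : Set T.Pos := {v | T.WG 0 S (O0 N C S) v}

/-- the quasi-strategy of player 1 avoiding `W0` -/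
def R0 (N : ℕ) (C S : Set T.Pos) (p : T.Pos) : Set T.Pos :=
  {v | v ∈ S ∧ N + 2 ≤ T.len v ∧ T.res (N+2) v = p ∧
    ∀ n, N + 2 ≤ n → n ≤ T.len v → T.res n v ∉ W0 N C S}

variable {hN : N % 2 = 0}

/-- the answer of player 0 at a position of length at least `N+2` -/
noncomputable def ans0 (S : Set T.Pos) (s : (UT T N C hN).Pos → (UT T N C hN).Pos) (q : T.Pos) :
    T.Pos := by
  classical
  exact if h : Hit (N+2) (O0 N C S) q then ev s q (.b S (T.res (Nat.find h) q))
    else if h : Hit (N+2) (W0 N C S) q then WG.st (Nat.find_spec h).2.2 q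
    else ev s q (.c S (R0 N C S (T.res (N+2) q)))

/-- the strategy of player 0 in `T` -/
noncomputable def phi0 (s : (UT T N C hN).Pos → (UT T N C hN).Pos) (q : T.Pos) : T.Pos :=
  if T.len q ≤ N then ev s q .none
  else if T.len q = N + 1 then T.child q
  else ans0 (tagS (tg (s (low hN C q)))) s q

theorem phi0_strat {s : (UT T N C hN).Pos → (UT T N C hN).Pos} (hs : (UT T N C hN).IsStrat s) :
    T.IsStrat (phi0 s) := by
  classical
  intro q
  unfold phi0
  split_ifs with h1 h2
  · exact ev_spec hs _ _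
  · exact T.child_spec q
  · unfold ans0
    split_ifs with h3 h4
    · exact ev_spec hs _ _
    · exact (WG.st_spec (Nat.find_spec h4).2.2).1 q
    · exact ev_spec hs _ _

theorem phi0_local {s s' : (UT T N C hN).Pos → (UT T N C hN).Pos} (n : ℕ)
    (h : ∀ z, (UT T N C hN).len z ≤ n → s z = s' z) (q : T.Pos) (hq : T.len q ≤ n) :
    phi0 s q = phi0 s' q := by
  have hev : ∀ t, ev s q t = ev s' q t := fun t => ev_congr fun z hz => h z (by
    rw [len_eq, hz]; exact hq)
  unfold phi0
  split_ifs with h1 h2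
  · exact hev _
  · rfl
  · have e1 : s (low hN C q) = s' (low hN C q) := h _ (by
      show T.len (T.res N q) ≤ n
      rw [T.len_res]; omega)
    rw [e1]
    unfold ans0
    split_ifs with h3 h4
    · exact hev _
    · rfl
    · exact hev _

theorem phi0_low {s : (UT T N C hN).Pos → (UT T N C hN).Pos} (z : (UT T N C hN).Pos)
    (h : T.len (up z) ≤ N) : phi0 s (up z) = up (s z) := by
  unfold phi0
  rw [if_pos h, ← ev_eq, tg_low z h]

/-- the tags along a play -/
def tt (N : ℕ) {P : Type u} (S : Set P) (t : Tag P) (n : ℕ) : Tag P :=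
  if n ≤ N then .none else if n = N + 1 then .a S else t

theorem exists_play (x : ℕ → T.Pos) (hx : T.IsPlay x) (S : Set T.Pos) (t : Tag T.Pos)
    (h0 : QI T N (x (N+1)) S) (ht : toA t = .a S) (hv : ∀ n, N + 2 ≤ n → Valid T N C (x n) t) :
    ∃ y, (UT T N C hN).IsPlay y ∧ ∀ n, up (y n) = x n ∧ tg (y n) = tt N S t n := by
  have hval : ∀ n, Valid T N C (x n) (tt N S t n) := by
    intro n
    unfold tt
    split_ifs with h1 h2
    · show T.len _ ≤ N
      rw [hx.1]; exact h1
    · subst h2; exact ⟨hx.1 _, h0⟩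
    · exact hv n (by omega)
  refine ⟨fun n => ⟨(x n, tt N S t n), hval n⟩, ⟨fun n => hx.1 n, fun n => ?_⟩, fun n => ⟨rfl, rfl⟩⟩
  refine Subtype.ext (Prod.ext (hx.2 n) ?_)
  show parTag N (T.len (x (n+1))) (tt N S t (n+1)) = tt N S t n
  rw [hx.1]
  unfold parTag tt
  split_ifs <;> first | rfl | omega | exact ht | (exfalso; omega)

/-- the first hit along a play -/
theorem hit_play {x : ℕ → T.Pos} (hx : T.IsPlay x) {B : ℕ} {O : Set T.Pos} {m : ℕ} :
    Hit B O (x m) ↔ ∃ n, B ≤ n ∧ n ≤ m ∧ x n ∈ O := by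
  unfold Hit
  rw [hx.1]
  constructor
  · rintro ⟨n, h1, h2, h3⟩; exact ⟨n, h1, h2, by rwa [T.play_res hx h2] at h3⟩
  · rintro ⟨n, h1, h2, h3⟩; exact ⟨n, h1, h2, by rwa [T.play_res hx h2]⟩

/-- the first hit along a play is at time `n0` -/
theorem find_hit {x : ℕ → T.Pos} (hx : T.IsPlay x) {B : ℕ} {O : Set T.Pos} {m n0 : ℕ}
    [DecidablePred fun n => B ≤ n ∧ n ≤ T.len (x m) ∧ T.res n (x m) ∈ O]
    (h1 : B ≤ n0) (h2 : x n0 ∈ O) (h3 : ∀ n, B ≤ n → n < n0 → x n ∉ O) (h4 : n0 ≤ m)
    (h : Hit B O (x m)) : Nat.find h = n0 := by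
  rw [Nat.find_eq_iff]
  refine ⟨⟨h1, by rw [hx.1]; exact h4, by rwa [T.play_res hx h4]⟩, ?_⟩
  rintro n hn ⟨g1, g2, g3⟩
  rw [T.play_res hx (by omega)] at g3
  exact h3 n g1 hn g3

/-- The position reached in the arena. -/
theorem qii_R0 {S : Set T.Pos} {p p1 : T.Pos} (hS : QI T N p1 S) (hp : p ∈ S) (hN : N % 2 = 0)
    (hl : T.len p = N + 2) (hw : p ∉ W0 N C S) : QII T N C S p (R0 N C S p) := by
  have har := hS.arena
  refine ⟨⟨hp, by omega, T.res_of_len_le (by omega), ?_⟩, ?_, ?_, ?_, ?_⟩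
  · intro n h1 h2
    rw [T.res_of_len_le (by omega)]; exact hw
  · rintro q ⟨h1, h2, h3, h4⟩
    refine ⟨h1, ?_, h2, h3⟩
    by_contra hq
    have := h4 _ h2 le_rfl
    rw [T.res_of_len_le le_rfl] at this
    exact this (WG.of_mem har h1 ⟨h1, hq, h2⟩)
  · rintro q ⟨h1, h2, h3, h4⟩ h5
    refine ⟨hS.par q h1 (by omega), by rw [T.len_par]; omega, by rw [T.res_par h5]; exact h3, ?_⟩
    intro n g1 g2
    rw [T.len_par] at g2
    rw [T.res_par (by omega)]
    exact h4 n g1 (by omega)
  · rintro q ⟨h1, h2, h3, h4⟩ h5 q' h6 h7 h8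
    refine ⟨h6, by omega, by rw [← T.res_par (by omega), h7, h3], ?_⟩
    intro n g1 g2
    rcases Nat.lt_or_ge n (T.len q') with g3 | g3
    · rw [← T.res_par g3, h7]; exact h4 n g1 (by omega)
    · rw [T.res_of_len_le g3]
      intro hW
      have := h4 _ h2 le_rfl
      rw [T.res_of_len_le le_rfl] at this
      exact this (WG.own h1 h5 h7 h8 hW)
  · rintro q ⟨h1, h2, h3, h4⟩ h5
    by_contra hcon
    have := h4 _ h2 le_rfl
    rw [T.res_of_len_le le_rfl] at this
    apply this
    refine WG.opp har h1 (by omega) ?_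
    intro q' g1 g2
    by_contra hW
    apply hcon
    refine ⟨q', ⟨har.opp q h1 (by omega) q' g1 g2, by omega, by rw [← T.res_par (by omega), g1, h3],
      ?_⟩, g1, g2⟩
    intro n k1 k2
    rcases Nat.lt_or_ge n (T.len q') with g3 | g3
    · rw [← T.res_par g3, g1]; exact h4 n k1 (by omega)
    · rw [T.res_of_len_le g3]; exact hW

theorem phi0_lift {s : (UT T N C hN).Pos → (UT T N C hN).Pos} (hs : (UT T N C hN).IsStrat s)
    (x : ℕ → T.Pos) (hx : T.IsPlay x) (hc : T.Cons 0 (phi0 s) x) :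
    ∃ y, (UT T N C hN).IsPlay y ∧ (UT T N C hN).Cons 0 s y ∧ ∀ n, up (y n) = x n := by
  classical
  have hl := hx.1
  -- the chosen quasi-strategy
  set z0 : (UT T N C hN).Pos := low hN C (x N) with hz0
  have hz0u : up z0 = x N := by
    show T.res N (x N) = x N
    rw [T.play_res hx le_rfl]
  have hz0t : tg z0 = .none := rfl
  have hxN : x (N+1) = up (s z0) := by
    rw [hc N hN]
    unfold phi0
    rw [if_pos (by rw [hl]), ← ev_eq, hz0u, hz0t]
  obtain ⟨S, hS1, hS2⟩ := tg_mid (s z0) (by rw [← hxN]; exact hl _)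
  rw [← hxN] at hS2
  have hlow : ∀ n, N ≤ n → tagS (tg (s (low hN C (x n)))) = S := by
    intro n hn
    have : low hN C (x n) = z0 := by
      refine ext' ?_ rfl
      show T.res N (x n) = T.res N (x N)
      rw [T.play_res hx hn, T.play_res hx le_rfl]
    rw [this, hS1]; rfl
  have hphi : ∀ n, N + 2 ≤ n → n % 2 = 0 → x (n+1) = ans0 S s (x n) := by
    intro n hn hn2
    rw [hc n hn2]
    unfold phi0
    rw [if_neg (by rw [hl]; omega), if_neg (by rw [hl]; omega), hlow n (by omega)]
  -- consistency is reduced to the high levels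
  have hcons : ∀ (t : Tag T.Pos) (y : ℕ → (UT T N C hN).Pos), (UT T N C hN).IsPlay y →
      (∀ n, up (y n) = x n ∧ tg (y n) = tt N S t n) →
      (∀ n, N + 2 ≤ n → n % 2 = 0 → x (n+1) = up (s (y n))) → (UT T N C hN).Cons 0 s y := by
    intro t y hy hyx hh n hn
    have h1 := hs (y n)
    have hlen : T.len (up (s (y n))) = n + 1 := by
      have := h1.2
      rw [len_eq, len_eq, (hyx n).1, hl] at this
      exact this
    apply ext'
    · rw [(hyx (n+1)).1]
      rcases Nat.lt_or_ge N n with h2 | h2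
      · exact hh n (by omega) hn
      · rw [hc n hn, ← (hyx n).1, phi0_low _ (by rw [(hyx n).1, hl]; exact h2)]
    · rw [(hyx (n+1)).2]
      unfold tt
      split_ifs with h2 h3
      · exact (tg_low _ (by rw [hlen]; exact h2)).symm
      · have hnN : n = N := by omega
        subst hnN
        have : y n = z0 := by
          apply ext'
          · rw [(hyx n).1, hz0u]
          · rw [(hyx n).2, hz0t]; unfold tt; rw [if_pos le_rfl]
        rw [this, hS1]
      · have h4 : N + 2 ≤ n := by omega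
        rw [tg_child h1.1 (by rw [hlen, (hyx n).1, hl]) (by rw [(hyx n).1, hl]; exact h4),
          (hyx n).2]
        unfold tt
        rw [if_neg (by omega), if_neg (by omega)]
  -- staying in the arena before the first visit to `O0`
  have hev2 : ∀ n, N + 2 ≤ n → n % 2 = 0 → (∀ m, N + 2 ≤ m → m ≤ n → x m ∉ O0 N C S) →
      (∃ m, N + 2 ≤ m ∧ m ≤ n ∧ x m ∈ W0 N C S ∧ (∀ m', N + 2 ≤ m' → m' < m → x m' ∉ W0 N C S) ∧
        ∃ hw : T.WG 0 S (O0 N C S) (x m), x (n+1) = hw.st (x n)) ∨
      ((∀ m, N + 2 ≤ m → m ≤ n → x m ∉ W0 N C S) ∧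
        x (n+1) = ev s (x n) (.c S (R0 N C S (x (N+2))))) := by
    intro n hn hn2 hO
    rw [hphi n hn hn2]
    unfold ans0
    have h1 : ¬ Hit (N+2) (O0 N C S) (x n) := by
      rw [hit_play hx]
      rintro ⟨m, a1, a2, a3⟩
      exact hO m a1 a2 a3
    rw [dif_neg h1]
    by_cases h2 : Hit (N+2) (W0 N C S) (x n)
    · left
      have h3 := (hit_play hx).1 h2
      let m := Nat.find h3
      have hm := Nat.find_spec h3
      have hmin : ∀ m', N + 2 ≤ m' → m' < m → x m' ∉ W0 N C S := by
        intro m' a1 a2 a3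
        exact Nat.find_min h3 a2 ⟨a1, by have := hm.2.1; omega, a3⟩
      refine ⟨m, hm.1, hm.2.1, hm.2.2, hmin, hm.2.2, ?_⟩
      rw [dif_pos h2]
      have e1 : Nat.find h2 = m := find_hit hx hm.1 hm.2.2 hmin hm.2.1 h2
      have e2 : T.res (Nat.find h2) (x n) = x m := by rw [e1, T.play_res hx hm.2.1]
      have e3 : ∀ (v v' : T.Pos) (hv : T.WG 0 S (O0 N C S) v) (hv' : T.WG 0 S (O0 N C S) v'),
          v = v' → WG.st hv (x n) = WG.st hv' (x n) := by
        intro v v' hv hv' e; subst e; rfl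
      exact e3 _ _ _ _ e2
    · right
      refine ⟨fun m a1 a2 a3 => h2 ((hit_play hx).2 ⟨m, a1, a2, a3⟩), ?_⟩
      rw [dif_neg h2, T.play_res hx (by omega)]
  have hx2S : x (N+2) ∈ S := hS2.arena.opp _ hS2.mem (by rw [hl]; omega) _ (hx.2 _) (by
    rw [hl, hl])
  by_cases hO : ∃ n, N + 2 ≤ n ∧ x n ∈ O0 N C S
  · -- case A
    let n0 := Nat.find hO
    obtain ⟨hn1, hn2⟩ : N + 2 ≤ n0 ∧ x n0 ∈ O0 N C S := Nat.find_spec hO
    have hn3 : ∀ n, N + 2 ≤ n → n < n0 → x n ∉ O0 N C S := fun n a1 a2 a3 =>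
      Nat.find_min hO a2 ⟨a1, a3⟩
    obtain ⟨y, hy1, hy2⟩ := exists_play (hN := hN) (C := C) x hx S (.b S (x n0)) hS2 rfl (by
      intro n hn
      refine ⟨by rw [hl]; exact hn, ?_, hn2.1, hn2.2.1, hn2.2.2, ?_⟩
      · rw [T.play_res hx (by omega)]; exact hS2
      · unfold Compat
        rw [hl, hl]
        rcases le_total n0 n with h | h
        · left; exact ⟨h, T.play_res hx h⟩
        · right; exact ⟨h, T.play_res hx h⟩)
    refine ⟨y, hy1, hcons _ y hy1 hy2 ?_, fun n => (hy2 n).1⟩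
    intro n hn hn'
    have htn : tg (y n) = .b S (x n0) := by
      rw [(hy2 n).2]; unfold tt; rw [if_neg (by omega), if_neg (by omega)]
    rcases Nat.lt_or_ge n n0 with h | h
    · -- the move is forced
      have h1 := hs (y n)
      have hlen : T.len (up (s (y n))) = n + 1 := by
        have := h1.2
        rw [len_eq, len_eq, (hy2 n).1, hl] at this
        exact this
      have ht := tg_child h1.1 (by rw [hlen, (hy2 n).1, hl]) (by rw [(hy2 n).1, hl]; exact hn)
      have hv := valid (s (y n))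
      rw [ht, htn] at hv
      obtain ⟨_, _, _, _, _, h8⟩ := hv
      unfold Compat at h8
      rw [hlen, hl] at h8
      rcases h8 with ⟨a1, a2⟩ | ⟨a1, a2⟩
      · have : n0 = n + 1 := by omega
        rw [T.res_of_len_le (by rw [hlen]; omega)] at a2
        rw [a2, this]
      · rw [← a2, T.play_res hx a1]
    · rw [hphi n hn hn']
      unfold ans0
      have h1 : Hit (N+2) (O0 N C S) (x n) := (hit_play hx).2 ⟨n0, hn1, h, hn2⟩
      rw [dif_pos h1]
      have e1 : Nat.find h1 = n0 := find_hit hx hn1 hn2 hn3 h h1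
      rw [e1, T.play_res hx h, ← ev_eq, (hy2 n).1, htn]
  · -- case B
    push Not at hO
    have hinv : ∀ n, N + 2 ≤ n → x n ∈ S ∧ x n ∉ W0 N C S := by
      -- first: `x n ∈ S`
      have hW : ∀ m, N + 2 ≤ m → x m ∈ W0 N C S → (∀ m', N + 2 ≤ m' → m' < m → x m' ∉ W0 N C S) →
          False := by
        intro m hm hmW hmin
        have hw : T.WG 0 S (O0 N C S) (x m) := hmW
        obtain ⟨n, a1, a2⟩ := hw.st_spec.2.2 x hx (by rw [hl]) (by
          intro n a1 a2
          rw [hl] at a1
          rcases hev2 n (by omega) a2 (fun m' b1 _ => hO m' b1) with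
            ⟨m', b1, b2, b3, b4, b5, b6⟩ | ⟨b1, _⟩
          · have : m' = m := by
              rcases lt_trichotomy m' m with e | e | e
              · exact absurd b3 (hmin m' b1 e)
              · exact e
              · exact absurd hmW (b4 m hm e)
            subst this
            exact b6
          · exact absurd hmW (b1 m hm a1))
        rw [hl] at a1
        exact hO n (by omega) a2
      have hnW : ∀ n, N + 2 ≤ n → x n ∉ W0 N C S := by
        intro n hn hnW
        have hex : ∃ m, N + 2 ≤ m ∧ x m ∈ W0 N C S := ⟨n, hn, hnW⟩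
        exact hW _ (Nat.find_spec hex).1 (Nat.find_spec hex).2 fun m' a1 a2 a3 =>
          Nat.find_min hex a2 ⟨a1, a3⟩
      intro n hn
      refine ⟨?_, hnW n hn⟩
      have hRn : ∀ n, N + 2 ≤ n → x n ∈ S → (∀ m, N + 2 ≤ m → m ≤ n → x m ∉ W0 N C S) →
          x n ∈ R0 N C S (x (N+2)) := by
        intro n a1 a2 a3
        refine ⟨a2, by rw [hl]; exact a1, T.play_res hx a1, ?_⟩
        intro m b1 b2
        rw [hl] at b2
        rw [T.play_res hx b2]
        exact a3 m b1 b2
      induction n, hn using Nat.le_induction with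
      | base => exact hx2S
      | succ n hn ih =>
          rcases Nat.mod_two_eq_zero_or_one n with h2 | h2
          · rcases hev2 n hn h2 (fun m' b1 _ => hO m' b1) with
              ⟨m', b1, b2, b3, b4, b5, b6⟩ | ⟨b1, b2⟩
            · exact absurd b3 (hnW _ b1)
            · have hQ := qii_R0 (C := C) hS2 hx2S hN (hl _) (hnW _ le_rfl)
              have hval : Valid T N C (x n) (.c S (R0 N C S (x (N+2)))) := by
                refine ⟨by rw [hl]; exact hn, ?_, ?_, hRn n hn ih b1⟩
                · rw [T.play_res hx (by omega)]; exact hS2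
                · rw [T.play_res hx hn]; exact hQ
              let z : (UT T N C hN).Pos := ⟨(x n, .c S (R0 N C S (x (N+2)))), hval⟩
              have e1 : x (n+1) = up (s z) := by rw [b2, ← ev_eq]; rfl
              have h1 := hs z
              have ht := tg_child h1.1 (by rw [← e1, hl]; show _ = T.len (x n) + 1; rw [hl])
                (by show N + 2 ≤ T.len (x n); rw [hl]; exact hn)
              have hv := valid (s z)
              rw [ht, ← e1] at hv
              exact (hv.2.2.1.res _ hv.2.2.2).1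
          · exact hS2.arena.opp _ ih (by rw [hl]; omega) _ (hx.2 n) (by rw [hl, hl])
    have hQ := qii_R0 (C := C) hS2 hx2S hN (hl _) (hinv _ le_rfl).2
    have hR : ∀ n, N + 2 ≤ n → x n ∈ R0 N C S (x (N+2)) := by
      intro n a1
      refine ⟨(hinv n a1).1, by rw [hl]; exact a1, T.play_res hx a1, ?_⟩
      intro m b1 b2
      rw [hl] at b2
      rw [T.play_res hx b2]
      exact (hinv m b1).2
    obtain ⟨y, hy1, hy2⟩ := exists_play (hN := hN) (C := C) x hx S
      (.c S (R0 N C S (x (N+2)))) hS2 rfl (by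
      intro n hn
      refine ⟨by rw [hl]; exact hn, ?_, ?_, hR n hn⟩
      · rw [T.play_res hx (by omega)]; exact hS2
      · rw [T.play_res hx hn]; exact hQ)
    refine ⟨y, hy1, hcons _ y hy1 hy2 ?_, fun n => (hy2 n).1⟩
    intro n hn hn'
    rcases hev2 n hn hn' (fun m' b1 _ => hO m' b1) with ⟨m', b1, b2, b3, b4, b5, b6⟩ | ⟨b1, b2⟩
    · exact absurd b3 (hinv _ b1).2
    · have htn : tg (y n) = .c S (R0 N C S (x (N+2))) := by
        rw [(hy2 n).2]; unfold tt; rw [if_neg (by omega), if_neg (by omega)]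
      rw [b2, ← ev_eq, (hy2 n).1, htn]

end Pool.Agent.R549.BD.L1
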