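import Pool.Agent.R549.BD.Defs

/-! Project BD/PP, piece L2 (helper379): inverse limits of Martin coverings. -/

namespace Pool.Agent.R549.BD.L2

open Pool.Agent.R549.BD

universe u

noncomputable section

variable {T : ℕ → GTree.{u}} {N : ℕ} (c : ∀ j, Cov (N + 2 * j) (T (j+1)) (T j))

/-- Threads. -/
abbrev Thr : Type u := {s : ∀ j, (T j).Pos // ∀ j, (c j).pi (s (j+1)) = s j}

variable {c}

theorem len_eq (s : Thr c) : ∀ j, (T j).len (s.1 j) = (T 0).len (s.1 0)
  | 0 => rfl
  | j + 1 => by rw [← len_eq s j, ← s.2 j, (c j).len_pi]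

theorem thr_down {s s' : Thr c} : ∀ j, s.1 j = s'.1 j → ∀ i ≤ j, s.1 i = s'.1 i := by
  intro j
  induction j with
  | zero =>
    intro h i hi
    obtain rfl : i = 0 := by omega
    exact h
  | succ j ih =>
    intro h i hi
    rcases Nat.lt_or_ge j i with h1 | h1
    · obtain rfl : i = j + 1 := by omega
      exact h
    · exact ih (by rw [← s.2 j, ← s'.2 j, h]) i h1

theorem thr_unique {s s' : Thr c} (j : ℕ) (h : s.1 j = s'.1 j)
    (hl : (T j).len (s.1 j) ≤ N + 2 * j) : s = s' := by
  have hup : ∀ i, j ≤ i → s.1 i = s'.1 i := by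
    intro i hi
    induction i, hi using Nat.le_induction with
    | base => exact h
    | succ i hi ih =>
      have hl' : (T i).len (s.1 i) ≤ N + 2 * i := by
        rw [len_eq s i, ← len_eq s j]; omega
      obtain ⟨p, _, hp⟩ := (c i).bij (s.1 i) hl'
      rw [hp (s.1 (i+1)) (s.2 i), hp (s'.1 (i+1)) ((s'.2 i).trans ih.symm)]
  apply Subtype.ext
  funext i
  rcases le_total i j with h1 | h1
  · exact thr_down j h i h1
  · exact hup i h1

/-- The relation from `j` on. -/
def RelFrom (c : ∀ j, Cov (N + 2 * j) (T (j+1)) (T j)) (j : ℕ) (s : ∀ j, (T j).Pos) : Prop :=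
  ∀ i, j ≤ i → (c i).pi (s (i+1)) = s i

theorem fill_down : ∀ (j : ℕ) (s : ∀ j, (T j).Pos), RelFrom c j s →
    ∃ s', RelFrom c 0 s' ∧ ∀ i, j ≤ i → s' i = s i := by
  intro j
  induction j with
  | zero => intro s hs; exact ⟨s, hs, fun i _ => rfl⟩
  | succ j ih =>
    intro s hs
    have h1 : RelFrom c j (Function.update s j ((c j).pi (s (j+1)))) := by
      intro i hi
      rw [Function.update_of_ne (show i + 1 ≠ j by omega)]
      rcases Nat.lt_or_ge j i with h2 | h2
      · rw [Function.update_of_ne (show i ≠ j by omega)]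
        exact hs i h2
      · obtain rfl : i = j := by omega
        rw [Function.update_self]
    obtain ⟨s', h2, h3⟩ := ih _ h1
    refine ⟨s', h2, fun i hi => ?_⟩
    rw [h3 i (by omega), Function.update_of_ne (show i ≠ j by omega)]

open Classical in
/-- Going up. -/
def upOne (c : ∀ j, Cov (N + 2 * j) (T (j+1)) (T j)) (i : ℕ) (p : (T i).Pos) : (T (i+1)).Pos :=
  if h : ∃ p', (c i).pi p' = p then h.choose else (T (i+1)).root

open Classical in
/-- Going up from `q` at `j`. -/
def upSeq (c : ∀ j, Cov (N + 2 * j) (T (j+1)) (T j)) (j : ℕ) (q : (T j).Pos) : ∀ i, (T i).Pos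
  | 0 => if h : j = 0 then h ▸ q else (T 0).root
  | i + 1 => if h : j = i + 1 then h ▸ q else upOne c i (upSeq c j q i)

theorem upSeq_self (j : ℕ) (q : (T j).Pos) : upSeq c j q j = q := by
  cases j with
  | zero => simp [upSeq]
  | succ j => simp [upSeq]

theorem exists_thr (j : ℕ) (q : (T j).Pos) (hq : (T j).len q ≤ N + 2 * j) :
    ∃ s : Thr c, s.1 j = q := by
  have h1 : ∀ i, j ≤ i → (T i).len (upSeq c j q i) = (T j).len q ∧
      (c i).pi (upSeq c j q (i+1)) = upSeq c j q i := by
    have hstep : ∀ i, j ≤ i → (T i).len (upSeq c j q i) = (T j).len q →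
        (c i).pi (upSeq c j q (i+1)) = upSeq c j q i := by
      intro i hi hl
      have e : upSeq c j q (i+1) = upOne c i (upSeq c j q i) := by
        rw [upSeq, dif_neg (by omega)]
      have hex : ∃ p', (c i).pi p' = upSeq c j q i :=
        ((c i).bij (upSeq c j q i) (by rw [hl]; omega)).exists
      rw [e, upOne, dif_pos hex]
      exact hex.choose_spec
    intro i hi
    induction i, hi using Nat.le_induction with
    | base => 
      have : (T j).len (upSeq c j q j) = (T j).len q := by rw [upSeq_self]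
      exact ⟨this, hstep j le_rfl this⟩
    | succ i hi ih =>
      have : (T (i+1)).len (upSeq c j q (i+1)) = (T j).len q := by
        rw [← ih.1, ← (c i).len_pi, ih.2]
      exact ⟨this, hstep (i+1) (by omega) this⟩
  obtain ⟨s', h2, h3⟩ := fill_down j (upSeq c j q) (fun i hi => (h1 i hi).2)
  exact ⟨⟨s', fun i => h2 i (Nat.zero_le i)⟩, by rw [← upSeq_self (c := c) j q]; exact h3 j le_rfl⟩

/-- The limit tree. -/
abbrev LT (c : ∀ j, Cov (N + 2 * j) (T (j+1)) (T j)) : GTree.{u} where
  Pos := Thr c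
  len s := (T 0).len (s.1 0)
  par s := ⟨fun j => (T j).par (s.1 j), fun j => by rw [(c j).par_pi, s.2 j]⟩
  root := ⟨fun j => (T j).root, fun j => (T j).eq_root _ (by rw [(c j).len_pi, (T (j+1)).len_root])⟩
  len_root := (T 0).len_root
  eq_root s hs := by
    apply Subtype.ext
    funext j
    exact (T j).eq_root _ (by rw [len_eq s j, hs])
  len_par s := (T 0).len_par _
  succ p := by
    obtain ⟨j, hj⟩ : ∃ j, j = (T 0).len (p.1 0) + 1 := ⟨_, rfl⟩
    obtain ⟨q, hq1, hq2⟩ := (T j).succ (p.1 j)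
    rw [len_eq p j] at hq2
    obtain ⟨t, ht⟩ := exists_thr (c := c) j q (by rw [hq2]; omega)
    have hlt : (T 0).len (t.1 0) = (T 0).len (p.1 0) + 1 := by
      rw [← len_eq t j, ht, hq2]
    refine ⟨t, ?_, hlt⟩
    apply thr_unique j
    · show (T j).par (t.1 j) = p.1 j
      rw [ht, hq1]
    · show (T j).len ((T j).par (t.1 j)) ≤ _
      rw [ht, hq1, len_eq p j]; omega

open Classical in
/-- The thread of `q`. -/
def th (c : ∀ j, Cov (N + 2 * j) (T (j+1)) (T j)) (j : ℕ) (q : (T j).Pos) : (LT c).Pos :=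
  if h : ∃ s : Thr c, s.1 j = q then h.choose else (LT c).root

theorem th_spec (j : ℕ) (q : (T j).Pos) (hq : (T j).len q ≤ N + 2 * j) : (th c j q).1 j = q := by
  have h := exists_thr (c := c) j q hq
  rw [th, dif_pos h]
  exact h.choose_spec

theorem th_self (j : ℕ) (s : (LT c).Pos) (hq : (LT c).len s ≤ N + 2 * j) : th c j (s.1 j) = s := by
  have h1 : (T j).len (s.1 j) ≤ N + 2 * j := by rw [len_eq]; exact hq
  exact thr_unique j (th_spec j _ h1) (by rw [th_spec j _ h1]; exact h1)

theorem th_len (j : ℕ) (q : (T j).Pos) (hq : (T j).len q ≤ N + 2 * j) :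
    (LT c).len (th c j q) = (T j).len q := by
  show (T 0).len ((th c j q).1 0) = _
  rw [← len_eq _ j, th_spec j q hq]

open Classical in
/-- The strategy of `T j` given by `σ` on low levels. -/
def sg (c : ∀ j, Cov (N + 2 * j) (T (j+1)) (T j)) (σ : (LT c).Pos → (LT c).Pos) (j : ℕ)
    (p : (T j).Pos) : (T j).Pos :=
  if (T j).len p < N + 2 * j then (σ (th c j p)).1 j else ((T j).succ p).choose

theorem sg_strat {σ : (LT c).Pos → (LT c).Pos} (hσ : (LT c).IsStrat σ) (j : ℕ) :
    (T j).IsStrat (sg c σ j) := by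
  intro p
  rw [sg]
  split_ifs with h
  · have h1 := hσ (th c j p)
    have h2 : (T j).par ((σ (th c j p)).1 j) = p := by
      have : ((LT c).par (σ (th c j p))).1 j = (th c j p).1 j := by rw [h1.1]
      rw [th_spec j p h.le] at this
      exact this
    refine ⟨h2, ?_⟩
    have h3 : (T 0).len ((σ (th c j p)).1 0) = (LT c).len (th c j p) + 1 := h1.2
    rw [len_eq, h3, th_len j p h.le]
  · exact ((T j).succ p).choose_spec

/-- Families of functions. -/
abbrev Fam (T : ℕ → GTree.{u}) := ∀ i, (T i).Pos → (T i).Pos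

/-- Applying the maps `phi` at `j-1, ..., 0`. -/
def down (c : ∀ j, Cov (N + 2 * j) (T (j+1)) (T j)) (pl : ℕ) : ℕ → Fam T → Fam T
  | 0, R => R
  | j + 1, R => down c pl j (Function.update R j ((c j).phi pl (R (j+1))))

theorem down_ge (pl : ℕ) : ∀ (j : ℕ) (R : Fam T) (i : ℕ), j ≤ i → down c pl j R i = R i := by
  intro j
  induction j with
  | zero => intro R i _; rfl
  | succ j ih =>
    intro R i hi
    rw [down, ih _ i (by omega), Function.update_of_ne (show i ≠ j by omega)]

theorem down_lt (pl : ℕ) : ∀ (j : ℕ) (R : Fam T) (i : ℕ), i < j →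
    down c pl j R i = (c i).phi pl (down c pl j R (i+1)) := by
  intro j
  induction j with
  | zero => intro R i hi; omega
  | succ j ih =>
    intro R i hi
    rw [down]
    rcases Nat.lt_or_ge i j with h1 | h1
    · exact ih _ i h1
    · obtain rfl : i = j := by omega
      rw [down_ge pl i _ i le_rfl, Function.update_self, down_ge pl i _ (i+1) (by omega),
        Function.update_of_ne (show i + 1 ≠ i by omega)]

variable {pl : ℕ}

theorem down_strat (hpl : pl < 2) {σ : (LT c).Pos → (LT c).Pos} (hσ : (LT c).IsStrat σ) (j : ℕ) :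
    ∀ k i, j ≤ i + k → (T i).IsStrat (down c pl j (sg c σ) i) := by
  intro k
  induction k with
  | zero =>
    intro i hi
    rw [down_ge pl j _ i (by omega)]
    exact sg_strat hσ i
  | succ k ih =>
    intro i hi
    rcases Nat.lt_or_ge i j with h1 | h1
    · rw [down_lt pl j _ i h1]
      exact (c i).phi_strat pl hpl _ (ih (i+1) (by omega))
    · rw [down_ge pl j _ i h1]
      exact sg_strat hσ i

theorem down_step (hpl : pl < 2) {σ : (LT c).Pos → (LT c).Pos} (hσ : (LT c).IsStrat σ) (j : ℕ) :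
    ∀ k i, i ≤ j → j ≤ i + k → ∀ q, (T i).len q < N + 2 * j →
      down c pl (j+1) (sg c σ) i q = down c pl j (sg c σ) i q := by
  intro k
  induction k with
  | zero =>
    intro i h1 h2 q hq
    obtain rfl : i = j := by omega
    rw [down_lt pl (i+1) _ i (by omega), down_ge pl (i+1) _ (i+1) le_rfl, down_ge pl i _ i le_rfl]
    obtain ⟨p, hp, _⟩ := (c i).bij q hq.le
    have hlp : (T (i+1)).len p = (T i).len q := by rw [← hp, (c i).len_pi]
    have hp' : (T (i+1)).len p ≤ N + 2 * (i + 1) := by omega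
    have h3 := (c i).phi_low pl hpl _ (sg_strat hσ (i+1)) p (by omega)
    rw [← hp, h3, sg, sg, if_pos (by omega), if_pos (by rw [hp]; exact hq)]
    have h4 : th c i ((c i).pi p) = th c (i+1) p := by
      have h5 : (th c (i+1) p).1 i = (c i).pi p := by
        rw [← (th c (i+1) p).2 i, th_spec (i+1) p hp']
      rw [← h5]
      apply th_self
      rw [th_len (i+1) p hp']
      omega
    rw [h4]
    exact (σ (th c (i+1) p)).2 i
  | succ k ih =>
    intro i h1 h2 q hq
    rcases Nat.lt_or_ge i j with h3 | h3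
    · rw [down_lt pl (j+1) _ i (by omega), down_lt pl j _ i h3]
      apply (c i).phi_local pl hpl _ _ (down_strat hpl hσ (j+1) (j+1) (i+1) (by omega))
        (down_strat hpl hσ j j (i+1) (by omega)) ((T i).len q) _ q le_rfl
      intro p hp
      exact ih (i+1) (by omega) (by omega) p (by omega)
    · obtain rfl : i = j := by omega
      exact ih i le_rfl (by omega) q hq

theorem down_mono (hpl : pl < 2) {σ : (LT c).Pos → (LT c).Pos} (hσ : (LT c).IsStrat σ)
    (i j j' : ℕ) (hij : i ≤ j) (hjj : j ≤ j') (q : (T i).Pos) (hq : (T i).len q < N + 2 * j) :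
    down c pl j' (sg c σ) i q = down c pl j (sg c σ) i q := by
  induction j', hjj using Nat.le_induction with
  | base => rfl
  | succ j' hj' ih =>
    rw [down_step hpl hσ j' j' i (by omega) (by omega) q (by omega), ih]

/-- The limit of the strategies. -/
def psi (c : ∀ j, Cov (N + 2 * j) (T (j+1)) (T j)) (pl : ℕ) (σ : (LT c).Pos → (LT c).Pos) (i : ℕ)
    (q : (T i).Pos) : (T i).Pos :=
  down c pl (i + (T i).len q + 1) (sg c σ) i q

theorem psi_eq (hpl : pl < 2) {σ : (LT c).Pos → (LT c).Pos} (hσ : (LT c).IsStrat σ)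
    (i j : ℕ) (hij : i ≤ j) (q : (T i).Pos) (hq : (T i).len q < N + 2 * j) :
    psi c pl σ i q = down c pl j (sg c σ) i q := by
  rw [psi]
  rcases le_total j (i + (T i).len q + 1) with h | h
  · exact down_mono hpl hσ i j _ hij h q hq
  · exact (down_mono hpl hσ i _ j (by omega) h q (by omega)).symm

theorem psi_strat (hpl : pl < 2) {σ : (LT c).Pos → (LT c).Pos} (hσ : (LT c).IsStrat σ) (i : ℕ) :
    (T i).IsStrat (psi c pl σ i) := by
  intro q
  exact down_strat hpl hσ _ _ i (Nat.le_add_left _ _) q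

theorem psi_phi (hpl : pl < 2) {σ : (LT c).Pos → (LT c).Pos} (hσ : (LT c).IsStrat σ) (i : ℕ) :
    (c i).phi pl (psi c pl σ (i+1)) = psi c pl σ i := by
  funext q
  rw [psi_eq hpl hσ i (i + (T i).len q + 2) (by omega) q (by omega),
    down_lt pl _ _ i (by omega)]
  apply (c i).phi_local pl hpl _ _ (psi_strat hpl hσ (i+1))
    (down_strat hpl hσ _ _ (i+1) (Nat.le_add_left _ _)) ((T i).len q) _ q le_rfl
  intro p hp
  exact psi_eq hpl hσ (i+1) _ (by omega) p (by omega)

theorem psi_low (hpl : pl < 2) {σ : (LT c).Pos → (LT c).Pos} (hσ : (LT c).IsStrat σ) (i : ℕ)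
    (q : (T i).Pos) (hq : (T i).len q < N + 2 * i) : psi c pl σ i q = (σ (th c i q)).1 i := by
  rw [psi_eq hpl hσ i i le_rfl q hq, down_ge pl i _ i le_rfl, sg, if_pos hq]

theorem down_local (hpl : pl < 2) {σ σ' : (LT c).Pos → (LT c).Pos} (hσ : (LT c).IsStrat σ)
    (hσ' : (LT c).IsStrat σ') (n : ℕ) (h : ∀ p, (LT c).len p ≤ n → σ p = σ' p) (j : ℕ) :
    ∀ k i, j ≤ i + k → ∀ q, (T i).len q ≤ n →
      down c pl j (sg c σ) i q = down c pl j (sg c σ') i q := by
  have hsg : ∀ i q, (T i).len q ≤ n → sg c σ i q = sg c σ' i q := by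
    intro i q hq
    rw [sg, sg]
    split_ifs with h1
    · rw [h _ (by rw [th_len i q h1.le]; exact hq)]
    · rfl
  intro k
  induction k with
  | zero =>
    intro i hi q hq
    rw [down_ge pl j _ i (by omega), down_ge pl j _ i (by omega)]
    exact hsg i q hq
  | succ k ih =>
    intro i hi q hq
    rcases Nat.lt_or_ge i j with h1 | h1
    · rw [down_lt pl j _ i h1, down_lt pl j _ i h1]
      apply (c i).phi_local pl hpl _ _ (down_strat hpl hσ j j (i+1) (by omega))
        (down_strat hpl hσ' j j (i+1) (by omega)) n _ q hq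
      intro p hp
      exact ih (i+1) (by omega) p hp
    · rw [down_ge pl j _ i h1, down_ge pl j _ i h1]
      exact hsg i q hq

/-- Plays of `T j` consistent with `psi`. -/
abbrev CP (c : ∀ j, Cov (N + 2 * j) (T (j+1)) (T j)) (pl : ℕ) (σ : (LT c).Pos → (LT c).Pos)
    (j : ℕ) := {x : ℕ → (T j).Pos // (T j).IsPlay x ∧ (T j).Cons pl (psi c pl σ j) x}

theorem lift_one (hpl : pl < 2) {σ : (LT c).Pos → (LT c).Pos} (hσ : (LT c).IsStrat σ) (j : ℕ)
    (x : CP c pl σ j) : ∃ y : CP c pl σ (j+1), ∀ n, (c j).pi (y.1 n) = x.1 n := by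
  obtain ⟨y, h1, h2, h3⟩ := (c j).lift pl hpl _ (psi_strat hpl hσ (j+1)) x.1 x.2.1
    (by rw [psi_phi hpl hσ j]; exact x.2.2)
  exact ⟨⟨y, h1, h2⟩, h3⟩

/-- The sequence of lifts. -/
def xs (hpl : pl < 2) {σ : (LT c).Pos → (LT c).Pos} (hσ : (LT c).IsStrat σ)
    (x : CP c pl σ 0) : ∀ j, CP c pl σ j
  | 0 => x
  | j + 1 => (lift_one hpl hσ j (xs hpl hσ x j)).choose

theorem xs_spec (hpl : pl < 2) {σ : (LT c).Pos → (LT c).Pos} (hσ : (LT c).IsStrat σ)
    (x : CP c pl σ 0) (j n : ℕ) :
    (c j).pi ((xs hpl hσ x (j+1)).1 n) = (xs hpl hσ x j).1 n :=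
  (lift_one hpl hσ j (xs hpl hσ x j)).choose_spec n

/-- The covering. -/
def C0 (c : ∀ j, Cov (N + 2 * j) (T (j+1)) (T j)) : Cov N (LT c) (T 0) where
  pi s := s.1 0
  len_pi _ := rfl
  par_pi _ := rfl
  bij q hq := by
    obtain ⟨s, hs⟩ := exists_thr (c := c) 0 q (by omega)
    refine ⟨s, hs, fun s' hs' => ?_⟩
    have hs'' : s'.1 0 = q := hs'
    exact thr_unique 0 (by rw [hs, hs'']) (by rw [hs'']; omega)
  phi pl σ := psi c pl σ 0
  phi_strat pl hpl σ hσ := psi_strat hpl hσ 0
  phi_local pl hpl σ σ' hσ hσ' n h q hq :=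
    down_local hpl hσ hσ' n h _ _ 0 (Nat.le_add_left _ _) q hq
  phi_low pl hpl σ hσ p hp := by
    have hp' : (T 0).len (p.1 0) < N := hp
    rw [psi_low hpl hσ 0 _ (by omega), th_self 0 p (by
      show (T 0).len (p.1 0) ≤ _
      omega)]
  lift pl hpl σ hσ x hx hc := by
    let X := xs (c := c) hpl hσ ⟨x, hx, hc⟩
    have hX : ∀ j n, (c j).pi ((X (j+1)).1 n) = (X j).1 n := xs_spec hpl hσ _
    let y : ℕ → (LT c).Pos := fun n => ⟨fun j => (X j).1 n, fun j => hX j n⟩
    have hlen : ∀ n, (LT c).len (y n) = n := fun n => (X 0).2.1.1 n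
    refine ⟨y, ⟨hlen, ?_⟩, ?_, fun n => rfl⟩
    · intro n
      apply Subtype.ext
      funext j
      exact (X j).2.1.2 n
    · intro n hn
      have h1 : (y (n+1)).1 (n+1) = (σ (y n)).1 (n+1) := by
        have h2 : (X (n+1)).1 (n+1) = psi c pl σ (n+1) ((X (n+1)).1 n) := (X (n+1)).2.2 n hn
        have h3 : (T (n+1)).len ((X (n+1)).1 n) = n := (X (n+1)).2.1.1 n
        show (X (n+1)).1 (n+1) = _
        rw [h2, psi_low hpl hσ (n+1) _ (by omega)]
        have h4 : th c (n+1) ((X (n+1)).1 n) = y n :=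
          th_self (n+1) (y n) (by rw [hlen n]; omega)
        rw [h4]
      exact thr_unique (n+1) h1 (by
        rw [len_eq]
        have := hlen (n+1)
        change (T 0).len ((y (n+1)).1 0) = n + 1 at this
        omega)

theorem main : Stm_L2.{u} := by
  intro T N c
  exact ⟨LT c, C0 c, fun j s => s.1 j, fun j p => len_eq p j, fun j p => rfl, fun j p => p.2 j,
    fun p => rfl⟩

end

end Pool.Agent.R549.BD.L2
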