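import Pool.Agent.R549.BD.Defs

/-! # Piece L3 of the project BD: composition of coverings, finite games, and the assembly of Borel
determinacy from the closed case `Stm_L1` and the inverse limits `Stm_L2` -/

namespace Pool.Agent.R549.BD.L3

open Pool.Agent.R549.BD

universe u

/-! ## Plays -/

theorem par_iter {T : GTree.{u}} {x : ℕ → T.Pos} (hx : T.IsPlay x) (n : ℕ) :
    ∀ k, T.par^[k] (x (n + k)) = x n := by
  intro k
  induction k with
  | zero => rfl
  | succ k ih =>
    rw [Function.iterate_succ_apply, ← Nat.add_assoc, hx.2, ih]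

theorem par_iter' {T : GTree.{u}} {x : ℕ → T.Pos} (hx : T.IsPlay x) {n k : ℕ} (h : n ≤ k) :
    T.par^[k - n] (x k) = x n := by
  obtain ⟨d, rfl⟩ := Nat.exists_eq_add_of_le h
  rw [Nat.add_sub_cancel_left]
  exact par_iter hx n d

theorem exists_strat (T : GTree.{u}) : ∃ s, T.IsStrat s := by
  choose s hs using T.succ
  exact ⟨s, hs⟩

theorem map_play {S T : GTree.{u}} (f : S.Pos → T.Pos) (hl : ∀ p, T.len (f p) = S.len p)
    (hp : ∀ p, f (S.par p) = T.par (f p)) {y : ℕ → S.Pos} (hy : S.IsPlay y) :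
    T.IsPlay (fun n => f (y n)) := by
  refine ⟨fun n => ?_, fun n => ?_⟩
  · change T.len (f (y n)) = n
    rw [hl, hy.1]
  · change T.par (f (y (n+1))) = f (y n)
    rw [← hp, hy.2]

/-! ## L3a: composition and identity -/

/-- composition of coverings -/
def comp {N : ℕ} {R S T : GTree.{u}} (c : Cov N R S) (d : Cov N S T) : Cov N R T where
  pi p := d.pi (c.pi p)
  len_pi p := by rw [d.len_pi, c.len_pi]
  par_pi p := by rw [c.par_pi, d.par_pi]
  bij q hq := by
    obtain ⟨r, hr, hru⟩ := d.bij q hq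
    have hr' : S.len r ≤ N := by rw [← d.len_pi, hr]; exact hq
    obtain ⟨p, hp, hpu⟩ := c.bij r hr'
    refine ⟨p, ?_, ?_⟩
    · change d.pi (c.pi p) = q
      rw [hp, hr]
    · intro p' hp'
      exact hpu p' (hru _ hp')
  phi i s := d.phi i (c.phi i s)
  phi_strat i hi s hs := d.phi_strat i hi _ (c.phi_strat i hi s hs)
  phi_local i hi s s' hs hs' n h q hq :=
    d.phi_local i hi _ _ (c.phi_strat i hi s hs) (c.phi_strat i hi s' hs') n
      (fun p hp => c.phi_local i hi s s' hs hs' n h p hp) q hq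
  phi_low i hi s hs p hp := by
    rw [d.phi_low i hi _ (c.phi_strat i hi s hs) (c.pi p) (by rw [c.len_pi]; exact hp),
      c.phi_low i hi s hs p hp]
  lift i hi s hs x hx hxc := by
    obtain ⟨y, hy, hyc, hyx⟩ := d.lift i hi _ (c.phi_strat i hi s hs) x hx hxc
    obtain ⟨z, hz, hzc, hzy⟩ := c.lift i hi s hs y hy hyc
    exact ⟨z, hz, hzc, fun n => by rw [hzy, hyx]⟩

theorem L3a : Stm_L3a.{u} := fun _ _ _ _ c d => ⟨comp c d, fun _ => rfl⟩

/-- the identity covering -/
def idCov (N : ℕ) (T : GTree.{u}) : Cov N T T where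
  pi p := p
  len_pi _ := rfl
  par_pi _ := rfl
  bij q _ := ⟨q, rfl, fun _ h => h⟩
  phi _ s := s
  phi_strat _ _ _ hs := hs
  phi_local _ _ _ _ _ _ _ h q hq := h q hq
  phi_low _ _ _ _ _ _ := rfl
  lift _ _ _ _ x hx hxc := ⟨x, hx, hxc, fun _ => rfl⟩

/-! ## L3b: finite games -/

/-- the payoff of player `i` -/
def pay {T : GTree.{u}} (A : Set (ℕ → T.Pos)) (i : ℕ) : Set (ℕ → T.Pos) := if i = 0 then A else Aᶜ

/-- player `i` wins from the position `p` -/
def Win (T : GTree.{u}) (A : Set (ℕ → T.Pos)) (i : ℕ) (p : T.Pos) : Prop :=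
  ∃ s, T.IsStrat s ∧ ∀ x, T.IsPlay x → x (T.len p) = p →
    (∀ n, T.len p ≤ n → n % 2 = i → x (n+1) = s (x n)) → x ∈ pay A i

theorem win_or (T : GTree.{u}) (A : Set (ℕ → T.Pos)) (m : ℕ)
    (hA : ∀ y y', T.IsPlay y → T.IsPlay y' → y m = y' m → (y ∈ A ↔ y' ∈ A)) :
    ∀ k p, m ≤ T.len p + k → Win T A 0 p ∨ Win T A 1 p := by
  classical
  obtain ⟨s0, hs0⟩ := exists_strat T
  intro k
  induction k with
  | zero =>
    intro p hp
    rw [Nat.add_zero] at hp
    have hsame : ∀ x x', T.IsPlay x → T.IsPlay x' → x (T.len p) = p → x' (T.len p) = p →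
        (x ∈ A ↔ x' ∈ A) := by
      intro x x' hx hx' h h'
      apply hA x x' hx hx'
      rw [← par_iter' hx hp, ← par_iter' hx' hp, h, h']
    by_cases hex : ∃ x, T.IsPlay x ∧ x (T.len p) = p ∧ x ∈ A
    · obtain ⟨x0, hx0, hxp, hxA⟩ := hex
      left
      refine ⟨s0, hs0, fun x hx hxp' _ => ?_⟩
      simp only [pay, if_true]
      exact (hsame x0 x hx0 hx hxp hxp').1 hxA
    · push Not at hex
      right
      refine ⟨s0, hs0, fun x hx hxp' _ => ?_⟩
      simp only [pay, one_ne_zero, if_false]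
      exact hex x hx hxp'
  | succ k ih =>
    intro p hp
    -- the children of `p`
    have hch : ∀ q, T.par q = p → T.len q = T.len p + 1 → Win T A 0 q ∨ Win T A 1 q :=
      fun q _ hq => ih q (by omega)
    -- it is enough to treat the mover `b` and the other player
    have key : Win T A (T.len p % 2) p ∨ Win T A (1 - T.len p % 2) p := by
      by_cases hex : ∃ q, T.par q = p ∧ T.len q = T.len p + 1 ∧ Win T A (T.len p % 2) q
      · obtain ⟨q, hqp, hql, s, hs, hsw⟩ := hex
        left
        refine ⟨fun r => if r = p then q else s r, fun r => ?_, fun x hx hxp hxc => ?_⟩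
        · beta_reduce
          by_cases hr : r = p
          · rw [if_pos hr, hr]
            exact ⟨hqp, hql⟩
          · rw [if_neg hr]
            exact hs r
        · beta_reduce at hxc
          have h1 : x (T.len p + 1) = q := by
            rw [hxc (T.len p) le_rfl rfl, hxp, if_pos rfl]
          apply hsw x hx
          · rw [hql, h1]
          · intro n hn hn2
            rw [hxc n (by omega) hn2, if_neg]
            intro h
            have := hx.1 n
            rw [h] at this
            omega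
      · push Not at hex
        right
        have hall : ∀ q, T.par q = p → T.len q = T.len p + 1 → Win T A (1 - T.len p % 2) q := by
          intro q hq hql
          have h1 := hex q hq hql
          have h2 := hch q hq hql
          rcases Nat.mod_two_eq_zero_or_one (T.len p) with h | h
          · rw [h] at h1 ⊢
            exact h2.resolve_left h1
          · rw [h] at h1 ⊢
            exact h2.resolve_right h1
        have hSt : ∀ q, ∃ s, T.IsStrat s ∧ (Win T A (1 - T.len p % 2) q → ∀ x, T.IsPlay x →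
            x (T.len q) = q → (∀ n, T.len q ≤ n → n % 2 = 1 - T.len p % 2 → x (n+1) = s (x n)) →
            x ∈ pay A (1 - T.len p % 2)) := by
          intro q
          by_cases h : Win T A (1 - T.len p % 2) q
          · obtain ⟨s, hs, hsw⟩ := h
            exact ⟨s, hs, fun _ => hsw⟩
          · exact ⟨s0, hs0, fun h' => absurd h' h⟩
        choose S hS hSW using hSt
        refine ⟨fun r => S (T.par^[T.len r - (T.len p + 1)] r) r, fun r => hS _ r,
          fun x hx hxp hxc => ?_⟩
        beta_reduce at hxc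
        have hq1 : T.par (x (T.len p + 1)) = p := by rw [hx.2, hxp]
        have hq2 : T.len (x (T.len p + 1)) = T.len p + 1 := hx.1 _
        apply hSW _ (hall _ hq1 hq2) x hx
        · rw [hq2]
        · intro n hn hn2
          rw [hq2] at hn
          rw [hxc n (by omega) hn2]
          rw [hx.1 n, par_iter' hx hn]
    rcases Nat.mod_two_eq_zero_or_one (T.len p) with h | h
    · rw [h] at key
      exact key
    · rw [h] at key
      exact key.symm

theorem L3b : Stm_L3b.{u} := by
  intro T A m hA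
  rcases win_or T A m hA m T.root (by omega) with h | h
  · left
    obtain ⟨s, hs, hsw⟩ := h
    refine ⟨s, hs, fun x hx hxc => ?_⟩
    have h1 := hsw x hx (by rw [T.len_root]; exact T.eq_root _ (hx.1 0)) (fun n _ hn => hxc n hn)
    simpa only [pay, if_true] using h1
  · right
    obtain ⟨s, hs, hsw⟩ := h
    refine ⟨s, hs, fun x hx hxc => ?_⟩
    have h1 := hsw x hx (by rw [T.len_root]; exact T.eq_root _ (hx.1 0)) (fun n _ hn => hxc n hn)
    simp only [pay, one_ne_zero, if_false] at h1
    exact h1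

/-! ## L4: the assembly -/

/-- Every Borel set can be unraveled, after pulling back to any tree. -/
theorem unravel (h1 : Stm_L1.{u}) (h2 : Stm_L2.{u}) (T : GTree.{u}) (A : Set (ℕ → T.Pos))
    (hA : T.BorelT A) :
    ∀ (T' : GTree.{u}) (F : T'.Pos → T.Pos), (∀ p, T.len (F p) = T'.len p) →
      (∀ p, F (T'.par p) = T.par (F p)) → ∀ N, N % 2 = 0 →
      ∃ (S : GTree.{u}) (c : Cov N S T') (m : ℕ), UnravAt c {x | (fun n => F (x n)) ∈ A} m := by
  induction hA with
  | fin m C =>
    intro T' F _ _ N _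
    refine ⟨T', idCov N T', m, fun y y' _ _ hyy => ?_⟩
    simp only [Set.mem_ofPred_eq, idCov, hyy]
  | compl A _ ih =>
    intro T' F hl hp N hN
    obtain ⟨S, c, m, hU⟩ := ih T' F hl hp N hN
    refine ⟨S, c, m, fun y y' hy hy' hyy => ?_⟩
    have := hU y y' hy hy' hyy
    simp only [Set.mem_ofPred_eq, Set.mem_compl_iff] at this ⊢
    exact not_congr this
  | iUnion A _ ih =>
    intro T' F hl hp N hN
    -- the sequence of trees
    let St : Type (u+1) := Σ T'' : GTree.{u}, {F'' : T''.Pos → T.Pos //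
      (∀ p, T.len (F'' p) = T''.len p) ∧ ∀ p, F'' (T''.par p) = T.par (F'' p)}
    have H : ∀ (j : ℕ) (st : St), ∃ (S : GTree.{u}) (c : Cov (N + 2 * j) S st.1) (m : ℕ),
        UnravAt c {x | (fun n => st.2.1 (x n)) ∈ A j} m :=
      fun j st => ih j st.1 st.2.1 st.2.2.1 st.2.2.2 (N + 2 * j) (by omega)
    choose S c m hU using H
    let nxt : ℕ → St → St := fun j st => ⟨S j st, ⟨fun p => st.2.1 ((c j st).pi p),
      ⟨fun p => by rw [st.2.2.1, (c j st).len_pi], fun p => by
        beta_reduce
        rw [(c j st).par_pi, st.2.2.2]⟩⟩⟩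
    let st : ℕ → St := fun n => Nat.rec ⟨T', ⟨F, ⟨hl, hp⟩⟩⟩ (fun j s => nxt j s) n
    let cc : ∀ j, Cov (N + 2 * j) (st (j+1)).1 (st j).1 := fun j => c j (st j)
    obtain ⟨Sinf, c0, f, hfl, hfp, hfc, hf0⟩ := h2 (fun j => (st j).1) N cc
    have hF : ∀ j p, F (f 0 p) = (st j).2.1 (f j p) := by
      intro j p
      induction j with
      | zero => rfl
      | succ j ihj =>
        rw [ihj]
        change (st j).2.1 (f j p) = (st j).2.1 ((cc j).pi (f (j+1) p))
        rw [hfc j p]
    -- membership in `A j` is decided at level `m j`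
    have hdec : ∀ j y y', Sinf.IsPlay y → Sinf.IsPlay y' → y (m j (st j)) = y' (m j (st j)) →
        ((fun n => F (c0.pi (y n))) ∈ A j ↔ (fun n => F (c0.pi (y' n))) ∈ A j) := by
      intro j y y' hy hy' hyy
      have h3 := hU j (st j) (fun n => f (j+1) (y n)) (fun n => f (j+1) (y' n))
        (map_play (T := (st (j+1)).1) (f (j+1)) (hfl (j+1)) (hfp (j+1)) hy)
        (map_play (T := (st (j+1)).1) (f (j+1)) (hfl (j+1)) (hfp (j+1)) hy')
        (by rw [hyy])
      have h4 : ∀ p, (st j).2.1 ((c j (st j)).pi (f (j+1) p)) = F (c0.pi p) := by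
        intro p
        rw [hf0 p, hF j p]
        exact congrArg _ (hfc j p)
      simp only [Set.mem_ofPred_eq, h4] at h3
      exact h3
    let C : Set Sinf.Pos := {p | ∀ j, m j (st j) ≤ Sinf.len p → ∀ y, Sinf.IsPlay y →
      y (m j (st j)) = Sinf.par^[Sinf.len p - m j (st j)] p → (fun n => F (c0.pi (y n))) ∉ A j}
    have hC : ∀ p, p ∈ C → Sinf.par p ∈ C := by
      intro p hpC
      rcases Nat.eq_zero_or_pos (Sinf.len p) with h0 | h0
      · have h3 : Sinf.par p = p := by
          rw [Sinf.eq_root p h0]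
          apply Sinf.eq_root
          rw [Sinf.len_par, Sinf.len_root]
        rw [h3]
        exact hpC
      · intro j hj y hy hyj
        rw [Sinf.len_par] at hj hyj
        apply hpC j (by omega) y hy
        rw [hyj, ← Function.iterate_succ_apply]
        congr 1
        omega
    have hCp : ∀ y, Sinf.IsPlay y →
        ((∀ n, y n ∈ C) ↔ ∀ j, (fun n => F (c0.pi (y n))) ∉ A j) := by
      intro y hy
      constructor
      · intro h j
        apply h (m j (st j)) j (by rw [hy.1]) y hy
        rw [hy.1, Nat.sub_self]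
        rfl
      · intro h n j hj y' hy' hyj
        rw [hy.1] at hj hyj
        rw [par_iter' hy hj] at hyj
        intro hmem
        exact h j ((hdec j y' y hy' hy hyj).1 hmem)
    obtain ⟨S2, c2, hU2⟩ := h1 Sinf N hN C hC
    refine ⟨S2, comp c2 c0, N + 2, fun z z' hz hz' hzz => ?_⟩
    have h5 := hU2 z z' hz hz' hzz
    simp only [Set.mem_ofPred_eq] at h5
    rw [hCp _ (map_play c2.pi c2.len_pi c2.par_pi hz),
      hCp _ (map_play c2.pi c2.len_pi c2.par_pi hz')] at h5
    simp only [Set.mem_ofPred_eq, Set.mem_iUnion]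
    have h6 := not_congr h5
    push Not at h6
    exact h6

theorem L4 : Stm_L1.{u} → Stm_L2.{u} → Stm_BorelDet.{u} := by
  intro h1 h2 T A hA
  obtain ⟨S, c, m, hU⟩ := unravel h1 h2 T A hA T (fun p => p) (fun _ => rfl) (fun _ => rfl) 0 rfl
  rcases L3b S {y | (fun n => c.pi (y n)) ∈ A} m (fun y y' hy hy' hyy => hU y y' hy hy' hyy) with
    ⟨s, hs, hsw⟩ | ⟨s, hs, hsw⟩
  · left
    refine ⟨c.phi 0 s, c.phi_strat 0 (by norm_num) s hs, fun x hx hxc => ?_⟩
    obtain ⟨y, hy, hyc, hyx⟩ := c.lift 0 (by norm_num) s hs x hx hxc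
    have h3 := hsw y hy hyc
    have h4 : (fun n => c.pi (y n)) = x := funext hyx
    rw [Set.mem_ofPred_eq, h4] at h3
    exact h3
  · right
    refine ⟨c.phi 1 s, c.phi_strat 1 (by norm_num) s hs, fun x hx hxc => ?_⟩
    obtain ⟨y, hy, hyc, hyx⟩ := c.lift 1 (by norm_num) s hs x hx hxc
    have h3 := hsw y hy hyc
    have h4 : (fun n => c.pi (y n)) = x := funext hyx
    rw [Set.mem_ofPred_eq, h4] at h3
    exact h3

end Pool.Agent.R549.BD.L3
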