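import Pool.Agent.R549.BD.Defs

/-! Project BD/PP, piece P0: the dichotomy for labelled trees from Borel determinacy. -/

open MeasureTheory

namespace Pool.Agent.R549.BD.P0

/-- The game tree: positions are finite lists of moves, newest first. -/
def T0 : GTree.{0} where
  Pos := List H
  len := List.length
  par := List.tail
  root := []
  len_root := rfl
  eq_root := fun _ h => List.length_eq_zero_iff.1 h
  len_par := fun _ => List.length_tail
  succ := fun p => ⟨(fun _ => 0) :: p, rfl, rfl⟩

/-- The move at time `n`. -/
def move (x : ℕ → List H) (n : ℕ) : H := (x (n + 1)).headD (fun _ => 0)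

/-- The tree played by player 0. -/
def U (a : ℕ) (x : ℕ → List H) : H := fun w => if w = [] then a else move x (2 * w.length) w

/-- The tree played by player 1. -/
def D (b : ℕ) (x : ℕ → List H) : H := fun w => if w = [] then b else move x (2 * w.length + 1) w

/-- The sigma-algebra of the sets which are Borel in the sense of `BorelT`. -/
@[reducible] def ms : MeasurableSpace (ℕ → List H) where
  MeasurableSet' A := T0.BorelT A
  measurableSet_empty := by
    have h := GTree.BorelT.fin (T := T0) 0 ∅
    have e : ({x | x 0 ∈ (∅ : Set T0.Pos)} : Set (ℕ → T0.Pos)) = ∅ := by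
      ext x; simp
    rw [e] at h
    exact h
  measurableSet_compl A h := @GTree.BorelT.compl T0 A h
  measurableSet_iUnion f h := @GTree.BorelT.iUnion T0 f h

theorem ms_iff (A : Set (ℕ → List H)) : @MeasurableSet _ ms A ↔ T0.BorelT A := Iff.rfl

theorem meas_move (n : ℕ) (w : List (Fin 4)) :
    Measurable[ms] (fun x : ℕ → List H => move x n w) := by
  intro s _
  exact (ms_iff _).2 (GTree.BorelT.fin (T := T0) (n + 1)
    {p : List H | p.headD (fun _ => 0) w ∈ s})

theorem meas_U (a : ℕ) : Measurable[ms] (U a) := by
  let _ := ms
  refine measurable_pi_iff.2 fun w => ?_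
  by_cases h : w = []
  · simp only [U, h, if_true]
    exact measurable_const
  · simp only [U, h, if_false]
    exact meas_move _ _

theorem meas_D (b : ℕ) : Measurable[ms] (D b) := by
  let _ := ms
  refine measurable_pi_iff.2 fun w => ?_
  by_cases h : w = []
  · simp only [D, h, if_true]
    exact measurable_const
  · simp only [D, h, if_false]
    exact meas_move _ _

theorem borel_payoff (S : Set (H × H)) (hS : MeasurableSet S) (a b : ℕ) :
    T0.BorelT {x : ℕ → List H | (U a x, D b x) ∈ S} := by
  let _ := ms
  have h : Measurable (fun x : ℕ → List H => (U a x, D b x)) :=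
    (meas_U a).prodMk (meas_D b)
  exact (ms_iff _).1 (h hS)

/-- Truncation to one layer. -/
def trunc (k : ℕ) (h : H) : H := fun w => if w.length = k then h w else 0

theorem trunc_congr {n k : ℕ} (hk : k ≤ n) {h h' : H}
    (e : ∀ w, w.length ≤ n → h w = h' w) : trunc k h = trunc k h' := by
  funext w
  unfold trunc
  split_ifs with hw
  · exact e w (by omega)
  · rfl

/-- The play of a strategy against a tree. -/
def pl (i : ℕ) (s : List H → List H) (h : H) : ℕ → List H
  | 0 => []
  | n + 1 => if n % 2 = i then s (pl i s h n) else trunc (n / 2) h :: pl i s h n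

theorem pl_play (i : ℕ) (s : List H → List H) (hs : T0.IsStrat s) (h : H) :
    T0.IsPlay (pl i s h) := by
  have hlen : ∀ n, (pl i s h n).length = n := by
    intro n
    induction n with
    | zero => rfl
    | succ n ih =>
      simp only [pl]
      split_ifs
      · have := (hs (pl i s h n)).2
        change (s (pl i s h n)).length = (pl i s h n).length + 1 at this
        rw [this, ih]
      · rw [List.length_cons, ih]
  refine ⟨hlen, ?_⟩
  intro n
  change (pl i s h (n + 1)).tail = pl i s h n
  simp only [pl]
  split_ifs
  · exact (hs (pl i s h n)).1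
  · rfl

theorem pl_cons (i : ℕ) (s : List H → List H) (h : H) : T0.Cons i s (pl i s h) := by
  intro n hn
  simp only [pl]
  rw [if_pos hn]

theorem pl_move (i : ℕ) (s : List H → List H) (h : H) (n : ℕ) (hn : n % 2 ≠ i) :
    move (pl i s h) n = trunc (n / 2) h := by
  simp only [move, pl]
  rw [if_neg hn]
  rfl

theorem pl_congr (i : ℕ) (s : List H → List H) {n : ℕ} {h h' : H}
    (e : ∀ w, w.length ≤ n → h w = h' w) : ∀ m, m ≤ 2 * n + 2 → pl i s h m = pl i s h' m := by
  intro m
  induction m with
  | zero => intro _; rfl
  | succ m ih =>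
    intro hm
    simp only [pl]
    rw [ih (by omega), trunc_congr (k := m / 2) (n := n) (by omega) e]

theorem move_congr (i : ℕ) (s : List H → List H) {n : ℕ} {h h' : H}
    (e : ∀ w, w.length ≤ n → h w = h' w) (m : ℕ) (hm : m ≤ 2 * n + 1) :
    move (pl i s h) m = move (pl i s h') m := by
  unfold move
  rw [pl_congr i s e (m + 1) (by omega)]

theorem main : Stm_BorelDet.{0} → Stm_Dich := by
  intro hdet S hS a b
  rcases hdet T0 _ (borel_payoff S hS a b) with ⟨s, hs, hw⟩ | ⟨s, hs, hw⟩
  · left
    refine ⟨fun d => U a (pl 0 s d), ?_, ?_, ?_⟩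
    · intro n h h' e w hw'
      simp only [U]
      rw [move_congr 0 s e (2 * w.length) (by omega)]
    · intro d
      simp [U]
    · intro d hd
      have h1 := hw (pl 0 s d) (pl_play 0 s hs d) (pl_cons 0 s d)
      have h2 : D b (pl 0 s d) = d := by
        funext w
        simp only [D]
        split_ifs with hw'
        · rw [hw', hd]
        · rw [pl_move 0 s d _ (by omega), show (2 * w.length + 1) / 2 = w.length by omega]
          simp [trunc]
      change (U a (pl 0 s d), D b (pl 0 s d)) ∈ S at h1
      rw [h2] at h1
      exact h1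
  · right
    refine ⟨fun u => D b (pl 1 s u), ?_, ?_, ?_⟩
    · intro n h h' e w hw'
      simp only [D]
      rw [move_congr 1 s e (2 * w.length + 1) (by omega)]
    · intro u
      simp [D]
    · intro u hu
      have h1 := hw (pl 1 s u) (pl_play 1 s hs u) (pl_cons 1 s u)
      have h2 : U a (pl 1 s u) = u := by
        funext w
        simp only [U]
        split_ifs with hw'
        · rw [hw', hu]
        · rw [pl_move 1 s u _ (by omega), show (2 * w.length) / 2 = w.length by omega]
          simp [trunc]
      change ¬ ((U a (pl 1 s u), D b (pl 1 s u)) ∈ S) at h1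
      rw [h2] at h1
      exact h1

end Pool.Agent.R549.BD.P0
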