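import Pool.Agent.R549.BD.Defs

/-! Piece P3 of the project BD/PP (helper891): the node fixed point and the value induction. -/

namespace Pool.Agent.R549.BD.P3

/-- The source side has a non-expansive strategy `f` with root label `i`, guaranteeing `c ≤ g`
against all targets with root label `j`. -/
def SF (i j : ℕ) (c : ℤ) (g : H → H → ℤ) : Prop :=
  ∃ f : H → H, NonExp f ∧ (∀ d, f d [] = i) ∧ ∀ d, d [] = j → c ≤ g (f d) d

/-- The target side has a non-expansive strategy `h` with root label `j`, guaranteeing `g ≤ c`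
against all sources with root label `i`. -/
def TF (i j : ℕ) (c : ℤ) (g : H → H → ℤ) : Prop :=
  ∃ h : H → H, NonExp h ∧ (∀ u, h u [] = j) ∧ ∀ u, u [] = i → g u (h u) ≤ c

lemma dich (hD : Stm_Dich) (g : H → H → ℤ) (hg : Measurable (fun p : H × H => g p.1 p.2))
    (i j : ℕ) (c : ℤ) : SF i j (c+1) g ∨ TF i j c g := by
  have hS : MeasurableSet {p : H × H | c + 1 ≤ g p.1 p.2} := measurableSet_le measurable_const hg
  rcases hD _ hS i j with ⟨f, hf, ha, hb⟩ | ⟨h, hh, ha, hb⟩
  · left; exact ⟨f, hf, ha, hb⟩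
  · right
    refine ⟨h, hh, ha, fun u hu => ?_⟩
    have h1 := hb u hu
    have h2 : ¬ (c + 1 ≤ g u (h u)) := h1
    omega

/-- the constant tree with root label `i` -/
def cst (i : ℕ) : H := fun w => if w = [] then i else 0

lemma cst_nil (i : ℕ) : cst i [] = i := by simp [cst]

lemma nonExp_const (h0 : H) : NonExp (fun _ => h0) := by
  intro n h h' _ w _
  rfl

lemma SF_mono {i j : ℕ} {c : ℤ} {g g' : H → H → ℤ} (hgg : ∀ u d, g u d ≤ g' u d)
    (h : SF i j c g) : SF i j c g' := by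
  obtain ⟨f, hf, ha, hb⟩ := h
  exact ⟨f, hf, ha, fun d hd => (hb d hd).trans (hgg _ _)⟩

lemma SF_le {i j : ℕ} {c c' : ℤ} {g : H → H → ℤ} (hc : c' ≤ c)
    (h : SF i j c g) : SF i j c' g := by
  obtain ⟨f, hf, ha, hb⟩ := h
  exact ⟨f, hf, ha, fun d hd => hc.trans (hb d hd)⟩

lemma SF_low {i j : ℕ} {c : ℤ} {g : H → H → ℤ} (hg : ∀ u d, c ≤ g u d) : SF i j c g :=
  ⟨fun _ => cst i, nonExp_const _, fun _ => cst_nil i, fun _ _ => hg _ _⟩

lemma SF_up {i j : ℕ} {c K : ℤ} {g : H → H → ℤ} (hg : ∀ u d, g u d ≤ K) (h : SF i j c g) :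
    c ≤ K := by
  obtain ⟨f, hf, ha, hb⟩ := h
  exact (hb (cst j) (cst_nil j)).trans (hg _ _)

/-- the largest value guaranteed by the source side -/
lemma exists_val (hD : Stm_Dich) (g : H → H → ℤ) (hg : Measurable (fun p : H × H => g p.1 p.2))
    (K : ℤ) (h1 : ∀ u d, -K ≤ g u d) (h2 : ∀ u d, g u d ≤ K) (i j : ℕ) :
    ∃ c, SF i j c g ∧ TF i j c g := by
  obtain ⟨c, hc, hmax⟩ := Int.exists_greatest_of_bdd (P := fun c => SF i j c g)
    ⟨K, fun z hz => SF_up h2 hz⟩ ⟨-K, SF_low h1⟩
  refine ⟨c, hc, ?_⟩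
  rcases dich hD g hg i j c with h | h
  · exact absurd (hmax _ h) (by omega)
  · exact h

/-! ### The fixed point -/

/-- `x` and `y` have the same labels at all words of length less than `n`. -/
def Agr (n : ℕ) (x y : X) : Prop := ∀ t, ∀ w : List (Fin 4), w.length < n → x t w = y t w

/-- the iterated map -/
def Phi (F : Fin 5 → H → H) (L : Fin 5 → ℕ) (N : Fin 5 → Fin 4 → Fin 5) (x : X) : X :=
  fun t => F t (mk (L t) (fun c => x (N t c)))

lemma Phi_agr {F : Fin 5 → H → H} (hF : ∀ t, NonExp (F t)) (L : Fin 5 → ℕ)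
    (N : Fin 5 → Fin 4 → Fin 5) {n : ℕ} {x y : X} (h : Agr n x y) :
    Agr (n+1) (Phi F L N x) (Phi F L N y) := by
  intro t w hw
  apply hF t n _ _ _ w (by omega)
  intro v hv
  cases v with
  | nil => rfl
  | cons c v =>
    simp only [List.length_cons] at hv
    exact h (N t c) v (by omega)

lemma Phi_iter {F : Fin 5 → H → H} (hF : ∀ t, NonExp (F t)) (L : Fin 5 → ℕ)
    (N : Fin 5 → Fin 4 → Fin 5) (n : ℕ) :
    ∀ x y : X, Agr n ((Phi F L N)^[n] x) ((Phi F L N)^[n] y) := by
  induction n with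
  | zero => intro x y t w hw; omega
  | succ n ih =>
    intro x y
    rw [Function.iterate_succ_apply', Function.iterate_succ_apply']
    exact Phi_agr hF L N (ih x y)

lemma fixpt (F : Fin 5 → H → H) (hF : ∀ t, NonExp (F t)) (L : Fin 5 → ℕ)
    (N : Fin 5 → Fin 4 → Fin 5) :
    ∃ x : X, ∀ t, x t = F t (mk (L t) (fun c => x (N t c))) := by
  let x0 : X := fun _ _ => 0
  let x : X := fun t w => ((Phi F L N)^[w.length + 1] x0) t w
  have hx : ∀ n, Agr n x ((Phi F L N)^[n] x0) := by
    intro n t w hw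
    obtain ⟨k, hk⟩ : ∃ k, n = (w.length + 1) + k := ⟨n - (w.length + 1), by omega⟩
    have h1 := Phi_iter hF L N (w.length + 1) x0 ((Phi F L N)^[k] x0) t w (by omega)
    rw [← Function.iterate_add_apply, ← hk] at h1
    exact h1
  refine ⟨x, fun t => ?_⟩
  funext w
  have h1 := hx (w.length + 1) t w (by omega)
  have h2 := Phi_agr hF L N (hx w.length) t w (by omega)
  rw [← Function.iterate_succ_apply' (Phi F L N)] at h2
  rw [h1, ← h2]
  rfl

/-- neighbours in the fixed point equation -/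
def nb : Fin 5 → Fin 4 → Fin 5 :=
  ![![3,4,1,2], ![3,4,2,0], ![3,4,0,1], ![4,0,1,2], ![3,0,1,2]]

lemma node (f : Fin 2 → H → H) (hf : ∀ l, NonExp (f l)) (il : Fin 2 → Fin 3)
    (hfl : ∀ l d, f l d [] = (il l).val)
    (h : Fin 3 → H → H) (hh : ∀ i, NonExp (h i)) (ji : Fin 3 → Fin 2)
    (hhi : ∀ i u, h i u [] = (ji i).val) :
    ∃ x : X, (∀ l, x (iI l) = f l (dOf l x)) ∧ (∀ i, x (oI i) = h i (uOf i x)) ∧
      (∀ l : Fin 2, dOf l x [] = l.val) ∧ (∀ i : Fin 3, uOf i x [] = i.val) := by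
  obtain ⟨x, hx⟩ := fixpt ![h 0, h 1, h 2, f 0, f 1]
    (by intro t; fin_cases t <;> simp [hf, hh]) ![0, 1, 2, 0, 1] nb
  have e0 : x 0 = h 0 (mk 0 ![x 3, x 4, x 1, x 2]) := by
    rw [hx 0]
    show h 0 _ = _
    congr 2
    funext c; fin_cases c <;> rfl
  have e1 : x 1 = h 1 (mk 1 ![x 3, x 4, x 2, x 0]) := by
    rw [hx 1]
    show h 1 _ = _
    congr 2
    funext c; fin_cases c <;> rfl
  have e2 : x 2 = h 2 (mk 2 ![x 3, x 4, x 0, x 1]) := by
    rw [hx 2]
    show h 2 _ = _
    congr 2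
    funext c; fin_cases c <;> rfl
  have e3 : x 3 = f 0 (mk 0 ![x 4, x 0, x 1, x 2]) := by
    rw [hx 3]
    show f 0 _ = _
    congr 2
    funext c; fin_cases c <;> rfl
  have e4 : x 4 = f 1 (mk 1 ![x 3, x 0, x 1, x 2]) := by
    rw [hx 4]
    show f 1 _ = _
    congr 2
    funext c; fin_cases c <;> rfl
  have l0 : x 0 [] / 2 = 0 := by rw [e0, hhi]; have := (ji 0).isLt; omega
  have l1 : x 1 [] / 2 = 0 := by rw [e1, hhi]; have := (ji 1).isLt; omega
  have l2 : x 2 [] / 2 = 0 := by rw [e2, hhi]; have := (ji 2).isLt; omega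
  have l3 : x 3 [] / 3 = 0 := by rw [e3, hfl]; have := (il 0).isLt; omega
  have l4 : x 4 [] / 3 = 0 := by rw [e4, hfl]; have := (il 1).isLt; omega
  have u0 : uOf 0 x = mk 0 ![x 3, x 4, x 1, x 2] := by
    show mk (3 * (x 0 [] / 2) + 0) ![x 3, x 4, x 1, x 2] = _
    rw [l0]
  have u1 : uOf 1 x = mk 1 ![x 3, x 4, x 2, x 0] := by
    show mk (3 * (x 1 [] / 2) + 1) ![x 3, x 4, x 2, x 0] = _
    rw [l1]
  have u2 : uOf 2 x = mk 2 ![x 3, x 4, x 0, x 1] := by
    show mk (3 * (x 2 [] / 2) + 2) ![x 3, x 4, x 0, x 1] = _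
    rw [l2]
  have d0 : dOf 0 x = mk 0 ![x 4, x 0, x 1, x 2] := by
    show mk (2 * (x 3 [] / 3) + 0) ![x 4, x 0, x 1, x 2] = _
    rw [l3]
  have d1 : dOf 1 x = mk 1 ![x 3, x 0, x 1, x 2] := by
    show mk (2 * (x 4 [] / 3) + 1) ![x 3, x 0, x 1, x 2] = _
    rw [l4]
  refine ⟨x, ?_, ?_, ?_, ?_⟩
  · intro l
    fin_cases l
    · show x 3 = f 0 (dOf 0 x)
      rw [d0]; exact e3
    · show x 4 = f 1 (dOf 1 x)
      rw [d1]; exact e4
  · intro i
    fin_cases i
    · show x 0 = h 0 (uOf 0 x)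
      rw [u0]; exact e0
    · show x 1 = h 1 (uOf 1 x)
      rw [u1]; exact e1
    · show x 2 = h 2 (uOf 2 x)
      rw [u2]; exact e2
  · intro l
    fin_cases l
    · show dOf 0 x [] = 0
      rw [d0]; rfl
    · show dOf 1 x [] = 1
      rw [d1]; rfl
  · intro i
    fin_cases i
    · show uOf 0 x [] = 0
      rw [u0]; rfl
    · show uOf 1 x [] = 1
      rw [u1]; rfl
    · show uOf 2 x [] = 2
      rw [u2]; rfl

/-- Source strategies on the in-links and target strategies on the out-links meet at a node. -/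
lemma node_play (g g' : H → H → ℤ) (il : Fin 2 → Fin 3) (cl : Fin 2 → ℤ)
    (hS : ∀ l, SF (il l).val l.val (cl l) g) (ji : Fin 3 → Fin 2) (ci : Fin 3 → ℤ)
    (hT : ∀ i, TF i.val (ji i).val (ci i) g') :
    ∃ x : X, (∀ l, cl l ≤ g (x (iI l)) (dOf l x)) ∧ (∀ i, g' (uOf i x) (x (oI i)) ≤ ci i) := by
  choose f hf1 hf2 hf3 using hS
  choose h hh1 hh2 hh3 using hT
  obtain ⟨x, h1, h2, h3, h4⟩ := node f hf1 il hf2 h hh1 ji hh2
  refine ⟨x, fun l => ?_, fun i => ?_⟩
  · have := hf3 l (dOf l x) (h3 l)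
    rwa [← h1 l] at this
  · have := hh3 i (uOf i x) (h4 i)
    rwa [← h2 i] at this

theorem main : Stm_P3 := by
  intro hD Xs Ys K k0 mX mY bX bY decX decY zero bal1 bal2
  have mXY : ∀ s s', Measurable (fun p : H × H => (fun u d => Xs s u d - Ys s' u d) p.1 p.2) :=
    fun s s' => (mX s).sub (mY s')
  -- the induction claim
  have Q : ∀ s, ∀ l : Fin 2, ∃ i : Fin 3,
      SF i.val l.val 1 (fun u d => Xs s u d - Ys (s+1) u d) := by
    intro s
    induction s with
    | zero =>
      have hval : ∀ (i : Fin 3) (j : Fin 2), ∃ c, SF i.val j.val c (fun u d => Xs 0 u d - Ys 0 u d) ∧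
          TF i.val j.val c (fun u d => Xs 0 u d - Ys 0 u d) := by
        intro i j
        refine exists_val hD _ (mXY 0 0) K ?_ ?_ _ _
        · intro u d
          have h1 := (bX 0 u d).1
          have h2 := (bY 0 u d).2
          show -K ≤ Xs 0 u d - Ys 0 u d
          omega
        · intro u d
          have h1 := (bX 0 u d).2
          have h2 := (bY 0 u d).1
          show Xs 0 u d - Ys 0 u d ≤ K
          omega
      choose a ha hb using hval
      have hmax : ∀ l : Fin 2, ∃ i0 : Fin 3, ∀ i, a i l ≤ a i0 l := fun l =>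
        Finite.exists_max (fun i => a i l)
      choose im him using hmax
      have key : ∀ j : Fin 2, 1 + (a (im 0) 0 + a (im 1) 1) ≤ a 0 j + a 1 j + a 2 j := by
        intro j
        obtain ⟨x, h1, h2⟩ := node_play _ _ im (fun l => a (im l) l) (fun l => ha (im l) l)
          (fun _ => j) (fun i => a i j) (fun i => hb i j)
        have h3 := bal1 x
        rw [Fin.sum_univ_two, Fin.sum_univ_three] at h3
        have g0 := h1 0
        have g1 := h1 1
        have k0 := h2 0
        have k1 := h2 1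
        have k2 := h2 2
        beta_reduce at g0 g1 k0 k1 k2
        linarith
      have hpos : ∀ l : Fin 2, 1 ≤ a (im l) l := by
        have k0 := key 0
        have k1 := key 1
        have a0 := him 0 0
        have a1 := him 0 1
        have a2 := him 0 2
        have b0 := him 1 0
        have b1 := him 1 1
        have b2 := him 1 2
        have hl0 : 1 ≤ a (im 0) 0 ∧ 1 ≤ a (im 1) 1 := by
          constructor <;> omega
        intro l
        fin_cases l
        · exact hl0.1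
        · exact hl0.2
      intro l
      refine ⟨im l, SF_mono ?_ (SF_le (hpos l) (ha (im l) l))⟩
      intro u d
      have := decY 0 u d
      show Xs 0 u d - Ys 0 u d ≤ Xs 0 u d - Ys (0+1) u d
      omega
    | succ s ih =>
      by_contra hcon
      push Not at hcon
      obtain ⟨j, hj⟩ := hcon
      choose il hil using ih
      have hT : ∀ i : Fin 3, TF i.val j.val 0 (fun u d => Xs (s+1) u d - Ys s u d) := by
        intro i
        rcases dich hD (fun u d => Xs (s+1) u d - Ys s u d) (mXY (s+1) s) i.val j.val 0 with h | h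
        · exfalso
          apply hj i
          refine SF_mono ?_ h
          intro u d
          have h1 := decY s u d
          have h2 := decY (s+1) u d
          show Xs (s+1) u d - Ys s u d ≤ Xs (s+1) u d - Ys (s+1+1) u d
          omega
        · exact h
      obtain ⟨x, h1, h2⟩ := node_play _ _ il (fun _ => 1) hil (fun _ => j) (fun _ => 0) hT
      have h3 := bal2 s x
      rw [Fin.sum_univ_two, Fin.sum_univ_three] at h3
      have g0 := h1 0
      have g1 := h1 1
      have k0 := h2 0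
      have k1 := h2 1
      have k2 := h2 2
      beta_reduce at g0 g1 k0 k1 k2
      linarith
  obtain ⟨i, f, hf, ha, hb⟩ := Q k0 0
  have h1 := hb (cst 0) (cst_nil 0)
  have h2 := (zero k0 le_rfl (f (cst 0)) (cst 0)).1
  have h3 := (zero (k0+1) (by omega) (f (cst 0)) (cst 0)).2
  simp only [h2, h3] at h1
  omega

end Pool.Agent.R549.BD.P3
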