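import Pool.Agent.R549.BD.Defs

/-! P5 of the project BD/PP: token counting (helper736). -/

set_option autoImplicit false

namespace Pool.Agent.R549.BD.P5

/-! ### (F1), (F2) -/

lemma mk_nil (l : ℕ) (ch : Fin 4 → H) : mk l ch [] = l := rfl

lemma mk_cons (l : ℕ) (ch : Fin 4 → H) (c : Fin 4) (w : List (Fin 4)) :
    mk l ch (c :: w) = ch c w := rfl

lemma sub_mk (l : ℕ) (ch : Fin 4 → H) (c : Fin 4) : sub (mk l ch) c = ch c := rfl

lemma mk_eq (h : H) (l : ℕ) (ch : Fin 4 → H) (hl : l = h []) (hc : ∀ c, ch c = sub h c) :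
    mk l ch = h := by
  funext w
  cases w with
  | nil => exact hl
  | cons c w => rw [mk_cons, hc]; rfl

lemma uOf_nil (i : Fin 3) (x : X) : uOf i x [] = 3 * (x (oI i) [] / 2) + i := rfl

lemma dOf_nil (l : Fin 2) (x : X) : dOf l x [] = 2 * (x (iI l) [] / 3) + l := rfl

lemma tgt_out (i : Fin 3) (x : X) : tgtNode (uOf i x) (x (oI i)) = mv (oI i) x := by
  fin_cases i <;> rfl

lemma src_in (l : Fin 2) (x : X) : srcNode (x (iI l)) (dOf l x) = mv (iI l) x := by
  fin_cases l <;> rfl

lemma src_out (i : Fin 3) (x : X) : srcNode (uOf i x) (x (oI i)) = x := by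
  funext t
  have h0 : uOf i x [] % 3 = i := by
    rw [uOf_nil]; omega
  have h1 : (uOf i x [] + 1) % 3 = (i + 1) % 3 := by
    rw [uOf_nil]; omega
  simp only [srcNode, h0, h1]
  fin_cases i <;> fin_cases t <;> simp [uOf, sub_mk, oI]

lemma tgt_in (l : Fin 2) (x : X) : tgtNode (x (iI l)) (dOf l x) = x := by
  funext t
  have h0 : dOf l x [] % 2 = l := by
    rw [dOf_nil]; omega
  simp only [tgtNode, h0]
  fin_cases l <;> fin_cases t <;> simp [dOf, sub_mk, iI]

/-- in-link index of the tree `d` -/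
def il (d : H) : Fin 2 := if d [] % 2 = 0 then 0 else 1

/-- out-link index of the tree `u` -/
def ol (u : H) : Fin 3 := if u [] % 3 = 0 then 0 else if u [] % 3 = 1 then 1 else 2

lemma il_val (d : H) : ((il d : Fin 2) : ℕ) = d [] % 2 := by
  unfold il
  split_ifs with h
  · simp [h]
  · have : d [] % 2 = 1 := by omega
    simp [this]

lemma ol_val (u : H) : ((ol u : Fin 3) : ℕ) = u [] % 3 := by
  unfold ol
  split_ifs with h h'
  · simp [h]
  · simp [h']
  · have : u [] % 3 = 2 := by omega
    simp [this]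

lemma rev_out (i : Fin 3) (x : X) : rev (oI i) x = iI (il (x (oI i))) := by
  have : ((oI i : Fin 5) : ℕ) < 3 := by fin_cases i <;> decide
  simp only [rev, this, if_true, il, iI]
  split_ifs <;> simp_all

lemma rev_in (l : Fin 2) (x : X) : rev (iI l) x = oI (ol (x (iI l))) := by
  have : ¬ ((iI l : Fin 5) : ℕ) < 3 := by fin_cases l <;> decide
  simp only [rev, this, if_false, ol, oI]
  split_ifs <;> simp_all

lemma tgt_il (u d : H) : tgtNode u d (iI (il d)) = u := by
  unfold il
  split_ifs with h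
  · simp [iI, tgtNode, h]
  · simp [iI, tgtNode, h]

lemma src_ol (u d : H) : srcNode u d (oI (ol u)) = d := by
  unfold ol
  split_ifs with h h'
  · simp [oI, srcNode, h]
  · simp [oI, srcNode, h']
  · have : u [] % 3 = 2 := by omega
    simp [oI, srcNode, this]

lemma dOf_tgt (u d : H) (h : u [] / 3 = d [] / 2) : dOf (il d) (tgtNode u d) = d := by
  refine mk_eq _ _ _ ?_ ?_
  · have h1 := tgt_il u d
    rw [iI] at h1
    rw [h1, il_val]
    omega
  · intro c
    by_cases h' : d [] % 2 = 0
    · have hl : il d = 0 := by simp [il, h']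
      rw [hl]
      fin_cases c <;> simp [tgtNode, h']
    · have hl : il d = 1 := by simp [il, h']
      rw [hl]
      fin_cases c <;> simp [tgtNode, h']

lemma uOf_src (u d : H) (h : u [] / 3 = d [] / 2) : uOf (ol u) (srcNode u d) = u := by
  refine mk_eq _ _ _ ?_ ?_
  · have h1 := src_ol u d
    rw [oI] at h1
    rw [h1, ol_val]
    omega
  · intro c
    unfold ol
    split_ifs with h' h''
    · have h2 : (u [] + 1) % 3 = 1 := by omega
      fin_cases c <;> simp [srcNode, h', h2]
    · have h2 : (u [] + 1) % 3 = 2 := by omega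
      fin_cases c <;> simp [srcNode, h'', h2]
    · have h3 : u [] % 3 = 2 := by omega
      have h2 : (u [] + 1) % 3 = 0 := by omega
      fin_cases c <;> simp [srcNode, h3, h2]

lemma cases5 (t : Fin 5) : (∃ i, t = oI i) ∨ ∃ l, t = iI l := by
  fin_cases t
  · exact Or.inl ⟨0, rfl⟩
  · exact Or.inl ⟨1, rfl⟩
  · exact Or.inl ⟨2, rfl⟩
  · exact Or.inr ⟨0, rfl⟩
  · exact Or.inr ⟨1, rfl⟩

lemma div_out (i : Fin 3) (x : X) : uOf i x [] / 3 = x (oI i) [] / 2 := by
  rw [uOf_nil]; omega

lemma div_in (l : Fin 2) (x : X) : x (iI l) [] / 3 = dOf l x [] / 2 := by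
  rw [dOf_nil]; omega

lemma ol_uOf (i : Fin 3) (x : X) : ol (uOf i x) = i := by
  apply Fin.ext
  rw [ol_val, uOf_nil]
  omega

lemma il_dOf (l : Fin 2) (x : X) : il (dOf l x) = l := by
  apply Fin.ext
  rw [il_val, dOf_nil]
  omega

lemma mv_rev (t : Fin 5) (x : X) : mv (rev t x) (mv t x) = x := by
  rcases cases5 t with ⟨i, rfl⟩ | ⟨l, rfl⟩
  · rw [rev_out, ← tgt_out, ← src_in, tgt_il, dOf_tgt _ _ (div_out i x), src_out]
  · rw [rev_in, ← src_in, ← tgt_out, src_ol, uOf_src _ _ (div_in l x), tgt_in]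

lemma rev_rev (t : Fin 5) (x : X) : rev (rev t x) (mv t x) = t := by
  rcases cases5 t with ⟨i, rfl⟩ | ⟨l, rfl⟩
  · rw [rev_out, ← tgt_out, rev_in, tgt_il, ol_uOf]
  · rw [rev_in, ← src_in, rev_out, src_ol, il_dOf]

/-! ### lists of moves -/

lemma act_append (a b : List (Fin 5)) : ∀ x, act (a ++ b) x = act b (act a x) := by
  induction a with
  | nil => intro x; rfl
  | cons t a ih => intro x; exact ih _

/-- the list of moves which leads back -/
def fwd : List (Fin 5) → X → List (Fin 5)
  | [], _ => []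
  | t :: v, x => fwd v (mv t x) ++ [rev t x]

lemma fwd_append (a b : List (Fin 5)) : ∀ x, fwd (a ++ b) x = fwd b (act a x) ++ fwd a x := by
  induction a with
  | nil => intro x; simp [fwd, act]
  | cons t a ih =>
    intro x
    simp only [List.cons_append, fwd, act, ih, List.append_assoc]

lemma act_fwd (v : List (Fin 5)) : ∀ x, act (fwd v x) (act v x) = x := by
  induction v with
  | nil => intro x; rfl
  | cons t v ih =>
    intro x
    simp only [fwd, act, act_append, ih]
    exact mv_rev t x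

lemma fwd_fwd (v : List (Fin 5)) : ∀ x, fwd (fwd v x) (act v x) = v := by
  induction v with
  | nil => intro x; rfl
  | cons t v ih =>
    intro x
    simp only [fwd, act, fwd_append, act_fwd, ih, rev_rev]
    simp

lemma length_fwd (v : List (Fin 5)) : ∀ x, (fwd v x).length = v.length := by
  induction v with
  | nil => intro x; rfl
  | cons t v ih => intro x; simp [fwd, ih]

/-! ### measurability -/

lemma meas_sub (c : Fin 4) : Measurable (fun h : H => sub h c) :=
  measurable_pi_iff.2 fun w => measurable_pi_apply (c :: w)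

lemma meas_mk {α : Type} [MeasurableSpace α] {l : α → ℕ} {ch : α → Fin 4 → H}
    (hl : Measurable l) (hc : ∀ c, Measurable fun a => ch a c) :
    Measurable (fun a => mk (l a) (ch a)) := by
  refine measurable_pi_iff.2 fun w => ?_
  cases w with
  | nil => exact hl
  | cons c w => exact (measurable_pi_apply w).comp (hc c)

lemma meas_nat {α : Type} [MeasurableSpace α] {f : α → ℕ} (hf : Measurable f) (g : ℕ → ℕ) :
    Measurable (fun a => g (f a)) := (measurable_of_countable g).comp hf

lemma meas_nil : Measurable (fun h : H => h []) := measurable_pi_apply _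

lemma meas_X (t : Fin 5) : Measurable (fun x : X => x t) := measurable_pi_apply _

lemma meas_uOf (i : Fin 3) : Measurable (uOf i) := by
  refine meas_mk (meas_nat (meas_nil.comp (meas_X _)) (fun n => 3 * (n / 2) + i)) ?_
  intro c
  fin_cases c <;> exact meas_X _

lemma meas_dOf (l : Fin 2) : Measurable (dOf l) := by
  refine meas_mk (meas_nat (meas_nil.comp (meas_X _)) (fun n => 2 * (n / 3) + l)) ?_
  intro c
  fin_cases c <;> exact meas_X _

lemma meas_cond {α : Type} [MeasurableSpace α] {f : α → ℕ} (hf : Measurable f) (P : ℕ → Prop) :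
    MeasurableSet {a | P (f a)} := hf (Set.Countable.measurableSet (Set.to_countable {n | P n}))

lemma meas_tgt : Measurable (fun p : H × H => tgtNode p.1 p.2) := by
  refine measurable_pi_iff.2 fun t => ?_
  simp only [tgtNode]
  refine Measurable.ite (MeasurableSet.const _) ((meas_sub 1).comp measurable_snd) ?_
  refine Measurable.ite (MeasurableSet.const _) ((meas_sub 2).comp measurable_snd) ?_
  refine Measurable.ite (MeasurableSet.const _) ((meas_sub 3).comp measurable_snd) ?_
  refine Measurable.ite ?_ measurable_fst ((meas_sub 0).comp measurable_snd)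
  exact meas_cond (meas_nil.comp measurable_snd) (fun n => (t = 3 ↔ n % 2 = 0))

lemma meas_src : Measurable (fun p : H × H => srcNode p.1 p.2) := by
  refine measurable_pi_iff.2 fun t => ?_
  simp only [srcNode]
  refine Measurable.ite (MeasurableSet.const _) ((meas_sub 0).comp measurable_fst) ?_
  refine Measurable.ite (MeasurableSet.const _) ((meas_sub 1).comp measurable_fst) ?_
  refine Measurable.ite ?_ measurable_snd ?_
  · exact meas_cond (meas_nil.comp measurable_fst) (fun n => t.val = n % 3)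
  refine Measurable.ite ?_ ((meas_sub 2).comp measurable_fst) ((meas_sub 3).comp measurable_fst)
  exact meas_cond (meas_nil.comp measurable_fst) (fun n => t.val = (n + 1) % 3)

lemma meas_mv (t : Fin 5) : Measurable (mv t) := by
  rcases cases5 t with ⟨i, rfl⟩ | ⟨l, rfl⟩
  · have : mv (oI i) = fun x => tgtNode (uOf i x) (x (oI i)) := by
      funext x; exact (tgt_out i x).symm
    rw [this]
    exact meas_tgt.comp ((meas_uOf i).prodMk (meas_X _))
  · have : mv (iI l) = fun x => srcNode (x (iI l)) (dOf l x) := by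
      funext x; exact (src_in l x).symm
    rw [this]
    exact meas_src.comp ((meas_X _).prodMk (meas_dOf l))

lemma meas_act (v : List (Fin 5)) : Measurable (act v) := by
  induction v with
  | nil => exact measurable_id
  | cons t v ih => exact ih.comp (meas_mv t)

lemma meas_rev (t : Fin 5) : Measurable (rev t) := by
  have : Measurable (fun n : ℕ => if t.val < 3 then (if n % 2 = 0 then (3 : Fin 5) else 4)
      else if n % 3 = 0 then 0 else if n % 3 = 1 then 1 else 2) := measurable_of_countable _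
  exact this.comp (meas_nil.comp (meas_X t))

instance : MeasurableSpace (List (Fin 5)) := ⊤

instance : DiscreteMeasurableSpace (List (Fin 5)) := ⟨fun _ => trivial⟩

lemma meas_fwd (v : List (Fin 5)) : Measurable (fwd v) := by
  induction v with
  | nil => exact measurable_const
  | cons t v ih =>
    have h1 : Measurable (fun p : List (Fin 5) × Fin 5 => p.1 ++ [p.2]) :=
      measurable_of_countable _
    exact h1.comp ((ih.comp (meas_mv t)).prodMk (meas_rev t))

/-! ### counting -/

/-- cons as an embedding -/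
def consEmb : Fin 5 × List (Fin 5) ↪ List (Fin 5) where
  toFun p := p.1 :: p.2
  inj' := by
    intro p q h
    simp only [List.cons.injEq] at h
    exact Prod.ext h.1 h.2

lemma consEmb_apply (p : Fin 5 × List (Fin 5)) : consEmb p = p.1 :: p.2 := rfl

/-- lists of length `r` -/
def L : ℕ → Finset (List (Fin 5))
  | 0 => {[]}
  | r + 1 => (Finset.univ ×ˢ L r).map consEmb

lemma mem_L (r : ℕ) : ∀ v, v ∈ L r ↔ v.length = r := by
  induction r with
  | zero => intro v; simp [L]
  | succ r ih =>
    intro v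
    simp only [L, Finset.mem_map, Finset.mem_product, Finset.mem_univ, true_and,
      consEmb_apply, Prod.exists]
    constructor
    · rintro ⟨t, v', h, rfl⟩
      simp [(ih v').1 h]
    · intro h
      cases v with
      | nil => simp at h
      | cons t v' => exact ⟨t, v', (ih v').2 (by simpa using h), rfl⟩

lemma sum_L (r : ℕ) (φ : List (Fin 5) → ℤ) :
    ∑ v ∈ L (r + 1), φ v = ∑ t, ∑ v ∈ L r, φ (t :: v) := by
  simp only [L, Finset.sum_map, consEmb_apply, Finset.sum_product]

open Classical in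
/-- indicator -/
noncomputable def ind (P : Prop) : ℤ := if P then 1 else 0

lemma ind_true {P : Prop} (h : P) : ind P = 1 := by simp [ind, h]

lemma ind_false {P : Prop} (h : ¬ P) : ind P = 0 := by simp [ind, h]

lemma ind_nonneg (P : Prop) : 0 ≤ ind P := by unfold ind; split_ifs <;> simp

lemma ind_le_one (P : Prop) : ind P ≤ 1 := by unfold ind; split_ifs <;> simp

lemma ind_prefix (p q : List (Fin 5)) :
    ind (p <+: q) = ind (p = q) + ∑ t, ind ((p ++ [t]) <+: q) := by
  by_cases h : p <+: q
  · obtain ⟨z, rfl⟩ := h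
    rw [ind_true ⟨z, rfl⟩]
    cases z with
    | nil =>
      rw [ind_true (by simp)]
      have : ∀ t, ind ((p ++ [t]) <+: p ++ []) = 0 := fun t => ind_false fun h => by
        have := h.length_le
        simp at this
      rw [Finset.sum_eq_zero fun t _ => this t, add_zero]
    | cons a z =>
      rw [ind_false (by simp)]
      have : ∀ t, ind ((p ++ [t]) <+: p ++ a :: z) = if t = a then 1 else 0 := by
        intro t
        rw [List.prefix_append_right_inj, List.cons_prefix_cons]
        split_ifs with h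
        · exact ind_true ⟨h, List.nil_prefix⟩
        · exact ind_false fun h' => h h'.1
      rw [Finset.sum_congr rfl fun t _ => this t]
      simp
  · rw [ind_false h, ind_false (fun h' => h (by rw [h'])) ]
    have : ∀ t, ind ((p ++ [t]) <+: q) = 0 := fun t => ind_false fun h' =>
      h ((List.prefix_append p [t]).trans h')
    rw [Finset.sum_eq_zero fun t _ => this t, add_zero]

section

variable (w : X → Bool → List (Fin 5))

/-- tokens crossing the link `t` of `x` after having made `r` steps -/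
noncomputable def Cr (r : ℕ) (x : X) (t : Fin 5) : ℤ :=
  ∑ v ∈ L r, ∑ ε : Bool, ind ((fwd v x ++ [t]) <+: w (act v x) ε)

/-- tokens at `x` after `r` steps -/
noncomputable def Tok (r : ℕ) (x : X) : ℤ :=
  ∑ v ∈ L r, ∑ ε : Bool, ind (fwd v x <+: w (act v x) ε)

/-- tokens which end at `x` after `r` steps -/
noncomputable def Ab (r : ℕ) (x : X) : ℤ :=
  ∑ v ∈ L r, ∑ ε : Bool, ind (fwd v x = w (act v x) ε)

lemma Tok_eq (r : ℕ) (x : X) : Tok w r x = Ab w r x + ∑ t, Cr w r x t := by
  simp only [Tok, Ab, Cr]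
  rw [Finset.sum_comm (s := Finset.univ (α := Fin 5)), ← Finset.sum_add_distrib]
  refine Finset.sum_congr rfl fun v _ => ?_
  rw [Finset.sum_comm (s := Finset.univ (α := Fin 5)), ← Finset.sum_add_distrib]
  exact Finset.sum_congr rfl fun ε _ => ind_prefix _ _

lemma Tok_zero (x : X) : Tok w 0 x = 2 := by
  simp only [Tok, L, Finset.sum_singleton, fwd, act]
  have : ∀ ε : Bool, ind ([] <+: w x ε) = 1 := fun ε => ind_true List.nil_prefix
  rw [Finset.sum_congr rfl fun ε _ => this ε]
  simp

lemma Tok_succ (r : ℕ) (x : X) : Tok w (r + 1) x = ∑ t, Cr w r (mv t x) (rev t x) := by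
  simp only [Tok, Cr, sum_L, fwd, act]

lemma Cr_nonneg (r : ℕ) (x : X) (t : Fin 5) : 0 ≤ Cr w r x t :=
  Finset.sum_nonneg fun _ _ => Finset.sum_nonneg fun _ _ => ind_nonneg _

lemma Ab_nonneg (r : ℕ) (x : X) : 0 ≤ Ab w r x :=
  Finset.sum_nonneg fun _ _ => Finset.sum_nonneg fun _ _ => ind_nonneg _

lemma Cr_le (r : ℕ) (x : X) (t : Fin 5) : Cr w r x t ≤ 2 * (L r).card := by
  calc Cr w r x t ≤ ∑ v ∈ L r, ∑ ε : Bool, (1 : ℤ) :=
        Finset.sum_le_sum fun _ _ => Finset.sum_le_sum fun _ _ => ind_le_one _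
    _ = 2 * (L r).card := by simp [mul_comm]

variable {w} {k : ℕ}

lemma Cr_zero (hk : ∀ x ε, (w x ε).length ≤ k) {r : ℕ} (hr : k ≤ r) (x : X) (t : Fin 5) :
    Cr w r x t = 0 := by
  refine Finset.sum_eq_zero fun v hv => Finset.sum_eq_zero fun ε _ => ind_false fun h => ?_
  have h1 := h.length_le
  have h2 := hk (act v x) ε
  rw [mem_L] at hv
  simp [length_fwd] at h1
  omega

lemma sum_Ab (hinj : ∀ x ε x' ε', act (w x ε) x = act (w x' ε') x' → x = x' ∧ ε = ε')
    (R : Finset ℕ) (x : X) : ∑ r ∈ R, Ab w r x ≤ 1 := by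
  by_cases h : ∃ v ε, fwd v x = w (act v x) ε
  · obtain ⟨v0, ε0, h0⟩ := h
    have h1 : ∀ v ε, ind (fwd v x = w (act v x) ε) ≤ if v = v0 then (if ε = ε0 then 1 else 0) else 0 := by
      intro v ε
      by_cases hv : fwd v x = w (act v x) ε
      · have e1 : act (w (act v x) ε) (act v x) = act (w (act v0 x) ε0) (act v0 x) := by
          rw [← hv, ← h0, act_fwd, act_fwd]
        obtain ⟨e2, e3⟩ := hinj _ _ _ _ e1
        have e4 : v = v0 := by
          rw [← fwd_fwd v x, ← fwd_fwd v0 x, hv, h0, e2, e3]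
        rw [ind_true hv, if_pos e4, if_pos e3]
      · rw [ind_false hv]
        split_ifs <;> simp
    have h2 : ∀ r, Ab w r x ≤ if r = v0.length then 1 else 0 := by
      intro r
      calc Ab w r x ≤ ∑ v ∈ L r, ∑ ε : Bool, (if v = v0 then (if ε = ε0 then (1 : ℤ) else 0) else 0) :=
            Finset.sum_le_sum fun v _ => Finset.sum_le_sum fun ε _ => h1 v ε
        _ = ∑ v ∈ L r, (if v = v0 then (1 : ℤ) else 0) := by
            refine Finset.sum_congr rfl fun v _ => ?_
            by_cases hv : v = v0 <;> simp [hv]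
        _ = if v0 ∈ L r then 1 else 0 := by
            rw [Finset.sum_ite_eq' (L r) v0 (fun _ => (1 : ℤ))]
        _ = if r = v0.length then 1 else 0 := by
            simp only [mem_L, eq_comm]
    calc ∑ r ∈ R, Ab w r x ≤ ∑ r ∈ R, (if r = v0.length then (1 : ℤ) else 0) :=
          Finset.sum_le_sum fun r _ => h2 r
      _ = if v0.length ∈ R then 1 else 0 := by
          rw [Finset.sum_ite_eq' R v0.length (fun _ => (1 : ℤ))]
      _ ≤ 1 := by split_ifs <;> simp
  · push Not at h
    have h1 : ∀ r, Ab w r x = 0 := fun r =>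
      Finset.sum_eq_zero fun v _ => Finset.sum_eq_zero fun ε _ => ind_false (h v ε)
    simp [h1]

variable (w) (k)

/-- tokens of age at least `s` crossing the link `t` of `x`. -/
noncomputable def C (s : ℕ) (x : X) (t : Fin 5) : ℤ := ∑ r ∈ Finset.Ico s (k + 1), Cr w r x t

variable {w} {k}

lemma sum_C_in (s : ℕ) (x : X) :
    ∑ t, C w k s (mv t x) (rev t x) = ∑ r ∈ Finset.Ico (s + 1) (k + 2), Tok w r x := by
  simp only [C]
  rw [Finset.sum_comm, ← Finset.sum_Ico_add' _ s (k + 1) 1]
  exact Finset.sum_congr rfl fun r _ => (Tok_succ w r x).symm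

lemma sum_C_out (s : ℕ) (x : X) :
    ∑ t, C w k s x t = ∑ r ∈ Finset.Ico s (k + 1), (Tok w r x - Ab w r x) := by
  simp only [C]
  rw [Finset.sum_comm]
  exact Finset.sum_congr rfl fun r _ => by rw [Tok_eq]; ring

lemma Tok_top (hk : ∀ x ε, (w x ε).length ≤ k) (x : X) : Tok w (k + 1) x = 0 := by
  rw [Tok_succ]
  exact Finset.sum_eq_zero fun t _ => Cr_zero hk le_rfl _ _

lemma bal1 (hk : ∀ x ε, (w x ε).length ≤ k)
    (hinj : ∀ x ε x' ε', act (w x ε) x = act (w x' ε') x' → x = x' ∧ ε = ε') (x : X) :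
    1 + ∑ t, C w k 0 (mv t x) (rev t x) ≤ ∑ t, C w k 0 x t := by
  rw [sum_C_in, sum_C_out, Finset.sum_sub_distrib]
  have h1 := sum_Ab hinj (Finset.Ico 0 (k + 1)) x
  rw [Finset.sum_Ico_succ_top (by omega : 0 + 1 ≤ k + 1), Tok_top hk,
    Finset.sum_eq_sum_Ico_succ_bot (by omega : 0 < k + 1) (fun r => Tok w r x), Tok_zero]
  linarith

lemma bal2 (hk : ∀ x ε, (w x ε).length ≤ k)
    (hinj : ∀ x ε x' ε', act (w x ε) x = act (w x' ε') x' → x = x' ∧ ε = ε') (s : ℕ) (x : X) :
    ∑ t, C w k s (mv t x) (rev t x) ≤ 1 + ∑ t, C w k (s + 1) x t := by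
  rw [sum_C_in, sum_C_out, Finset.sum_sub_distrib]
  have h1 := sum_Ab hinj (Finset.Ico (s + 1) (k + 1)) x
  by_cases hs : s ≤ k
  · rw [Finset.sum_Ico_succ_top (by omega : s + 1 ≤ k + 1), Tok_top hk]
    linarith
  · rw [Finset.Ico_eq_empty (by omega : ¬ s + 1 < k + 2)]
    rw [Finset.Ico_eq_empty (by omega : ¬ s + 1 < k + 1)] at h1 ⊢
    simp

lemma C_nonneg (s : ℕ) (x : X) (t : Fin 5) : 0 ≤ C w k s x t :=
  Finset.sum_nonneg fun r _ => Cr_nonneg w r x t

lemma C_anti (s : ℕ) (x : X) (t : Fin 5) : C w k (s + 1) x t ≤ C w k s x t :=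
  Finset.sum_le_sum_of_subset_of_nonneg (Finset.Ico_subset_Ico_left (Nat.le_succ s))
    fun r _ _ => Cr_nonneg w r x t

lemma C_le (s : ℕ) (x : X) (t : Fin 5) :
    C w k s x t ≤ ∑ r ∈ Finset.range (k + 1), 2 * ((L r).card : ℤ) := by
  calc C w k s x t ≤ ∑ r ∈ Finset.range (k + 1), Cr w r x t :=
        Finset.sum_le_sum_of_subset_of_nonneg (by
          intro r hr; simp only [Finset.mem_Ico, Finset.mem_range] at hr ⊢; exact hr.2)
          fun r _ _ => Cr_nonneg w r x t
    _ ≤ _ := Finset.sum_le_sum fun r _ => Cr_le w r x t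

lemma C_top {s : ℕ} (hs : k + 1 ≤ s) (x : X) (t : Fin 5) : C w k s x t = 0 := by
  rw [C, Finset.Ico_eq_empty (by omega), Finset.sum_empty]

lemma meas_Cr (hw : ∀ (v : List (Fin 5)) (ε : Bool), MeasurableSet {x | w x ε = v}) (r : ℕ)
    (t : Fin 5) : Measurable (fun x => Cr w r x t) := by
  have hw' : ∀ ε, Measurable (fun x => w x ε) := fun ε =>
    measurable_to_countable' fun v => hw v ε
  refine Finset.measurable_sum _ fun v _ => Finset.measurable_sum _ fun ε _ => ?_
  have h1 : Measurable (fun p : List (Fin 5) × List (Fin 5) => ind ((p.1 ++ [t]) <+: p.2)) :=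
    measurable_of_countable _
  exact h1.comp ((meas_fwd v).prodMk ((hw' ε).comp (meas_act v)))

lemma meas_C (hw : ∀ (v : List (Fin 5)) (ε : Bool), MeasurableSet {x | w x ε = v}) (s : ℕ)
    (t : Fin 5) : Measurable (fun x => C w k s x t) :=
  Finset.measurable_sum _ fun r _ => meas_Cr hw r t

end

lemma sum5 (f : Fin 5 → ℤ) : ∑ t, f t = ∑ i : Fin 3, f (oI i) + ∑ l : Fin 2, f (iI l) := by
  simp only [Fin.sum_univ_succ, Fin.sum_univ_zero]
  simp [oI, iI]
  ring_nf

theorem main : Stm_P5 := by
  intro w k hk hw hinj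
  refine ⟨fun s u d => C w k s (srcNode u d) (oI (ol u)),
    fun s u d => C w k s (tgtNode u d) (iI (il d)),
    ∑ r ∈ Finset.range (k + 1), 2 * ((L r).card : ℤ), k + 1, ?_, ?_, ?_, ?_, ?_, ?_, ?_, ?_, ?_⟩
  · intro s
    have h1 : (fun p : H × H => C w k s (srcNode p.1 p.2) (oI (ol p.1))) =
        fun p => ∑ i : Fin 3, if ol p.1 = i then C w k s (srcNode p.1 p.2) (oI i) else 0 := by
      funext p
      simp
    rw [h1]
    refine Finset.measurable_sum _ fun i _ => Measurable.ite ?_ ((meas_C hw s _).comp meas_src)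
      measurable_const
    exact meas_cond (meas_nil.comp measurable_fst)
      (fun n => (if n % 3 = 0 then 0 else if n % 3 = 1 then 1 else 2 : Fin 3) = i)
  · intro s
    have h1 : (fun p : H × H => C w k s (tgtNode p.1 p.2) (iI (il p.2))) =
        fun p => ∑ l : Fin 2, if il p.2 = l then C w k s (tgtNode p.1 p.2) (iI l) else 0 := by
      funext p
      simp
    rw [h1]
    refine Finset.measurable_sum _ fun l _ => Measurable.ite ?_ ((meas_C hw s _).comp meas_tgt)
      measurable_const
    exact meas_cond (meas_nil.comp measurable_snd)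
      (fun n => (if n % 2 = 0 then 0 else 1 : Fin 2) = l)
  · exact fun s u d => ⟨C_nonneg _ _ _, C_le _ _ _⟩
  · exact fun s u d => ⟨C_nonneg _ _ _, C_le _ _ _⟩
  · exact fun s u d => C_anti _ _ _
  · exact fun s u d => C_anti _ _ _
  · exact fun s hs u d => ⟨C_top hs _ _, C_top hs _ _⟩
  · intro x
    have h := bal1 hk hinj x
    rw [sum5, sum5] at h
    simp only [src_in, tgt_in, src_out, tgt_out, ol_uOf, il_dOf, rev_out, rev_in,
      Finset.sum_sub_distrib] at h ⊢
    linarith
  · intro s x
    have h := bal2 hk hinj s x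
    rw [sum5, sum5] at h
    simp only [src_in, tgt_in, src_out, tgt_out, ol_uOf, il_dOf, rev_out, rev_in,
      Finset.sum_sub_distrib] at h ⊢
    linarith

end Pool.Agent.R549.BD.P5
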