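import Pool.Agent.R549.BD.Defs

/-! P6 of the project BD/PP (helper549): the group action and the final statement (helper569). -/

namespace Pool.Agent.R549.BD.P6

open Pool.Agent.R549.BD

theorem mk_eta (h : H) (l : ℕ) (ch : Fin 4 → H) (h0 : l = h []) (h1 : ∀ c, ch c = sub h c) :
    mk l ch = h := by
  funext w
  cases w with
  | nil => simpa [mk] using h0
  | cons c w => simp [mk, h1, sub]

@[simp] theorem mk_nil (l : ℕ) (ch : Fin 4 → H) : mk l ch [] = l := rfl
@[simp] theorem sub_mk (l : ℕ) (ch : Fin 4 → H) (c : Fin 4) : sub (mk l ch) c = ch c := rfl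

theorem src_uOf (i : Fin 3) (x : X) : srcNode (uOf i x) (x (oI i)) = x := by
  funext t
  fin_cases i <;> fin_cases t <;>
    simp [srcNode, uOf, oI, Nat.add_mod]

theorem tgt_dOf (l : Fin 2) (x : X) : tgtNode (x (iI l)) (dOf l x) = x := by
  funext t
  fin_cases l <;> fin_cases t <;>
    simp [tgtNode, dOf, iI, Nat.add_mod]

theorem mv_oI (i : Fin 3) (x : X) : mv (oI i) x = tgtNode (uOf i x) (x (oI i)) := by
  fin_cases i <;> simp [mv, oI]

theorem mv_iI (l : Fin 2) (x : X) : mv (iI l) x = srcNode (x (iI l)) (dOf l x) := by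
  fin_cases l <;> simp [mv, iI]

theorem tgt_iI (u d : H) (j : Fin 2) (h : d [] % 2 = j.val) : tgtNode u d (iI j) = u := by
  fin_cases j <;> simp_all [tgtNode, iI]

theorem dOf_tgt (u d : H) (j : Fin 2) (h : d [] % 2 = j.val) (h2 : u [] / 3 = d [] / 2) :
    dOf j (tgtNode u d) = d := by
  apply mk_eta
  · have h3 : tgtNode u d (if j = 0 then 3 else 4) = u := by
      have := tgt_iI u d j h
      simpa [iI] using this
    rw [h3, h2]
    omega
  · intro c
    fin_cases j <;> fin_cases c <;> simp_all [tgtNode]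

theorem src_oI (u d : H) (i : Fin 3) (h : u [] % 3 = i.val) : srcNode u d (oI i) = d := by
  fin_cases i <;> simp_all [srcNode, oI]

theorem uOf_src (u d : H) (i : Fin 3) (h : u [] % 3 = i.val) (h2 : u [] / 3 = d [] / 2) :
    uOf i (srcNode u d) = u := by
  apply mk_eta
  · have h3 : srcNode u d i.castSucc.castSucc = d := src_oI u d i h
    rw [h3, ← h2]
    omega
  · intro c
    fin_cases i <;> fin_cases c <;> simp_all [srcNode, Nat.add_mod]

theorem out_in (i : Fin 3) (j : Fin 2) (x : X) (h : x (oI i) [] % 2 = j.val) :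
    mv (iI j) (mv (oI i) x) = x ∧ mv (oI i) x (iI j) [] % 3 = i.val := by
  have hu : uOf i x [] = 3 * (x (oI i) [] / 2) + i.val := rfl
  have h1 : mv (oI i) x (iI j) = uOf i x := by rw [mv_oI, tgt_iI _ _ j h]
  refine ⟨?_, by rw [h1, hu]; omega⟩
  rw [mv_iI, h1]
  rw [mv_oI, dOf_tgt _ _ j h (by rw [hu]; omega), src_uOf]

theorem in_out (i : Fin 3) (j : Fin 2) (y : X) (h : y (iI j) [] % 3 = i.val) :
    mv (oI i) (mv (iI j) y) = y ∧ mv (iI j) y (oI i) [] % 2 = j.val := by
  have hd : dOf j y [] = 2 * (y (iI j) [] / 3) + j.val := rfl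
  have h1 : mv (iI j) y (oI i) = dOf j y := by rw [mv_iI, src_oI _ _ i h]
  refine ⟨?_, by rw [h1, hd]; omega⟩
  rw [mv_oI, h1]
  rw [mv_iI, uOf_src _ _ i h (by rw [hd]; omega), tgt_dOf]

/-! ### measurability -/

theorem meas_iff {α : Type*} [MeasurableSpace α] (f : α → H) :
    Measurable f ↔ ∀ w, Measurable (fun a => f a w) := measurable_pi_iff

theorem meas_sub {α : Type*} [MeasurableSpace α] {f : α → H} (hf : Measurable f) (c : Fin 4) :
    Measurable (fun a => sub (f a) c) :=
  measurable_pi_iff.2 (fun w => (measurable_pi_apply (c :: w)).comp hf)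

theorem meas_lab {α : Type*} [MeasurableSpace α] {f : α → H} (hf : Measurable f) :
    Measurable (fun a => f a []) := (measurable_pi_apply []).comp hf

theorem meas_fun {α : Type*} [MeasurableSpace α] {f : α → ℕ} (hf : Measurable f) (g : ℕ → ℕ) :
    Measurable (fun a => g (f a)) := (measurable_from_top (f := g)).comp hf

theorem meas_mk {α : Type*} [MeasurableSpace α] {l : α → ℕ} (hl : Measurable l)
    {ch : α → Fin 4 → H} (hc : ∀ c, Measurable (fun a => ch a c)) :
    Measurable (fun a => mk (l a) (ch a)) := by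
  apply measurable_pi_iff.2
  intro w
  cases w with
  | nil => exact hl
  | cons c w => exact (measurable_pi_apply w).comp (hc c)

theorem meas_tgt {α : Type*} [MeasurableSpace α] {u d : α → H} (hu : Measurable u)
    (hd : Measurable d) : Measurable (fun a => tgtNode (u a) (d a)) := by
  apply measurable_pi_iff.2
  intro t
  have hS : MeasurableSet {a | d a [] % 2 = 0} :=
    measurableSet_eq_fun (meas_fun (meas_lab hd) (fun n => n % 2)) measurable_const
  unfold tgtNode
  split_ifs with h0 h1 h2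
  · exact meas_sub hd 1
  · exact meas_sub hd 2
  · exact meas_sub hd 3
  · apply Measurable.ite _ hu (meas_sub hd 0)
    by_cases h3 : t = 3
    · simpa [h3] using hS
    · have : {a | (t = 3 ↔ d a [] % 2 = 0)} = {a | d a [] % 2 = 0}ᶜ := by
        ext a
        simp only [Set.mem_ofPred_eq, Set.mem_compl_iff, h3, false_iff]
      rw [this]
      exact hS.compl

theorem meas_src {α : Type*} [MeasurableSpace α] {u d : α → H} (hu : Measurable u)
    (hd : Measurable d) : Measurable (fun a => srcNode (u a) (d a)) := by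
  apply measurable_pi_iff.2
  intro t
  have hS : ∀ c : ℕ, MeasurableSet {a | t.val = (u a [] + c) % 3} := fun c =>
    measurableSet_eq_fun measurable_const (meas_fun (meas_lab hu) (fun n => (n + c) % 3))
  unfold srcNode
  split_ifs with h0 h1
  · exact meas_sub hu 0
  · exact meas_sub hu 1
  · exact Measurable.ite (by simpa using hS 0) hd
      (Measurable.ite (hS 1) (meas_sub hu 2) (meas_sub hu 3))

theorem meas_uOf (i : Fin 3) : Measurable (uOf i) := by
  apply meas_mk
  · exact meas_fun (meas_lab (measurable_pi_apply _)) (fun n => 3 * (n / 2) + i.val)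
  · intro c
    fin_cases c <;> exact measurable_pi_apply _

theorem meas_dOf (l : Fin 2) : Measurable (dOf l) := by
  apply meas_mk
  · exact meas_fun (meas_lab (measurable_pi_apply _)) (fun n => 2 * (n / 3) + l.val)
  · intro c
    fin_cases c <;> exact measurable_pi_apply _

theorem meas_mv (t : Fin 5) : Measurable (mv t) := by
  unfold mv
  split_ifs with h
  · exact meas_tgt (meas_uOf _) (measurable_pi_apply _)
  · exact meas_src (measurable_pi_apply _) (meas_dOf _)
  · exact meas_src (measurable_pi_apply _) (meas_dOf _)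

theorem meas_act (v : List (Fin 5)) : Measurable (act v) := by
  induction v with
  | nil => exact measurable_id
  | cons t v ih => exact ih.comp (meas_mv t)

theorem act_append (v v' : List (Fin 5)) (x : X) : act (v ++ v') x = act v' (act v x) := by
  induction v generalizing x with
  | nil => rfl
  | cons t v ih => exact ih (mv t x)

/-! ### the group -/

abbrev Y : Type := X × Bool

/-- the generators `g_ij` -/
noncomputable def gf (i : Fin 3) (j : Fin 2) (p : Y) : Y :=
  if p.2 = false then (if p.1 (oI i) [] % 2 = j.val then (mv (oI i) p.1, true) else p)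
  else (if p.1 (iI j) [] % 3 = i.val then (mv (iI j) p.1, false) else p)

theorem gf_false (i : Fin 3) (j : Fin 2) (x : X) (h : x (oI i) [] % 2 = j.val) :
    gf i j (x, false) = (mv (oI i) x, true) := by simp [gf, h]

theorem gf_inv (i : Fin 3) (j : Fin 2) : Function.Involutive (gf i j) := by
  rintro ⟨x, b⟩
  cases b
  · by_cases h : x (oI i) [] % 2 = j.val
    · have := out_in i j x h
      simp [gf, h, this.1, this.2]
    · simp [gf, h]
  · by_cases h : x (iI j) [] % 3 = i.val
    · have := in_out i j x h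
      simp [gf, h, this.1, this.2]
    · simp [gf, h]

theorem meas_gf (i : Fin 3) (j : Fin 2) : Measurable (gf i j) := by
  have hb : MeasurableSet {p : Y | p.2 = false} := measurable_snd (measurableSet_singleton false)
  have ho : MeasurableSet {p : Y | p.1 (oI i) [] % 2 = j.val} :=
    measurableSet_eq_fun (meas_fun (meas_lab ((measurable_pi_apply (oI i)).comp measurable_fst))
      (fun n => n % 2)) measurable_const
  have hi : MeasurableSet {p : Y | p.1 (iI j) [] % 3 = i.val} :=
    measurableSet_eq_fun (meas_fun (meas_lab ((measurable_pi_apply (iI j)).comp measurable_fst))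
      (fun n => n % 3)) measurable_const
  exact Measurable.ite hb
    (Measurable.ite ho (((meas_mv (oI i)).comp measurable_fst).prodMk measurable_const)
      measurable_id)
    (Measurable.ite hi (((meas_mv (iI j)).comp measurable_fst).prodMk measurable_const)
      measurable_id)

noncomputable def gP (i : Fin 3) (j : Fin 2) : Equiv.Perm Y := (gf_inv i j).toPerm (gf i j)

def sf (p : Y) : Y := (p.1, !p.2)

theorem sf_inv : Function.Involutive sf := by
  rintro ⟨x, b⟩
  simp [sf]

def sP : Equiv.Perm Y := sf_inv.toPerm sf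

theorem meas_sf : Measurable sf :=
  measurable_fst.prodMk ((measurable_of_countable (fun b : Bool => !b)).comp measurable_snd)

/-- the generating set -/
noncomputable def gens : Set (Equiv.Perm Y) :=
  Set.range (fun q : Option (Fin 3 × Fin 2) => q.elim sP (fun r => gP r.1 r.2))

/-- bounded displacement together with measurability -/
def Good (g : Equiv.Perm Y) : Prop :=
  Measurable g ∧ ∃ k : ℕ, ∀ y : Y, ∃ v : List (Fin 5), v.length ≤ k ∧ (g y).1 = act v y.1

theorem good_gens : ∀ g ∈ gens, Good g := by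
  rintro g ⟨q, rfl⟩
  rcases q with _ | ⟨i, j⟩
  · refine ⟨meas_sf, 0, fun y => ⟨[], le_rfl, rfl⟩⟩
  · refine ⟨meas_gf i j, 1, fun y => ?_⟩
    show ∃ v : List (Fin 5), v.length ≤ 1 ∧ (gf i j y).1 = act v y.1
    unfold gf
    split_ifs
    · exact ⟨[oI i], le_rfl, rfl⟩
    · exact ⟨[], Nat.zero_le _, rfl⟩
    · exact ⟨[iI j], le_rfl, rfl⟩
    · exact ⟨[], Nat.zero_le _, rfl⟩

theorem gens_inv : ∀ g ∈ gens, g⁻¹ = g := by
  rintro g ⟨q, rfl⟩
  rcases q with _ | ⟨i, j⟩ <;> rfl

theorem good_closure : ∀ g ∈ Subgroup.closure gens, Good g ∧ Good g⁻¹ := by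
  intro g hg
  induction hg using Subgroup.closure_induction with
  | mem g h => exact ⟨good_gens g h, by rw [gens_inv g h]; exact good_gens g h⟩
  | one =>
    refine ⟨⟨measurable_id, 0, fun y => ⟨[], le_rfl, rfl⟩⟩, ?_⟩
    rw [inv_one]
    exact ⟨measurable_id, 0, fun y => ⟨[], le_rfl, rfl⟩⟩
  | mul g h _ _ hg hh =>
    have key : ∀ a b : Equiv.Perm Y, Good a → Good b → Good (a * b) := by
      rintro a b ⟨ma, ka, ha⟩ ⟨mb, kb, hb⟩
      refine ⟨ma.comp mb, kb + ka, fun y => ?_⟩
      obtain ⟨v, hv, ev⟩ := hb y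
      obtain ⟨v', hv', ev'⟩ := ha (b y)
      refine ⟨v ++ v', by simp; omega, ?_⟩
      rw [act_append, ← ev, ← ev']
      rfl
    exact ⟨key g h hg.1 hh.1, by rw [mul_inv_rev]; exact key _ _ hh.2 hg.2⟩
  | inv g _ hg => exact ⟨hg.2, by rw [inv_inv]; exact hg.1⟩

abbrev Γ : Type := Subgroup.closure gens

theorem fgΓ : Group.FG Γ := by
  have : Finite gens := Set.finite_range _
  exact Group.closure_finite_fg gens

theorem smulΓ (g : Γ) (y : Y) : g • y = (g : Equiv.Perm Y) y := rfl

theorem measΓ (g : Γ) : Measurable (fun y : Y => g • y) := (good_closure g.1 g.2).1.1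

/-- the set `A` -/
def A : Set Y := {y | y.2 = false}

theorem measA : MeasurableSet A := measurable_snd (measurableSet_singleton false)

/-- the group elements `s * g_ij` -/
noncomputable def el (i : Fin 3) (j : Fin 2) : Γ :=
  ⟨sP * gP i j, Subgroup.mul_mem _ (Subgroup.subset_closure ⟨none, rfl⟩)
    (Subgroup.subset_closure ⟨some (i, j), rfl⟩)⟩

theorem el_smul (i : Fin 3) (j : Fin 2) (y : Y) : el i j • y = sf (gf i j y) := rfl

theorem el_false (i : Fin 3) (j : Fin 2) (x : X) (h : x (oI i) [] % 2 = j.val) :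
    el i j • ((x, false) : Y) = (mv (oI i) x, false) := by
  rw [el_smul, gf_false i j x h]; rfl

/-- the pieces -/
def PP (q : Fin 3 × Fin 2) : Set (Y × ℕ) :=
  {p | p.2 = q.1.val ∧ p.1.2 = false ∧ p.1.1 (oI q.1) [] % 2 = q.2.val}

def QQ (q : Fin 3 × Fin 2) : Set (Y × ℕ) :=
  {p | p.2 = q.2.val ∧ p.1.2 = false ∧ p.1.1 (iI q.2) [] % 3 = q.1.val}

theorem meas_lab' (t : Fin 5) (g : ℕ → ℕ) (c : ℕ) :
    MeasurableSet {p : Y × ℕ | g (p.1.1 t []) = c} :=
  measurableSet_eq_fun (meas_fun (meas_lab ((measurable_pi_apply t).comp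
    (measurable_fst.comp measurable_fst))) g) measurable_const

theorem meas_lev (c : ℕ) : MeasurableSet {p : Y × ℕ | p.2 = c} :=
  measurable_snd (measurableSet_singleton c)

theorem meas_side : MeasurableSet {p : Y × ℕ | p.1.2 = false} :=
  (measurable_snd.comp measurable_fst) (measurableSet_singleton false)

theorem meas_PP (q : Fin 3 × Fin 2) : MeasurableSet (PP q) :=
  (meas_lev _).inter (meas_side.inter (meas_lab' (oI q.1) (fun n => n % 2) _))

theorem meas_QQ (q : Fin 3 × Fin 2) : MeasurableSet (QQ q) :=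
  (meas_lev _).inter (meas_side.inter (meas_lab' (iI q.2) (fun n => n % 3) _))

theorem disj_PP (q q' : Fin 3 × Fin 2) (h : q ≠ q') : Disjoint (PP q) (PP q') := by
  rw [Set.disjoint_left]
  rintro p ⟨h1, _, h3⟩ ⟨h1', _, h3'⟩
  apply h
  have e1 : q.1 = q'.1 := Fin.ext (h1.symm.trans h1')
  refine Prod.ext e1 (Fin.ext ?_)
  rw [← h3, ← h3', e1]

theorem disj_QQ (q q' : Fin 3 × Fin 2) (h : q ≠ q') : Disjoint (QQ q) (QQ q') := by
  rw [Set.disjoint_left]
  rintro p ⟨h1, _, h3⟩ ⟨h1', _, h3'⟩
  apply h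
  have e1 : q.2 = q'.2 := Fin.ext (h1.symm.trans h1')
  refine Prod.ext (Fin.ext ?_) e1
  rw [← h3, ← h3', e1]

theorem union_PP : copies 3 A = ⋃ q, PP q := by
  ext ⟨⟨x, b⟩, n⟩
  simp only [Set.mem_iUnion]
  constructor
  · rintro ⟨h1, h2⟩
    have h2' : n < 3 := h2
    exact ⟨(⟨n, h2'⟩, ⟨x (oI ⟨n, h2'⟩) [] % 2, Nat.mod_lt _ (by norm_num)⟩), rfl, h1, rfl⟩
  · rintro ⟨q, h1, h2, _⟩
    exact ⟨h2, by have : n = q.1.val := h1
                  rw [show (((x, b), n) : Y × ℕ).2 = n from rfl, this]; exact q.1.isLt⟩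

theorem union_QQ : copies 2 A = ⋃ q, QQ q := by
  ext ⟨⟨x, b⟩, n⟩
  simp only [Set.mem_iUnion]
  constructor
  · rintro ⟨h1, h2⟩
    have h2' : n < 2 := h2
    exact ⟨(⟨x (iI ⟨n, h2'⟩) [] % 3, Nat.mod_lt _ (by norm_num)⟩, ⟨n, h2'⟩), rfl, h1, rfl⟩
  · rintro ⟨q, h1, h2, _⟩
    exact ⟨h2, by have : n = q.2.val := h1
                  rw [show (((x, b), n) : Y × ℕ).2 = n from rfl, this]; exact q.2.isLt⟩

theorem image_QQ (q : Fin 3 × Fin 2) :
    QQ q = {p | ∃ y, (y, q.1.val) ∈ PP q ∧ p = (el q.1 q.2 • y, q.2.val)} := by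
  ext ⟨⟨z, b⟩, n⟩
  constructor
  · rintro ⟨h1, h2, h3⟩
    have h1' : n = q.2.val := h1
    have h2' : b = false := h2
    subst h1' h2'
    have h4 := in_out q.1 q.2 z h3
    refine ⟨(mv (iI q.2) z, false), ⟨rfl, rfl, h4.2⟩, ?_⟩
    rw [el_false _ _ _ h4.2, h4.1]
  · rintro ⟨⟨x, b'⟩, ⟨_, h2, h3⟩, he⟩
    have h2' : b' = false := h2
    subst h2'
    rw [el_false _ _ _ h3] at he
    rw [he]
    exact ⟨rfl, rfl, (out_in q.1 q.2 x h3).2⟩

theorem le32 : LeCopies Γ Y 3 2 A := by
  refine ⟨copies 2 A, subset_rfl, ?_, ?_⟩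
  · rw [union_QQ]
    exact MeasurableSet.iUnion meas_QQ
  · let e : Fin 6 ≃ Fin 3 × Fin 2 := (finProdFinEquiv (m := 3) (n := 2)).symm
    refine ⟨6, fun r => PP (e r), fun r => QQ (e r), fun r => el (e r).1 (e r).2,
      fun r => (e r).1.val, fun r => (e r).2.val, fun r => meas_PP _, fun r => meas_QQ _,
      fun r r' h => disj_PP _ _ (fun h' => h (e.injective h')),
      fun r r' h => disj_QQ _ _ (fun h' => h (e.injective h')), ?_, ?_, fun r p hp => hp.1,
      fun r => image_QQ (e r)⟩
    · rw [union_PP]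
      exact (e.surjective.iUnion_comp PP).symm
    · rw [union_QQ]
      exact (e.surjective.iUnion_comp QQ).symm

/-! ### no paradox -/

theorem meas_eqX {f g : X → X} (hf : Measurable f) (hg : Measurable g) :
    MeasurableSet {x | f x = g x} := by
  have : {x | f x = g x} = ⋂ t : Fin 5, ⋂ w : List (Fin 4), {x | f x t w = g x t w} := by
    ext x
    simp only [Set.mem_ofPred_eq, Set.mem_iInter]
    constructor
    · intro h t w
      rw [h]
    · intro h
      funext t w
      exact h t w
  rw [this]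
  refine MeasurableSet.iInter fun t => MeasurableSet.iInter fun w => ?_
  exact measurableSet_eq_fun
    ((measurable_pi_apply w).comp ((measurable_pi_apply t).comp hf))
    ((measurable_pi_apply w).comp ((measurable_pi_apply t).comp hg))

theorem toNat_inj' : ∀ a b : Bool, a.toNat = b.toNat → a = b := by decide

theorem not21 (hNT : Stm_NoTokens) : ¬ LeCopies Γ Y 2 1 A := by
  rintro ⟨B, hB, -, r, P, Q, γ, j, k, mP, -, dP, dQ, hA, hBQ, hj, hQ⟩
  classical
  have hdisp : ∀ q : Fin r, ∃ K : ℕ, ∀ y : Y, ∃ v : List (Fin 5), v.length ≤ K ∧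
      (γ q • y).1 = act v y.1 := fun q => (good_closure (γ q).1 (γ q).2).1.2
  choose K hK using hdisp
  let KK := ∑ q, K q
  have hKK : ∀ q, K q ≤ KK := fun q => Finset.single_le_sum (fun _ _ => Nat.zero_le _)
    (Finset.mem_univ q)
  let G : X → Bool → List (Fin 5) → Prop := fun x ε v =>
    v.length ≤ KK ∧ ∃ q : Fin r, (((x, false), ε.toNat) : Y × ℕ) ∈ P q ∧
      (γ q • ((x, false) : Y)).1 = act v x
  have hG : ∀ x ε, ∃ n, ∃ v, Encodable.encode v = n ∧ G x ε v := by
    intro x ε
    have h1 : (((x, false), ε.toNat) : Y × ℕ) ∈ copies 2 A :=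
      ⟨rfl, by cases ε <;> simp⟩
    rw [hA, Set.mem_iUnion] at h1
    obtain ⟨q, hq⟩ := h1
    obtain ⟨v, hv, ev⟩ := hK q (x, false)
    exact ⟨_, v, rfl, hv.trans (hKK q), q, hq, ev⟩
  let w : X → Bool → List (Fin 5) := fun x ε => (Nat.find_spec (hG x ε)).choose
  have hw1 : ∀ x ε, Encodable.encode (w x ε) = Nat.find (hG x ε) := fun x ε =>
    (Nat.find_spec (hG x ε)).choose_spec.1
  have hw2 : ∀ x ε, G x ε (w x ε) := fun x ε => (Nat.find_spec (hG x ε)).choose_spec.2
  have mG : ∀ v ε, MeasurableSet {x | G x ε v} := by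
    intro v ε
    have : {x | G x ε v} = {x | v.length ≤ KK} ∩ ⋃ q : Fin r,
        ((fun x : X => (((x, false), ε.toNat) : Y × ℕ)) ⁻¹' P q ∩
          {x | (γ q • ((x, false) : Y)).1 = act v x}) := by
      ext x
      simp only [G, Set.mem_ofPred_eq, Set.mem_inter_iff, Set.mem_iUnion, Set.mem_preimage]
    rw [this]
    have hm : Measurable (fun x : X => ((x, false) : Y)) := measurable_id.prodMk measurable_const
    refine (MeasurableSet.const _).inter (MeasurableSet.iUnion fun q => ?_)
    refine ((hm.prodMk measurable_const) (mP q)).inter (meas_eqX ?_ (meas_act v))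
    exact measurable_fst.comp ((measΓ (γ q)).comp hm)
  refine hNT w KK (fun x ε => (hw2 x ε).1) ?_ ?_
  · intro v ε
    have : {x | w x ε = v} = {x | G x ε v} ∩ ⋂ v' : List (Fin 5),
        {x | Encodable.encode v' < Encodable.encode v → ¬ G x ε v'} := by
      ext x
      simp only [Set.mem_inter_iff, Set.mem_iInter, Set.mem_ofPred_eq]
      constructor
      · rintro rfl
        refine ⟨hw2 x ε, fun v' hv' hG' => ?_⟩
        rw [hw1] at hv'
        exact Nat.find_min (hG x ε) hv' ⟨v', rfl, hG'⟩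
      · rintro ⟨h1, h2⟩
        apply Encodable.encode_injective
        apply le_antisymm
        · rw [hw1]
          exact Nat.find_min' (hG x ε) ⟨v, rfl, h1⟩
        · by_contra hlt
          exact h2 _ (not_le.1 hlt) (hw2 x ε)
    rw [this]
    refine (mG v ε).inter (MeasurableSet.iInter fun v' => ?_)
    by_cases hlt : Encodable.encode v' < Encodable.encode v
    · have : {x | Encodable.encode v' < Encodable.encode v → ¬ G x ε v'} = {x | G x ε v'}ᶜ := by
        ext x
        simp only [Set.mem_ofPred_eq, Set.mem_compl_iff, hlt, true_imp_iff]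
      rw [this]
      exact (mG v' ε).compl
    · have : {x | Encodable.encode v' < Encodable.encode v → ¬ G x ε v'} = Set.univ := by
        ext x
        simp only [Set.mem_ofPred_eq, hlt, false_imp_iff, Set.mem_univ]
      rw [this]
      exact MeasurableSet.univ
  · intro x ε x' ε' h
    obtain ⟨_, q, hq, eq⟩ := hw2 x ε
    obtain ⟨_, q', hq', eq'⟩ := hw2 x' ε'
    have him : ∀ (x : X) (ε : Bool) (q : Fin r), (((x, false), ε.toNat) : Y × ℕ) ∈ P q →
        ((γ q • ((x, false) : Y), k q) : Y × ℕ) ∈ Q q ∧ k q = 0 ∧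
          (γ q • ((x, false) : Y)).2 = false ∧ ε.toNat = j q := by
      intro x ε q hq
      have hjq : ε.toNat = j q := hj q _ hq
      have h1 : ((γ q • ((x, false) : Y), k q) : Y × ℕ) ∈ Q q := by
        rw [hQ q]
        exact ⟨(x, false), by rw [← hjq]; exact hq, rfl⟩
      have h2 : ((γ q • ((x, false) : Y), k q) : Y × ℕ) ∈ copies 1 A := by
        apply hB
        rw [hBQ]
        exact Set.mem_iUnion.2 ⟨q, h1⟩
      exact ⟨h1, by have := h2.2; simpa using this, h2.1, hjq⟩
    obtain ⟨a1, a2, a3, a4⟩ := him x ε q hq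
    obtain ⟨b1, b2, b3, b4⟩ := him x' ε' q' hq'
    have hpt : (γ q • ((x, false) : Y)) = γ q' • ((x', false) : Y) := by
      apply Prod.ext
      · rw [eq, eq', h]
      · rw [a3, b3]
    have hqq : q = q' := by
      by_contra hne
      rw [hpt, a2, ← b2] at a1
      exact Set.disjoint_left.1 (dQ q q' hne) a1 b1
    subst hqq
    have hx : ((x, false) : Y) = (x', false) := by
      have := congrArg (fun z => (γ q)⁻¹ • z) hpt
      simpa using this
    have hε : ε.toNat = ε'.toNat := a4.trans b4.symm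
    exact ⟨(Prod.ext_iff.1 hx).1, toNat_inj' ε ε' hε⟩

theorem main : Stm_P6 := by
  intro hNT
  exact ⟨Y, inferInstance, inferInstance, Γ, inferInstance, inferInstance, A, fgΓ, measΓ, measA,
    le32, not21 hNT⟩

end Pool.Agent.R549.BD.P6
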