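import Pool.Agent.R549.BD.L1
import Pool.Agent.R549.BD.L2
import Pool.Agent.R549.BD.L3
import Pool.Agent.R549.BD.P0
import Pool.Agent.R549.BD.P3
import Pool.Agent.R549.BD.P5
import Pool.Agent.R549.BD.P6

/-! Borel determinacy and its consequences: assembly of the project BD/PP (helper549). -/

namespace Pool.Agent.R549.BD

universe u

/-- **Martin's theorem**: Borel games on arbitrary trees are determined. -/
theorem borelDet : Stm_BorelDet.{u} := L3.L4 L1.main L2.main

/-- Borel dichotomy for labelled trees. -/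
theorem dich : Stm_Dich := P0.main borelDet

/-- There is no bounded Borel token system with injective ends. -/
theorem noTokens : Stm_NoTokens := by
  intro w k h1 h2 h3
  obtain ⟨Xs, Ys, K, k0, a1, a2, a3, a4, a5, a6, a7, a8, a9⟩ := P5.main w k h1 h2 h3
  exact P3.main dich Xs Ys K k0 a1 a2 a3 a4 a5 a6 a7 a8 a9

theorem plain : ∃ (Y : Type) (_ : MeasurableSpace Y) (_ : StandardBorelSpace Y) (Γ : Type)
    (_ : Group Γ) (_ : MulAction Γ Y) (A : Set Y), Group.FG Γ ∧
    (∀ g : Γ, Measurable (fun y : Y => g • y)) ∧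
    MeasurableSet A ∧ LeCopies Γ Y 3 2 A ∧ ¬ LeCopies Γ Y 2 1 A := P6.main noTokens

end Pool.Agent.R549.BD
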